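import Pool.Agent.Work.MP_8491f2_lc.DP.Iso

/-!
# MP_8491f2_lc/DP, Bag (size S-M): adding the boundary to all bags

PROOF.  `TwLe G k` gives a tree decomposition with bags `≤ k + 1`; add all boundary vertices `Sum.inl i` to every bag: the nodes of a boundary vertex are all nodes (the induced graph on `Set.univ` is connected because the tree is), the nodes of the other vertices do not change, cardinality `≤ k + 1 + s`; every bag contains the boundary, take any node (a tree is nonempty).
-/

set_option autoImplicit false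

namespace Pool.Agent.Work.MP_8491f2_lc

namespace DP

/-- `G` has a tree decomposition of width at most `k` with a bag that contains the boundary. -/
def SideLe {s : ℕ} {γ : Type} (G : SimpleGraph (Fin s ⊕ γ)) (k : ℕ) : Prop :=
  ∃ (X : Type) (_ : Finite X) (T : SimpleGraph X) (B : X → Finset (Fin s ⊕ γ)),
    IsTreeDec G T B ∧ (∀ x, (B x).card ≤ k + 1) ∧ ∃ x, ∀ i : Fin s, Sum.inl i ∈ B x

theorem sideLe_of_twLe {s : ℕ} {γ : Type} (G : SimpleGraph (Fin s ⊕ γ)) {k : ℕ}
    (h : TwLe G k) : SideLe G (k + s) := by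
  classical
  obtain ⟨X, hX, T, B, hD, hB⟩ := h
  set I : Finset (Fin s ⊕ γ) := Finset.univ.image Sum.inl with hI
  have hIm : ∀ v : Fin s ⊕ γ, v ∈ I ↔ ∃ i : Fin s, Sum.inl i = v := by
    intro v
    rw [hI, Finset.mem_image]
    simp
  refine ⟨X, hX, T, fun x => B x ∪ I, ⟨hD.isTree, ?_, ?_⟩, ?_, ?_⟩
  · intro u v huv
    obtain ⟨x, h1, h2⟩ := hD.edge u v huv
    exact ⟨x, Finset.mem_union_left _ h1, Finset.mem_union_left _ h2⟩
  · intro v
    by_cases hv : v ∈ I
    · have e : {x | v ∈ B x ∪ I} = Set.univ := by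
        ext x
        simp [hv]
      rw [e]
      exact (SimpleGraph.Iso.connected_iff (SimpleGraph.induceUnivIso T)).2 hD.isTree.1
    · have e : {x | v ∈ B x ∪ I} = {x | v ∈ B x} := by
        ext x
        simp [hv]
      rw [e]
      exact hD.conn v
  · intro x
    have h1 : (B x ∪ I).card ≤ (B x).card + I.card := Finset.card_union_le _ _
    have h2 : I.card ≤ s := by
      rw [hI]
      refine Finset.card_image_le.trans ?_
      simp
    have h3 := hB x
    show (B x ∪ I).card ≤ k + s + 1
    omega
  · obtain ⟨x⟩ := hD.isTree.1.nonempty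
    exact ⟨x, fun i => Finset.mem_union_right _ ((hIm _).2 ⟨i, rfl⟩)⟩

end DP

end Pool.Agent.Work.MP_8491f2_lc
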