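import Mathlib

/-!
# MP_8491f2_lc/DP, CountB (size M): the choice of `m`, fixed left side

PROOF as in Count.lean: `κ = (k + 2) / 4 ≥ 6`, `4 κ + 1 ≥ k`, so `5 κ ≥ k`; `e = Nat.log 3 n / 28`, `m = κ e`; the size is at most `(18 (κ e + 5) + 2) 6 κ 3 ^ (27 e + 27) ≤ 3 ^ (28 e) ≤ n` for large `e`; `n < 3 ^ (56 e)`, `n ^ (k / 1000) ≤ 4 ^ (56 e k / 1000) = 2 ^ (112 e k / 1000) ≤ 2 ^ (112 * 5 κ e / 1000) = 2 ^ (0.56 κ e) ≤ 2 ^ (κ e - 1)` (`κ e ≥ 6`).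
-/

set_option autoImplicit false

namespace Pool.Agent.Work.MP_8491f2_lc

namespace DP

private theorem cb_sq_le (e : ℕ) : e ^ 2 ≤ 3 ^ e := by
  induction e with
  | zero => norm_num
  | succ e ih =>
    rcases Nat.lt_or_ge e 2 with h | h
    · interval_cases e <;> norm_num
    · rw [pow_succ 3 e]
      nlinarith

private theorem cb_lin_le {A B e : ℕ} (h : A + B + 1 ≤ e) : A * e + B ≤ 3 ^ e := by
  refine le_trans ?_ (cb_sq_le e)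
  nlinarith [Nat.zero_le A, Nat.zero_le B]

private theorem cb_num {k κ e : ℕ} (hκk : k ≤ 5 * κ) (hκe : 6 ≤ κ * e) :
    ((112 * e : ℕ) : ℝ) * ((k : ℝ) / 1000) ≤ ((κ * e - 1 : ℕ) : ℝ) := by
  have h1 : 112 * e * k ≤ 1000 * (κ * e - 1) := by
    calc 112 * e * k ≤ 112 * e * (5 * κ) := Nat.mul_le_mul_left _ hκk
      _ = 560 * (κ * e) := by ring
      _ ≤ 1000 * (κ * e - 1) := by
        generalize κ * e = z at hκe
        omega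
  have h2 : ((112 * e * k : ℕ) : ℝ) ≤ ((1000 * (κ * e - 1) : ℕ) : ℝ) := by
    exact_mod_cast h1
  generalize κ * e - 1 = z at h2
  push_cast at h2 ⊢
  linarith

private theorem cb_up {e n : ℕ} (he1 : 1 ≤ e) (hup : n < 3 ^ (28 * (e + 1))) :
    (n : ℝ) ≤ 2 ^ (112 * e) := by
  have h2 : n ≤ 2 ^ (112 * e) := by
    calc n ≤ 3 ^ (28 * (e + 1)) := hup.le
      _ ≤ 3 ^ (56 * e) := Nat.pow_le_pow_right (by norm_num) (by omega)
      _ ≤ 4 ^ (56 * e) := Nat.pow_le_pow_left (by norm_num) _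
      _ = 2 ^ (112 * e) := by
        rw [show (4 : ℕ) = 2 ^ 2 by norm_num, ← pow_mul]
        congr 1
        omega
  exact_mod_cast h2

private theorem cb_aux {k κ e n : ℕ} (hκk : k ≤ 5 * κ) (he1 : 1 ≤ e) (hκe : 6 ≤ κ * e)
    (hup : n < 3 ^ (28 * (e + 1))) :
    (n : ℝ) ^ ((k : ℝ) / 1000) ≤ 2 ^ (κ * e - 1) := by
  have h1 := cb_up he1 hup
  have hr : (0 : ℝ) ≤ (k : ℝ) / 1000 := div_nonneg (Nat.cast_nonneg _) (by norm_num)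
  calc (n : ℝ) ^ ((k : ℝ) / 1000) ≤ ((2 : ℝ) ^ (112 * e)) ^ ((k : ℝ) / 1000) :=
        Real.rpow_le_rpow (Nat.cast_nonneg _) h1 hr
    _ = (2 : ℝ) ^ (((112 * e : ℕ) : ℝ) * ((k : ℝ) / 1000)) := by
        rw [← Real.rpow_natCast, ← Real.rpow_mul (by norm_num)]
    _ ≤ (2 : ℝ) ^ (((κ * e - 1 : ℕ)) : ℝ) :=
        Real.rpow_le_rpow_of_exponent_le (by norm_num) (cb_num hκk hκe)
    _ = 2 ^ (κ * e - 1) := Real.rpow_natCast _ _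

theorem countB (k : ℕ) (hk : 22 ≤ k) : ∃ n₀ : ℕ, ∀ n ≥ n₀, ∃ m : ℕ, 1 ≤ m ∧
    (18 * (m + 5) + 2) * (6 * ((k + 2) / 4)) *
      3 ^ ((27 * (m + 5) + 2 * ((k + 2) / 4) + 10) / ((k + 2) / 4)) ≤ n ∧
    (n : ℝ) ^ ((k : ℝ) / 1000) ≤ 2 ^ (m - 1) := by
  obtain ⟨κ, hκ⟩ : ∃ κ, κ = (k + 2) / 4 := ⟨_, rfl⟩
  rw [← hκ]
  have hκ6 : 6 ≤ κ := by omega
  have hκk : k ≤ 5 * κ := by omega
  clear hκ
  refine ⟨3 ^ (28 * ((108 * κ ^ 2 * 3 ^ 27) + (552 * κ * 3 ^ 27) + 1)), fun n hn => ?_⟩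
  obtain ⟨e, he⟩ : ∃ e, e = Nat.log 3 n / 28 := ⟨_, rfl⟩
  have hn0 : n ≠ 0 := by
    have : 0 < 3 ^ (28 * ((108 * κ ^ 2 * 3 ^ 27) + (552 * κ * 3 ^ 27) + 1)) := by
      positivity
    omega
  have hlog : 28 * ((108 * κ ^ 2 * 3 ^ 27) + (552 * κ * 3 ^ 27) + 1) ≤ Nat.log 3 n :=
    Nat.le_log_of_pow_le (by norm_num) hn
  have hee : (108 * κ ^ 2 * 3 ^ 27) + (552 * κ * 3 ^ 27) + 1 ≤ e := by
    rw [he]
    omega
  have hpoly := cb_lin_le hee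
  have he1 : 1 ≤ e := by omega
  have hκe : 6 ≤ κ * e := by
    calc 6 = 6 * 1 := rfl
      _ ≤ κ * e := Nat.mul_le_mul hκ6 he1
  have hlow : 3 ^ (28 * e) ≤ n := by
    refine le_trans ?_ (Nat.pow_log_le_self 3 hn0)
    exact Nat.pow_le_pow_right (by norm_num) (by omega)
  have hup : n < 3 ^ (28 * (e + 1)) := by
    refine lt_of_lt_of_le (Nat.lt_pow_succ_log_self (b := 3) (by norm_num) n) ?_
    exact Nat.pow_le_pow_right (by norm_num) (by omega)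
  refine ⟨κ * e, by omega, ?_, cb_aux hκk he1 hκe hup⟩
  have hE : (27 * (κ * e + 5) + 2 * κ + 10) / κ ≤ 27 * e + 27 := by
    have h1 : 27 * (κ * e + 5) + 2 * κ + 10 ≤ κ * (27 * e + 27) := by nlinarith
    calc (27 * (κ * e + 5) + 2 * κ + 10) / κ ≤ (κ * (27 * e + 27)) / κ := Nat.div_le_div_right h1
      _ = 27 * e + 27 := Nat.mul_div_cancel_left _ (by omega)
  have h2 : 3 ^ ((27 * (κ * e + 5) + 2 * κ + 10) / κ) ≤ 3 ^ 27 * 3 ^ (27 * e) := by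
    rw [← pow_add]
    exact Nat.pow_le_pow_right (by norm_num) (by omega)
  calc (18 * (κ * e + 5) + 2) * (6 * κ) * 3 ^ ((27 * (κ * e + 5) + 2 * κ + 10) / κ)
      ≤ (18 * (κ * e + 5) + 2) * (6 * κ) * (3 ^ 27 * 3 ^ (27 * e)) :=
        Nat.mul_le_mul_left _ h2
    _ = ((108 * κ ^ 2 * 3 ^ 27) * e + (552 * κ * 3 ^ 27)) * 3 ^ (27 * e) := by ring
    _ ≤ 3 ^ e * 3 ^ (27 * e) := Nat.mul_le_mul_right _ hpoly
    _ = 3 ^ (28 * e) := by rw [← pow_add]; congr 1; omega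
    _ ≤ n := hlow

/-- `n ^ (k / 1000)` is larger than `f k * (n + 1) ^ d` for some `k` and all large `n`. -/
theorem countB2 (f : ℕ → ℕ) (d : ℕ) : ∃ k : ℕ, 22 ≤ k ∧ ∃ n₁ : ℕ, ∀ n ≥ n₁,
    ((f k * (n + 1) ^ d : ℕ) : ℝ) < (n : ℝ) ^ ((k : ℝ) / 1000) := by
  obtain ⟨K, hK⟩ : ∃ K, K = 1000 * (d + 1) := ⟨_, rfl⟩
  have hK22 : 22 ≤ K := by omega
  have h1 : (K : ℝ) / 1000 = ((d + 1 : ℕ) : ℝ) := by
    rw [hK]
    push_cast
    ring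
  clear hK
  refine ⟨K, hK22, f K * 2 ^ d + 1, fun n hn => ?_⟩
  rw [h1, Real.rpow_natCast]
  have hn1 : 1 ≤ n := by omega
  have h2 : f K * (n + 1) ^ d < n ^ (d + 1) := by
    calc f K * (n + 1) ^ d ≤ f K * (2 * n) ^ d :=
          Nat.mul_le_mul_left _ (Nat.pow_le_pow_left (by omega) d)
      _ = (f K * 2 ^ d) * n ^ d := by rw [mul_pow, mul_assoc]
      _ < n * n ^ d := Nat.mul_lt_mul_of_pos_right (by omega) (by positivity)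
      _ = n ^ (d + 1) := by rw [pow_succ]; ring
  exact_mod_cast h2

end DP

end Pool.Agent.Work.MP_8491f2_lc
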