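import Pool.Agent.Work.MP_8491f2_lc.DP.Nx

/-!
# MP_8491f2_lc/DP, Adj (size M): the edges of the two sides

All instances have the same `κ`, `B = 27 (m + 5) + 2 κ + 10`, `T = 9 (m + 5)`, `hv` (`hv_quads`), they differ in `nx` only; so `ht`, `dep`, `lam`, `wt`, `Valid`, `BValid` are the same (`bvalid_iff`).
PROOFS (cases of `E u v`; `sides`, `root`, `child` do not mention `nx` and stay in one unit).
`e_left`: `next τ s`: `u = rail τ s`, `v = rail (nx τ) s`; `IsA (nx τ)` gives `IsA' τ` (`nx_mem_right`), so `nx τ` is the same for `y'` (`nx_left`).  `rootNext σ s`: `u = node (nx σ) s []`, `v = rail σ s`: the same.  `center σ s`: the unit of `u` is `T = 9 (m + 5)`, not `IsA`.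
`e_right`: `next τ s`: `u = rail τ s` is in the boundary or not `IsA`, so `¬ IsA' τ` and `nx τ` is the same (`nx_right`); `rootNext σ s`, `center σ s`: `v = rail σ s`, `¬ IsA' σ`, the same.
`e_cross`: `next τ s`: `E u v`: `u = rail τ s` is not in the boundary, so `IsA' τ`, `IsA (nx τ)`, but `v = rail (nx τ) s` is not `IsA`; `E v u`: `v = rail τ s`, `¬ IsA' τ`, so `¬ IsA (nx τ)`, but `u` is `IsA`.  `rootNext σ s`: `E u v`: `u = node (nx σ)`, `v = rail σ`: `¬ IsA' σ` so `¬ IsA (nx σ)`; `E v u`: `v = node (nx σ)`, `u = rail σ s` not in the boundary: `IsA' σ`, `IsA (nx σ)`.  `center σ s`: `E u v`: the unit of `u` is `T`, not `IsA`; `E v u`: `u = rail σ s` not in the boundary: `IsA' σ`, so `nx σ = T` is `IsA`: false.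
`badj_*`: from these, `BAdj p q` is `p.1 = q.1 ∧ p.2 ≠ q.2` or `p.1 ≠ q.1 ∧ (E p.1 q.1 ∨ E q.1 p.1)`.
-/

set_option autoImplicit false

namespace Pool.Agent.Work.MP_8491f2_lc

namespace DP

private theorem inst_eq (κ m : ℕ) (x y x' y' : ℕ → Bool) :
    instOf κ (quads m x y) =
      { instOf κ (quads m x' y') with nx := nxOf (quads m x y) } := by
  unfold instOf
  rw [quads_length, quads_length, hv_quads m x y x' y']

private theorem inst_T (κ m : ℕ) (x y : ℕ → Bool) :
    (instOf κ (quads m x y)).T = 9 * (m + 5) := by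
  show 9 * (quads m x y).length = 9 * (m + 5)
  rw [quads_length]

private theorem e_trans {I J : Inst} (hT : I.T = J.T) {u v : Vx} (h : I.E u v)
    (hn : ∀ σ s, ((u = rail σ s ∧ v = rail (I.nx σ) s ∧ I.nx σ < I.T) ∨
      (u = node (I.nx σ) s [] ∧ v = rail σ s ∧ I.nx σ < I.T) ∨
      (u = node I.T false [] ∧ v = rail σ s ∧ I.nx σ = I.T)) → I.nx σ = J.nx σ) : J.E u v := by
  cases h with
  | sides τ => exact Inst.E.sides τ
  | next τ s h1 =>
    have h2 := hn τ s (Or.inl ⟨rfl, rfl, h1⟩)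
    rw [h2, hT] at h1
    rw [h2]
    exact Inst.E.next τ s h1
  | root τ s h1 =>
    rw [hT] at h1
    exact Inst.E.root τ s h1
  | rootNext σ s h1 =>
    have h2 := hn σ s (Or.inr (Or.inl ⟨rfl, rfl, h1⟩))
    rw [h2, hT] at h1
    rw [h2]
    exact Inst.E.rootNext σ s h1
  | center σ s h1 =>
    have h2 := hn σ s (Or.inr (Or.inr ⟨rfl, rfl, h1⟩))
    rw [h2, hT] at h1
    rw [hT]
    exact Inst.E.center σ s h1
  | child τ s w a => exact Inst.E.child τ s w a

private theorem not_isA_T (m : ℕ) : ¬ IsA m (9 * (m + 5)) := by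
  rintro (h | h | h)
  · have := h.1
    omega
  · omega
  · omega

private theorem isA'_of {m σ : ℕ} {s : Bool} (h : IsA m σ) (hb : ¬ Bd m (rail σ s)) :
    IsA' m σ := by
  rcases h with h | h | h
  · exact h
  · exact absurd ⟨Or.inl h, rfl⟩ hb
  · exact absurd ⟨Or.inr h, rfl⟩ hb

private theorem not_isA'_of {m σ : ℕ} {s : Bool} (h : Bd m (rail σ s) ∨ ¬ IsA m σ) :
    ¬ IsA' m σ := by
  rcases h with h | h
  · intro h1
    have h2 := h1.1
    rcases h.1 with h3 | h3
    · have h4 : σ = 9 * m := h3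
      omega
    · have h4 : σ = 9 * m + 1 := h3
      omega
  · exact fun h1 => h (Or.inl h1)

private theorem e_left' {κ m : ℕ} {u v : Vx} (hu : IsA m u.1.1) (hv : IsA m v.1.1)
    {x y y' : ℕ → Bool}
    (h : (instOf κ (quads m x y)).E u v) : (instOf κ (quads m x y')).E u v := by
  refine e_trans (by rw [inst_T, inst_T]) h ?_
  intro σ s hσ
  show nxOf (quads m x y) σ = nxOf (quads m x y') σ
  have key : IsA m (nxOf (quads m x y) σ) → IsA' m σ := by
    intro h1
    by_contra h2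
    exact nx_mem_right h2 x y h1
  rcases hσ with ⟨_, h2, _⟩ | ⟨h2, _, _⟩ | ⟨h2, _, _⟩
  · rw [h2] at hv
    exact nx_left (key hv) x y y'
  · rw [h2] at hu
    exact nx_left (key hu) x y y'
  · rw [h2] at hu
    have h3 : IsA m ((instOf κ (quads m x y)).T) := hu
    rw [inst_T] at h3
    exact absurd h3 (not_isA_T m)

private theorem e_right' {κ m : ℕ} {u v : Vx} (hu : Bd m u ∨ ¬ IsA m u.1.1)
    (hv : Bd m v ∨ ¬ IsA m v.1.1) {x x' y : ℕ → Bool}
    (h : (instOf κ (quads m x y)).E u v) : (instOf κ (quads m x' y)).E u v := by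
  refine e_trans (by rw [inst_T, inst_T]) h ?_
  intro σ s hσ
  show nxOf (quads m x y) σ = nxOf (quads m x' y) σ
  rcases hσ with ⟨h1, _, _⟩ | ⟨_, h2, _⟩ | ⟨_, h2, _⟩
  · rw [h1] at hu
    exact nx_right (not_isA'_of hu) x x' y
  · rw [h2] at hv
    exact nx_right (not_isA'_of hv) x x' y
  · rw [h2] at hv
    exact nx_right (not_isA'_of hv) x x' y

private theorem e_cross' {κ m : ℕ} {u v : Vx} (hu : IsA m u.1.1) (hu' : ¬ Bd m u)
    (hv : ¬ IsA m v.1.1) (x y : ℕ → Bool) :
    ¬ (instOf κ (quads m x y)).E u v ∧ ¬ (instOf κ (quads m x y)).E v u := by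
  constructor
  · intro h
    generalize hI : instOf κ (quads m x y) = I at h
    have hnx : ∀ σ, I.nx σ = nxOf (quads m x y) σ := fun σ => by rw [← hI]; rfl
    have hIT : I.T = 9 * (m + 5) := by rw [← hI, inst_T]
    cases h with
    | sides τ => exact hv hu
    | next τ s h1 =>
      have h2 := nx_mem_left (isA'_of hu hu') x y
      rw [← hnx] at h2
      exact hv h2
    | root τ s h1 => exact hv hu
    | rootNext σ s h1 =>
      have h2 := nx_mem_right (fun h3 : IsA' m σ => hv (Or.inl h3)) x y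
      rw [← hnx] at h2
      exact h2 hu
    | center σ s h1 =>
      have h2 : IsA m I.T := hu
      rw [hIT] at h2
      exact not_isA_T m h2
    | child τ s w a => exact hv hu
  · intro h
    generalize hI : instOf κ (quads m x y) = I at h
    have hnx : ∀ σ, I.nx σ = nxOf (quads m x y) σ := fun σ => by rw [← hI]; rfl
    have hIT : I.T = 9 * (m + 5) := by rw [← hI, inst_T]
    cases h with
    | sides τ => exact hv hu
    | next τ s h1 =>
      have h2 := nx_mem_right (fun h3 : IsA' m τ => hv (Or.inl h3)) x y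
      rw [← hnx] at h2
      exact h2 hu
    | root τ s h1 => exact hv hu
    | rootNext σ s h1 =>
      have h2 := nx_mem_left (isA'_of hu hu') x y
      rw [← hnx] at h2
      exact hv h2
    | center σ s h1 =>
      have h2 := nx_mem_left (isA'_of hu hu') x y
      rw [← hnx, h1, hIT] at h2
      exact not_isA_T m h2
    | child τ s w a => exact hv hu

theorem bvalid_iff (κ m : ℕ) (x y x' y' : ℕ → Bool) (p : Vx × ℕ) :
    (instOf κ (quads m x y)).BValid p ↔ (instOf κ (quads m x' y')).BValid p := by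
  rw [inst_eq κ m x y x' y']
  exact Iff.rfl

theorem e_left {κ m : ℕ} {u v : Vx} (hu : IsA m u.1.1) (hv : IsA m v.1.1) {x y y' : ℕ → Bool}
    (h : (instOf κ (quads m x y)).E u v) : (instOf κ (quads m x y')).E u v := e_left' hu hv h

theorem e_right {κ m : ℕ} {u v : Vx} (hu : Bd m u ∨ ¬ IsA m u.1.1)
    (hv : Bd m v ∨ ¬ IsA m v.1.1) {x x' y : ℕ → Bool}
    (h : (instOf κ (quads m x y)).E u v) : (instOf κ (quads m x' y)).E u v := e_right' hu hv h

theorem e_cross {κ m : ℕ} {u v : Vx} (hu : IsA m u.1.1) (hu' : ¬ Bd m u)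
    (hv : ¬ IsA m v.1.1) (x y : ℕ → Bool) :
    ¬ (instOf κ (quads m x y)).E u v ∧ ¬ (instOf κ (quads m x y)).E v u := e_cross' hu hu' hv x y

theorem badj_left {κ m : ℕ} {p q : Vx × ℕ} (hp : IsA m p.1.1.1) (hq : IsA m q.1.1.1)
    (x y y' : ℕ → Bool) :
    (instOf κ (quads m x y)).BAdj p q ↔ (instOf κ (quads m x y')).BAdj p q := by
  unfold Inst.BAdj
  constructor
  · rintro (h | ⟨h1, h | h⟩)
    · exact Or.inl h
    · exact Or.inr ⟨h1, Or.inl (e_left hp hq h)⟩
    · exact Or.inr ⟨h1, Or.inr (e_left hq hp h)⟩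
  · rintro (h | ⟨h1, h | h⟩)
    · exact Or.inl h
    · exact Or.inr ⟨h1, Or.inl (e_left hp hq h)⟩
    · exact Or.inr ⟨h1, Or.inr (e_left hq hp h)⟩

theorem badj_right {κ m : ℕ} {p q : Vx × ℕ} (hp : Bd m p.1 ∨ ¬ IsA m p.1.1.1)
    (hq : Bd m q.1 ∨ ¬ IsA m q.1.1.1) (x x' y : ℕ → Bool) :
    (instOf κ (quads m x y)).BAdj p q ↔ (instOf κ (quads m x' y)).BAdj p q := by
  unfold Inst.BAdj
  constructor
  · rintro (h | ⟨h1, h | h⟩)
    · exact Or.inl h
    · exact Or.inr ⟨h1, Or.inl (e_right hp hq h)⟩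
    · exact Or.inr ⟨h1, Or.inr (e_right hq hp h)⟩
  · rintro (h | ⟨h1, h | h⟩)
    · exact Or.inl h
    · exact Or.inr ⟨h1, Or.inl (e_right hp hq h)⟩
    · exact Or.inr ⟨h1, Or.inr (e_right hq hp h)⟩

theorem badj_cross {κ m : ℕ} {p q : Vx × ℕ} (hp : IsA m p.1.1.1) (hp' : ¬ Bd m p.1)
    (hq : ¬ IsA m q.1.1.1) (x y : ℕ → Bool) :
    ¬ (instOf κ (quads m x y)).BAdj p q ∧ ¬ (instOf κ (quads m x y)).BAdj q p := by
  have h0 := e_cross (κ := κ) hp hp' hq x y
  have hne : p.1 ≠ q.1 := by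
    intro h
    rw [h] at hp
    exact hq hp
  unfold Inst.BAdj
  constructor
  · rintro (h | ⟨_, h | h⟩)
    · exact hne h.1
    · exact h0.1 h
    · exact h0.2 h
  · rintro (h | ⟨_, h | h⟩)
    · exact hne h.1.symm
    · exact h0.2 h
    · exact h0.1 h

end DP

end Pool.Agent.Work.MP_8491f2_lc
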