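import Pool.Agent.Work.MP_8491f2_lc.DP.NxB

/-!
# MP_8491f2_lc/DP, AdjB (size S-M): the edges of the two sides, fixed left side

PROOFS as in Adj.lean (proved).  The left side: units `IsA'`; the boundary: `croot m = node (9 (m + 5)) false []`; the right side: everything else (units not `IsA'`).  `bvalidB`: the instances differ in `nx` only (`hvB`).
`badjB_left`: edges between vertices of units `IsA'` or `croot m`: `sides`, `root`, `child` do not mention `nx`; `next τ s` (`nx τ < T`): `u = rail τ s`, so `IsA' τ` and `nx τ` does not depend on `x` (`nxB_left`); `rootNext σ s`: `v = rail σ s`: `IsA' σ`; `center σ s`: `v = rail σ s`: `IsA' σ`.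
`badjB_cross`: `next τ s`, `rootNext σ s`: `nx` is `< T`, so by `nxB_left_mem` and `nxB_right` both units are `IsA'` or both are not; `center σ s`: one end is `croot m`; the other cases stay in one unit.
-/

set_option autoImplicit false

namespace Pool.Agent.Work.MP_8491f2_lc

namespace DP

private theorem instB_eq (κ m : ℕ) (x x' : ℕ → Bool) :
    instOf κ (quadsB m x) =
      { instOf κ (quadsB m x') with nx := nxOf (quadsB m x) } := by
  unfold instOf
  rw [quadsB_length, quadsB_length, hvB m x x']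

private theorem instB_T (κ m : ℕ) (x : ℕ → Bool) :
    (instOf κ (quadsB m x)).T = 9 * (m + 5) := by
  show 9 * (quadsB m x).length = 9 * (m + 5)
  rw [quadsB_length]

private theorem eB_trans {I J : Inst} (hT : I.T = J.T) {u v : Vx} (h : I.E u v)
    (hn : ∀ σ s, ((u = rail σ s ∧ v = rail (I.nx σ) s ∧ I.nx σ < I.T) ∨
      (u = node (I.nx σ) s [] ∧ v = rail σ s ∧ I.nx σ < I.T) ∨
      (u = node I.T false [] ∧ v = rail σ s ∧ I.nx σ = I.T)) → I.nx σ = J.nx σ) : J.E u v := by
  cases h with
  | sides τ => exact Inst.E.sides τ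
  | next τ s h1 =>
    have h2 := hn τ s (Or.inl ⟨rfl, rfl, h1⟩)
    rw [h2, hT] at h1
    rw [h2]
    exact Inst.E.next τ s h1
  | root τ s h1 =>
    rw [hT] at h1
    exact Inst.E.root τ s h1
  | rootNext σ s h1 =>
    have h2 := hn σ s (Or.inr (Or.inl ⟨rfl, rfl, h1⟩))
    rw [h2, hT] at h1
    rw [h2]
    exact Inst.E.rootNext σ s h1
  | center σ s h1 =>
    have h2 := hn σ s (Or.inr (Or.inr ⟨rfl, rfl, h1⟩))
    rw [h2, hT] at h1
    rw [hT]
    exact Inst.E.center σ s h1
  | child τ s w a => exact Inst.E.child τ s w a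

private theorem railB {m σ : ℕ} {s : Bool} {u : Vx} (hu : u = rail σ s)
    (h : IsA' m u.1.1 ∨ u = croot m) : IsA' m σ := by
  subst hu
  rcases h with h | h
  · exact h
  · have h1 := congrArg Prod.snd h
    exact absurd h1 (by simp)

private theorem eB_left {κ m : ℕ} {u v : Vx} (hu : IsA' m u.1.1 ∨ u = croot m)
    (hv : IsA' m v.1.1 ∨ v = croot m) {x x' : ℕ → Bool}
    (h : (instOf κ (quadsB m x)).E u v) : (instOf κ (quadsB m x')).E u v := by
  refine eB_trans (by rw [instB_T, instB_T]) h ?_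
  intro σ s hσ
  show nxOf (quadsB m x) σ = nxOf (quadsB m x') σ
  have key : IsA' m σ := by
    rcases hσ with ⟨h2, _, _⟩ | ⟨_, h2, _⟩ | ⟨_, h2, _⟩
    · exact railB h2 hu
    · exact railB h2 hv
    · exact railB h2 hv
  exact nxB_left key x x'

private theorem not_isA'_TB (m : ℕ) : ¬ IsA' m (9 * (m + 5)) := by
  intro h
  have := h.1
  omega

private theorem eB_cross {κ m : ℕ} {u v : Vx} (hu : IsA' m u.1.1)
    (hv : ¬ IsA' m v.1.1) (hv' : v ≠ croot m) (x : ℕ → Bool) :
    ¬ (instOf κ (quadsB m x)).E u v ∧ ¬ (instOf κ (quadsB m x)).E v u := by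
  constructor
  · intro h
    generalize hI : instOf κ (quadsB m x) = I at h
    have hnx : ∀ σ, I.nx σ = nxOf (quadsB m x) σ := fun σ => by rw [← hI]; rfl
    have hIT : I.T = 9 * (m + 5) := by rw [← hI, instB_T]
    cases h with
    | sides τ => exact hv hu
    | next τ s h1 =>
      rcases nxB_left_mem (τ := τ) hu x with h2 | h2
      · rw [← hnx] at h2
        exact hv h2
      · rw [← hnx] at h2
        omega
    | root τ s h1 => exact hv hu
    | rootNext σ s h1 =>
      have h2 := nxB_right (τ := σ) hv x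
      rw [← hnx] at h2
      exact h2 hu
    | center σ s h1 =>
      have h2 : IsA' m I.T := hu
      rw [hIT] at h2
      exact not_isA'_TB m h2
    | child τ s w a => exact hv hu
  · intro h
    generalize hI : instOf κ (quadsB m x) = I at h
    have hnx : ∀ σ, I.nx σ = nxOf (quadsB m x) σ := fun σ => by rw [← hI]; rfl
    have hIT : I.T = 9 * (m + 5) := by rw [← hI, instB_T]
    cases h with
    | sides τ => exact hv hu
    | next τ s h1 =>
      have h2 := nxB_right (τ := τ) hv x
      rw [← hnx] at h2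
      exact h2 hu
    | root τ s h1 => exact hv hu
    | rootNext σ s h1 =>
      rcases nxB_left_mem (τ := σ) hu x with h2 | h2
      · rw [← hnx] at h2
        exact hv h2
      · rw [← hnx] at h2
        omega
    | center σ s h1 =>
      rw [hIT] at hv'
      exact hv' rfl
    | child τ s w a => exact hv hu

theorem bvalidB (κ m : ℕ) (x x' : ℕ → Bool) (p : Vx × ℕ) :
    (instOf κ (quadsB m x)).BValid p ↔ (instOf κ (quadsB m x')).BValid p := by
  rw [instB_eq κ m x x']
  exact Iff.rfl

theorem badjB_left {κ m : ℕ} {p q : Vx × ℕ} (hp : IsA' m p.1.1.1 ∨ p.1 = croot m)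
    (hq : IsA' m q.1.1.1 ∨ q.1 = croot m) (x x' : ℕ → Bool) :
    (instOf κ (quadsB m x)).BAdj p q ↔ (instOf κ (quadsB m x')).BAdj p q := by
  unfold Inst.BAdj
  constructor
  · rintro (h | ⟨h1, h | h⟩)
    · exact Or.inl h
    · exact Or.inr ⟨h1, Or.inl (eB_left hp hq h)⟩
    · exact Or.inr ⟨h1, Or.inr (eB_left hq hp h)⟩
  · rintro (h | ⟨h1, h | h⟩)
    · exact Or.inl h
    · exact Or.inr ⟨h1, Or.inl (eB_left hp hq h)⟩
    · exact Or.inr ⟨h1, Or.inr (eB_left hq hp h)⟩

theorem badjB_cross {κ m : ℕ} {p q : Vx × ℕ} (hp : IsA' m p.1.1.1)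
    (hq : ¬ IsA' m q.1.1.1) (hq' : q.1 ≠ croot m) (x : ℕ → Bool) :
    ¬ (instOf κ (quadsB m x)).BAdj p q ∧ ¬ (instOf κ (quadsB m x)).BAdj q p := by
  have h0 := eB_cross (κ := κ) hp hq hq' x
  have hne : p.1 ≠ q.1 := by
    intro h
    rw [h] at hp
    exact hq hp
  unfold Inst.BAdj
  constructor
  · rintro (h | ⟨_, h | h⟩)
    · exact hne h.1
    · exact h0.1 h
    · exact h0.2 h
  · rintro (h | ⟨_, h | h⟩)
    · exact hne h.1.symm
    · exact h0.2 h
    · exact h0.1 h

end DP

end Pool.Agent.Work.MP_8491f2_lc
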