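import Pool.Agent.Work.MP_8491f2_lc.DP.Defs

/-!
# MP_8491f2_lc/DP, Iso (size S-M): monotonicity of path and tree decompositions

PROOFS.  `pwLe_comap`, `twLe_comap`: same tree, bags `B' x = (B x).preimage f` (injective `f`); edges: clear; for `v : V` the set of nodes is `{x | f v ∈ B x}`, the same set as for `f v`; `card_preimage ≤ card`.  `*_mono`: same decomposition.  `*_le_iff`: `pw G = sInf {k | PwLe G k}`; the set is not empty for a finite `V` (one node, bag = all vertices; `pathGraph 1` is a tree: `pwLe_iff_seq` of PathSeq gives it from the sequence `bag 0 = univ`, `bag (t + 1) = ∅`), so `Nat.sInf_mem` and `*_mono` give `→`, `Nat.sInf_le` gives `←`; `PwLe G k → TwLe G k` (the tree is `pathGraph m` on `Fin m`) gives the nonemptiness for `tw`.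
-/

set_option autoImplicit false

namespace Pool.Agent.Work.MP_8491f2_lc

namespace DP

private theorem dec_comap {V W X : Type} {G : SimpleGraph V} {H : SimpleGraph W} (f : V → W)
    (hf : Function.Injective f) (h : ∀ u v, G.Adj u v → H.Adj (f u) (f v))
    {T : SimpleGraph X} {B : X → Finset W} (hD : IsTreeDec H T B) :
    IsTreeDec G T (fun x => (B x).preimage f hf.injOn) ∧
      ∀ x, ((B x).preimage f hf.injOn).card ≤ (B x).card := by
  refine ⟨⟨hD.isTree, fun u v huv => ?_, fun v => ?_⟩, fun x => ?_⟩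
  · obtain ⟨x, h1, h2⟩ := hD.edge _ _ (h u v huv)
    exact ⟨x, Finset.mem_preimage.2 h1, Finset.mem_preimage.2 h2⟩
  · have h1 : {x | v ∈ (B x).preimage f hf.injOn} = {x | f v ∈ B x} := by
      ext x
      exact Finset.mem_preimage
    rw [h1]
    exact hD.conn (f v)
  · exact Finset.card_le_card_of_injOn f (fun v hv => Finset.mem_preimage.1 hv) hf.injOn

theorem pwLe_comap {V W : Type} {G : SimpleGraph V} {H : SimpleGraph W} (f : V → W)
    (hf : Function.Injective f) (h : ∀ u v, G.Adj u v → H.Adj (f u) (f v)) {k : ℕ}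
    (hk : PwLe H k) : PwLe G k := by
  obtain ⟨m, B, hD, hB⟩ := hk
  obtain ⟨h1, h2⟩ := dec_comap f hf h hD
  exact ⟨m, _, h1, fun x => (h2 x).trans (hB x)⟩

theorem twLe_comap {V W : Type} {G : SimpleGraph V} {H : SimpleGraph W} (f : V → W)
    (hf : Function.Injective f) (h : ∀ u v, G.Adj u v → H.Adj (f u) (f v)) {k : ℕ}
    (hk : TwLe H k) : TwLe G k := by
  obtain ⟨X, hX, T, B, hD, hB⟩ := hk
  obtain ⟨h1, h2⟩ := dec_comap f hf h hD
  exact ⟨X, hX, T, _, h1, fun x => (h2 x).trans (hB x)⟩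

theorem pwLe_mono {V : Type} {G : SimpleGraph V} {k l : ℕ} (hk : PwLe G k) (hkl : k ≤ l) :
    PwLe G l := by
  obtain ⟨m, B, hD, hB⟩ := hk
  exact ⟨m, B, hD, fun x => (hB x).trans (by omega)⟩

theorem twLe_mono {V : Type} {G : SimpleGraph V} {k l : ℕ} (hk : TwLe G k) (hkl : k ≤ l) :
    TwLe G l := by
  obtain ⟨X, hX, T, B, hD, hB⟩ := hk
  exact ⟨X, hX, T, B, hD, fun x => (hB x).trans (by omega)⟩

private theorem pwLe_card {V : Type} [Finite V] (G : SimpleGraph V) : ∃ k, PwLe G k := by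
  classical
  have hV := Fintype.ofFinite V
  refine ⟨Fintype.card V, 1, fun _ => Finset.univ, ⟨SimpleGraph.IsTree.of_subsingleton,
    fun u v _ => ⟨0, Finset.mem_univ u, Finset.mem_univ v⟩, fun v => ?_⟩, fun _ => ?_⟩
  · have h1 : Nonempty {x : Fin 1 | v ∈ (Finset.univ : Finset V)} := ⟨⟨0, Finset.mem_univ v⟩⟩
    exact SimpleGraph.Connected.of_subsingleton
  · rw [Finset.card_univ]
    exact Nat.le_succ _

theorem pw_le_iff {V : Type} [Finite V] (G : SimpleGraph V) (k : ℕ) : pw G ≤ k ↔ PwLe G k := by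
  constructor
  · intro h
    have h1 : PwLe G (sInf {k | PwLe G k}) := Nat.sInf_mem (pwLe_card G)
    exact pwLe_mono h1 h
  · intro h
    exact Nat.sInf_le h

theorem tw_le_iff {V : Type} [Finite V] (G : SimpleGraph V) (k : ℕ) : tw G ≤ k ↔ TwLe G k := by
  constructor
  · intro h
    have h0 : ∃ k, TwLe G k := by
      obtain ⟨k, m, B, hD, hB⟩ := pwLe_card G
      exact ⟨k, Fin m, inferInstance, SimpleGraph.pathGraph m, B, hD, hB⟩
    have h1 : TwLe G (sInf {k | TwLe G k}) := Nat.sInf_mem h0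
    exact twLe_mono h1 h
  · intro h
    exact Nat.sInf_le h

end DP

end Pool.Agent.Work.MP_8491f2_lc
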