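import Pool.Agent.Work.MP_8491f2_lc.DP.Part
import Pool.Agent.Work.MP_8491f2_lc.DP.Iso
import Pool.Agent.Work.MP_8491f2_lc.Decide

/-!
# MP_8491f2_lc/DP, Comp (size M): one component

PROOF.  `part` gives `a, b, φ`.  Extend `x : Fin m → Bool` to `ex x : ℕ → Bool` (`false` outside); `I x y := instOf κ (quads m (ex x) (ex y))`.  `A x` = comap of `(I x x).BAdj` (symmetric, irreflexive) under `φ ∘ leftEmb`, `B y` = comap of `(I y y).BAdj` under `φ ∘ rightEmb`.  Then `(glue (A x) (B y)).Adj u v ↔ (I x y).BAdj (φ u) (φ v)`: for `u, v` both in the boundary or left: `badj_left` (`Bd` implies `IsA`); both in the boundary or right: `badj_right` (for two boundary vertices both graphs agree with `I x y`); one left, one right: no edge in `glue` (the images of `leftEmb`, `rightEmb`), none in `BAdj` (`badj_cross`).  Transport to `Fin n` by an equivalence `e : Fin n ≃ Fin 14 ⊕ (Fin a ⊕ Fin b)`: `G := comap e`, `π := φ ∘ e` satisfies `(I x y).IsBlow G π`.  `tw_le_of_isBlow`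 and `twLe_comap` (`tw_le_iff`) give the treewidth.  Pathwidth: `PwLe (glue ..) k ↔ PwLe G k ↔ pw G ≤ k` (`pwLe_comap`, `pw_le_iff`); with `k = 27 (m + 5) + 2 κ + 11`: `le_pw` (Decide) gives `Sat24` when `pw G ≤ k`, `exists_balanced_of_sat24` (Units) and `pwLe_of_balanced` with `r = 1` the converse; `sat_quads`: `Sat24 (quads m (ex x) (ex y)) ↔ ∀ g < m, ex x g = ex y g ↔ x = y`.
-/

set_option autoImplicit false

namespace Pool.Agent.Work.MP_8491f2_lc

namespace DP

/-- extension of a finite 0-1 sequence. -/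
private def ex {m : ℕ} (x : Fin m → Bool) : ℕ → Bool := fun g => if h : g < m then x ⟨g, h⟩ else false

private theorem ex_eq {m : ℕ} (x y : Fin m → Bool) : (∀ g < m, ex x g = ex y g) ↔ x = y := by
  constructor
  · intro h
    funext i
    have h1 := h i.1 i.2
    unfold ex at h1
    rw [dif_pos i.2, dif_pos i.2] at h1
    exact h1
  · rintro rfl
    exact fun _ _ => rfl

private theorem badj_symm (I : Inst) (p q : Vx × ℕ) (h : I.BAdj p q) : I.BAdj q p := by
  rcases h with ⟨h1, h2⟩ | ⟨h1, h2⟩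
  · exact Or.inl ⟨h1.symm, fun h3 => h2 h3.symm⟩
  · exact Or.inr ⟨fun h3 => h1 h3.symm, h2.symm⟩

private theorem badj_irrefl (I : Inst) (p : Vx × ℕ) : ¬ I.BAdj p p := by
  rintro (⟨_, h2⟩ | ⟨h1, _⟩)
  · exact h2 rfl
  · exact h1 rfl

/-- the graph of the instance pulled back. -/
private def pull (I : Inst) {X : Type} (f : X → Vx × ℕ) : SimpleGraph X where
  Adj u v := I.BAdj (f u) (f v)
  symm := ⟨fun _ _ h => badj_symm I _ _ h⟩
  loopless := ⟨fun _ h => badj_irrefl I _ h⟩

private theorem bd_isA {m : ℕ} {v : Vx} (h : Bd m v) : IsA m v.1.1 := Or.inr h.1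

theorem comp {κ : ℕ} (hκ : 6 ≤ κ) (m : ℕ) : ∃ (a b : ℕ)
    (A : (Fin m → Bool) → SimpleGraph (Fin 14 ⊕ Fin a))
    (B : (Fin m → Bool) → SimpleGraph (Fin 14 ⊕ Fin b)),
    14 + a + b ≤ (18 * (m + 5) + 2) * (6 * κ) * 3 ^ ((27 * (m + 5) + 2 * κ + 10) / κ) ∧
    (∀ x y, TwLe (glue (A x) (B y)) (3 * κ - 2)) ∧
    ∀ x y, PwLe (glue (A x) (B y)) (27 * (m + 5) + 2 * κ + 11) ↔ x = y := by
  classical
  obtain ⟨a, b, φ, hinj, hval, hbd, hA, hB, hsize⟩ := part hκ m
  let In : (Fin m → Bool) → (Fin m → Bool) → Inst := fun x y => instOf κ (quads m (ex x) (ex y))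
  let A : (Fin m → Bool) → SimpleGraph (Fin 14 ⊕ Fin a) := fun x =>
    pull (In x x) (fun u => φ (leftEmb (Fin 14) (Fin a) (Fin b) u))
  let B : (Fin m → Bool) → SimpleGraph (Fin 14 ⊕ Fin b) := fun y =>
    pull (In y y) (fun u => φ (rightEmb (Fin 14) (Fin a) (Fin b) u))
  -- adjacency of the glued graph
  have hadj : ∀ x y u v, (glue (A x) (B y)).Adj u v ↔ (In x y).BAdj (φ u) (φ v) := by
    intro x y u v
    have hL : ∀ p q, (A x).Adj p q ↔ (In x y).BAdj (φ (leftEmb _ _ _ p)) (φ (leftEmb _ _ _ q)) := by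
      have hA' : ∀ p : Fin 14 ⊕ Fin a, IsA m (φ (leftEmb (Fin 14) (Fin a) (Fin b) p)).1.1.1 := by
        rintro (p | p)
        · exact bd_isA (hbd p)
        · exact (hA p).1
      intro p q
      exact badj_left (hA' p) (hA' q) (ex x) (ex x) (ex y)
    have hR : ∀ p q, (B y).Adj p q ↔ (In x y).BAdj (φ (rightEmb _ _ _ p)) (φ (rightEmb _ _ _ q)) := by
      have hB' : ∀ p : Fin 14 ⊕ Fin b, Bd m (φ (rightEmb (Fin 14) (Fin a) (Fin b) p)).1 ∨
          ¬ IsA m (φ (rightEmb (Fin 14) (Fin a) (Fin b) p)).1.1.1 := by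
        rintro (p | p)
        · exact Or.inl (hbd p)
        · exact Or.inr (hB p)
      intro p q
      exact badj_right (hB' p) (hB' q) (ex y) (ex x) (ex y)
    have hcross : ∀ (i : Fin a) (j : Fin b),
        ¬ (In x y).BAdj (φ (Sum.inr (Sum.inl i))) (φ (Sum.inr (Sum.inr j))) ∧
        ¬ (In x y).BAdj (φ (Sum.inr (Sum.inr j))) (φ (Sum.inr (Sum.inl i))) := by
      intro i j
      exact badj_cross (hA i).1 (hA i).2 (hB j) (ex x) (ex y)
    unfold glue
    rw [SimpleGraph.sup_adj, SimpleGraph.map_adj, SimpleGraph.map_adj]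
    constructor
    · rintro (⟨p, q, h1, rfl, rfl⟩ | ⟨p, q, h1, rfl, rfl⟩)
      · exact (hL p q).1 h1
      · exact (hR p q).1 h1
    · intro h
      rcases u with u | u | u <;> rcases v with v | v | v
      · exact Or.inl ⟨Sum.inl u, Sum.inl v, (hL _ _).2 h, rfl, rfl⟩
      · exact Or.inl ⟨Sum.inl u, Sum.inr v, (hL _ _).2 h, rfl, rfl⟩
      · exact Or.inr ⟨Sum.inl u, Sum.inr v, (hR _ _).2 h, rfl, rfl⟩
      · exact Or.inl ⟨Sum.inr u, Sum.inl v, (hL _ _).2 h, rfl, rfl⟩
      · exact Or.inl ⟨Sum.inr u, Sum.inr v, (hL _ _).2 h, rfl, rfl⟩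
      · exact absurd h (hcross u v).1
      · exact Or.inr ⟨Sum.inr u, Sum.inl v, (hR _ _).2 h, rfl, rfl⟩
      · exact absurd h (hcross v u).2
      · exact Or.inr ⟨Sum.inr u, Sum.inr v, (hR _ _).2 h, rfl, rfl⟩
  -- transport to `Fin n`
  let e : Fin (14 + (a + b)) ≃ Fin 14 ⊕ (Fin a ⊕ Fin b) :=
    finSumFinEquiv.symm.trans (Equiv.sumCongr (Equiv.refl _) finSumFinEquiv.symm)
  let G : (Fin m → Bool) → (Fin m → Bool) → SimpleGraph (Fin (14 + (a + b))) := fun x y =>
    (glue (A x) (B y)).comap e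
  have hblow : ∀ x y, (In x y).IsBlow (G x y) (fun i => φ (e i)) := by
    intro x y
    refine ⟨?_, ?_, ?_, ?_⟩
    · intro i j h
      exact e.injective (hinj h)
    · intro i
      exact (hval (ex x) (ex y) _).1 ⟨e i, rfl⟩
    · intro p hp
      obtain ⟨i, hi⟩ := (hval (ex x) (ex y) p).2 hp
      exact ⟨e.symm i, by rw [Equiv.apply_symm_apply]; exact hi⟩
    · intro i j
      exact hadj x y (e i) (e j)
  have hpw : ∀ x y k, PwLe (glue (A x) (B y)) k ↔ PwLe (G x y) k := by
    intro x y k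
    constructor
    · exact pwLe_comap e e.injective (fun u v h => h)
    · refine pwLe_comap e.symm e.symm.injective (fun u v h => ?_)
      show (glue (A x) (B y)).Adj (e (e.symm u)) (e (e.symm v))
      rw [Equiv.apply_symm_apply, Equiv.apply_symm_apply]
      exact h
  have hD : ∀ x y : Fin m → Bool, ∀ q ∈ quads m (ex x) (ex y), q.Dist := fun x y =>
    quads_dist m (ex x) (ex y)
  refine ⟨a, b, A, B, hsize, ?_, ?_⟩
  · intro x y
    have h1 := tw_le_of_isBlow hκ (hD x y) (hblow x y)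
    have h2 := (tw_le_iff (G x y) _).1 h1
    refine twLe_comap e.symm e.symm.injective (fun u v h => ?_) h2
    show (glue (A x) (B y)).Adj (e (e.symm u)) (e (e.symm v))
    rw [Equiv.apply_symm_apply, Equiv.apply_symm_apply]
    exact h
  · intro x y
    rw [hpw, ← ex_eq x y, ← sat_quads m (ex x) (ex y), ← pw_le_iff]
    have hl : (quads m (ex x) (ex y)).length = m + 5 := quads_length m (ex x) (ex y)
    constructor
    · intro h
      obtain ⟨h1, h2⟩ := le_pw hκ (hD x y) (quads_ne_nil m (ex x) (ex y)) (hblow x y)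
      rw [hl] at h1 h2
      exact h2 (le_antisymm h h1)
    · intro h
      have h1 := pwLe_of_balanced (r := 1) hκ (hD x y) (hblow x y)
        (exists_balanced_of_sat24 (hD x y) h)
      rw [hl] at h1
      exact (pw_le_iff _ _).2 h1

end DP

end Pool.Agent.Work.MP_8491f2_lc
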