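import Pool.Agent.Work.MP_8491f2_lc.Lower

/-!
# MP_8491f2_lc/DP, LowX (size S-M): the orientation of any choice of heavy bags

PROOF.  Copy the proof of `Good.lower` (Lower.lean): there `X` is chosen (`choose! X hX using hex`), here `X`, `hX` are given; `hnest s hs` (type `Nest bag X s`) contains the first claim, `hconst` is the second, the final part is the third.
-/

set_option autoImplicit false

namespace Pool.Agent.Work.MP_8491f2_lc

namespace DP

open Inst

open Classical in
theorem lowX {I : Inst} (hI : I.Good) {r : ℕ} (hr : r ≤ 2) {bag : ℕ → Finset Vx}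
    (h : I.IsWPD (I.B + r) bag) (X : ℕ → Bool → ℕ)
    (hX : ∀ (τ : ℕ) (s : Bool), (τ < I.T ∨ (τ = I.T ∧ s = false)) →
      I.ht τ ≤ ∑ v ∈ (bag (X τ s)).filter (fun v => v ∈ I.anchor τ s), I.wt v) :
    (∀ σ < I.T, X σ false ≠ X σ true) ∧
    (∀ σ < I.T, I.nx σ < I.T →
      (X (I.nx σ) false < X (I.nx σ) true ↔ X σ false < X σ true)) ∧
    ∀ τ < I.T, ∀ b : Bool, ((Finset.range τ).filter fun σ =>
      I.hv σ = true ∧ τ < I.nx σ ∧ decide (X σ false < X σ true) = b).card ≤ r := by
  classical
  -- heavy bags contain anchor vertices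
  have hXa : ∀ τ s, (τ < I.T ∨ (τ = I.T ∧ s = false)) → ∃ v ∈ bag (X τ s), v ∈ I.anchor τ s := by
    intro τ s hτ
    exact heavy_nonempty hI (by rcases hτ with h1 | h1 <;> omega) (hX τ s hτ)
  -- tightness from nestedness of the outer units
  have htight : ∀ s b, (s < I.T ∨ (s = I.T ∧ b = false)) → (∀ s' < s, Nest bag X s') →
      I.Tight bag r s b (X s b) := by
    intro s b hs hN
    have hsT : s ≤ I.T := by rcases hs with h1 | h1 <;> omega
    refine hI.tight_of hr h hsT (hX s b hs) ?_
    intro s' hs'
    obtain ⟨u, hu1, hu2⟩ := hXa s b hs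
    have h1 := (hN s' hs').2 u (X s b) (by rw [anchor_unit hu2]; exact hs') hu1
    obtain ⟨v0, hv0, hv0'⟩ := hXa s' false (Or.inl (by omega))
    obtain ⟨v1, hv1, hv1'⟩ := hXa s' true (Or.inl (by omega))
    obtain ⟨x, hx1, hx2⟩ := h.cross' (linked_unit (I := I) (τ := s') (by omega)) h1.1.le h1.2.le
      (u := v0) (v := v1) ⟨hv0'.1, anchor_unit hv0'⟩ hv0 ⟨hv1'.1, anchor_unit hv1'⟩ hv1
    exact ⟨x, hx2, hx1.2⟩
  -- nestedness
  have hnest : ∀ s < I.T, Nest bag X s := by
    intro s
    induction s using Nat.strong_induction_on with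
    | _ s ih =>
      intro hs
      have hN : ∀ s' < s, Nest bag X s' := fun s' hs' => ih s' hs' (by omega)
      -- the inner set avoids the heavy bag
      have havoid : ∀ b v t, I.Valid v → s ≤ v.1.1 → v ∉ I.anchor s b → v ∈ bag t →
          ¬ (min t (X s (!b)) ≤ X s b ∧ X s b ≤ max t (X s (!b))) := by
        intro b v t hv1 hv2 hv3 hv4 hcon
        obtain ⟨p, _, hp2, _⟩ := htight s b (Or.inl hs) hN
        obtain ⟨u, hu1, hu2⟩ := hXa s (!b) (Or.inl hs)
        have hu3 : u ∉ I.anchor s b := by
          rintro ⟨_, w, rfl⟩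
          obtain ⟨_, w', hw'⟩ := hu2
          simp only [Prod.mk.injEq, true_and] at hw'
          cases b <;> simp at hw'
        obtain ⟨x, hx1, hx2⟩ := h.cross' (hI.linked_inner hs b) hcon.1 hcon.2
          (u := v) (v := u) ⟨hv1, hv2, hv3⟩ hv4 ⟨hu2.1, (anchor_unit hu2).ge, hu3⟩ hu1
        rcases hp2 x hx2 with h1 | h1
        · have := hx1.2.1
          omega
        · exact hx1.2.2 h1
      have hne : X s false ≠ X s true := by
        intro heq
        obtain ⟨u, hu1, hu2⟩ := hXa s true (Or.inl hs)
        refine havoid false u (X s true) hu2.1 (anchor_unit hu2).ge ?_ hu1 ?_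
        · rintro ⟨_, w, rfl⟩
          obtain ⟨_, w', hw'⟩ := hu2
          simp at hw'
        · rw [← heq]
          simp [heq]
      refine ⟨hne, ?_⟩
      intro v t hv1 hv2
      have hnot : ∀ b, v ∉ I.anchor s b := by
        intro b hb
        have := anchor_unit hb
        omega
      have h1 := havoid false v t (h.valid t v hv2) hv1.le (hnot false) hv2
      have h2 := havoid true v t (h.valid t v hv2) hv1.le (hnot true) hv2
      simp only [Bool.not_false, Bool.not_true] at h1 h2
      omega
  -- the orientation is constant on arms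
  have hconst : ∀ σ < I.T, I.nx σ < I.T →
      ((X (I.nx σ) false < X (I.nx σ) true) ↔ (X σ false < X σ true)) := by
    intro σ hσ hn
    have hlt := hI.lt_nx σ hσ
    have hcT : (I.T < I.T ∨ (I.T = I.T ∧ false = false)) := Or.inr ⟨rfl, rfl⟩
    obtain ⟨p, hp1, hp2, _⟩ := htight I.T false hcT (fun s' hs' => hnest s' hs')
    obtain ⟨c, hc1, hc2⟩ := hXa I.T false hcT
    have hc3 := anchor_unit hc2
    have h1 := (hnest σ hσ).2 c _ (by omega) hc1
    have h2 := (hnest _ hn).2 c _ (by omega) hc1
    -- the side `b` meets the heavy bag of the centre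
    have hside : ∀ b, min (X σ b) (X (I.nx σ) b) ≤ X I.T false →
        X I.T false ≤ max (X σ b) (X (I.nx σ) b) → p σ = rail σ b := by
      intro b h3 h4
      obtain ⟨u, hu1, hu2⟩ := hXa σ b (Or.inl hσ)
      obtain ⟨v, hv1, hv2⟩ := hXa (I.nx σ) b (Or.inl hn)
      obtain ⟨x, hx1, hx2⟩ := h.cross' (hI.linked_side hσ hn b) h3 h4
        (u := u) (v := v) (Or.inl (Or.inl hu2)) hu1 (Or.inr hv2) hv1
      have hxT : x.1.1 < I.T := by
        rcases hx1 with (hx | hx) | hx
        · rw [anchor_unit hx]; exact hσ
        · rw [Set.mem_singleton_iff.1 hx]; exact hσ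
        · rw [anchor_unit hx]; exact hn
      have hxp : x = p x.1.1 := by
        rcases hp2 x hx2 with h5 | h5
        · exact h5.2
        · have := anchor_unit h5
          omega
      have hxn : x.2 = none := by
        rw [hxp]
        exact (hp1 _ hxT).2.2
      rcases hx1 with (hx | hx) | hx
      · exact absurd hxn (anchor_ne_none hx)
      · rw [Set.mem_singleton_iff] at hx
        rw [hx] at hxp
        exact hxp.symm
      · exact absurd hxn (anchor_ne_none hx)
    have hrr : rail σ false ≠ rail σ true := by simp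
    by_contra hcon
    apply hrr
    rw [← hside false (by omega) (by omega), ← hside true (by omega) (by omega)]
  refine ⟨fun s hs => (hnest s hs).1, hconst, ?_⟩
  · intro τ hτ b
    -- the heavy bag of `τ` on the side given by `b`
    obtain ⟨c, hc⟩ : ∃ c : Bool, (b = true → X τ c = min (X τ false) (X τ true)) ∧
        (b = false → X τ c = max (X τ false) (X τ true)) := by
      rcases le_total (X τ false) (X τ true) with h1 | h1 <;> cases b
      · exact ⟨true, by simp, by simp [h1]⟩
      · exact ⟨false, by simp [h1], by simp⟩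
      · exact ⟨false, by simp, by simp [h1]⟩
      · exact ⟨true, by simp [h1], by simp⟩
    obtain ⟨p, hp1, hp2, hp3⟩ := htight τ c (Or.inl hτ) (fun s' hs' => hnest s' (by omega))
    have hheavy : ∀ σ, σ < τ → I.hv σ = true → τ < I.nx σ →
        decide (X σ false < X σ true) = b → p σ = rail σ false := by
      intro σ hστ hhv hτn ho
      have hσ : σ < I.T := by omega
      have hn := hI.hv_nx σ hσ hhv
      have h1 := hconst σ hσ hn
      obtain ⟨u, hu1, hu2⟩ := hXa σ false (Or.inl hσ)
      obtain ⟨v, hv1, hv2⟩ := hXa (I.nx σ) false (Or.inl hn)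
      obtain ⟨z, hz1, hz2⟩ := hXa τ c (Or.inl hτ)
      have h2 := (hnest σ hσ).2 z _ (by rw [anchor_unit hz2]; exact hστ) hz1
      have h3 := (hnest τ hτ).2 v _ (by rw [anchor_unit hv2]; exact hτn) hv1
      have h5 : min (X σ false) (X (I.nx σ) false) ≤ X τ c ∧
          X τ c ≤ max (X σ false) (X (I.nx σ) false) := by
        cases b with
        | true =>
          have h6 := hc.1 rfl
          have h7 : X σ false < X σ true := of_decide_eq_true ho
          have h8 := h1.2 h7
          omega
        | false =>
          have h6 := hc.2 rfl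
          have h7 : ¬ X σ false < X σ true := of_decide_eq_false ho
          omega
      obtain ⟨x, hx1, hx2⟩ := h.cross' (hI.linked_side hσ hn false) h5.1 h5.2
        (u := u) (v := v) (Or.inl (Or.inl hu2)) hu1 (Or.inr hv2) hv1
      rcases hx1 with (hx | hx) | hx
      · have hxu := anchor_unit hx
        rcases hp2 x hx2 with h6 | h6
        · exfalso
          apply anchor_ne_none hx
          rw [h6.2]
          exact (hp1 _ h6.1).2.2
        · have := anchor_unit h6
          omega
      · rw [Set.mem_singleton_iff] at hx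
        subst hx
        rcases hp2 _ hx2 with h6 | h6
        · exact h6.2.symm
        · have h7 : σ = τ := anchor_unit h6
          omega
      · have hxu := anchor_unit hx
        rcases hp2 x hx2 with h6 | h6
        · omega
        · have := anchor_unit h6
          omega
    set S := (Finset.range τ).filter fun σ => I.hv σ = true ∧ τ < I.nx σ ∧
      decide (X σ false < X σ true) = b with hS
    have hsum : ∑ σ ∈ Finset.range τ, (3 + if σ ∈ S then 1 else 0) ≤
        ∑ s' ∈ Finset.range τ, I.wt (p s') := by
      apply Finset.sum_le_sum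
      intro σ hσ
      split_ifs with hσS
      · rw [hS, Finset.mem_filter, Finset.mem_range] at hσS
        rw [hheavy σ hσS.1 hσS.2.1 hσS.2.2.1 hσS.2.2.2]
        change 3 + 1 ≤ if I.hv σ = true ∧ false = false then 4 else 3
        rw [if_pos ⟨hσS.2.1, rfl⟩]
      · exact hI.three_le_wt _
    rw [Finset.sum_add_distrib, Finset.sum_const, Finset.card_range, smul_eq_mul,
      ← Finset.sum_filter, Finset.sum_const, smul_eq_mul, mul_one] at hsum
    have hcard : ((Finset.range τ).filter fun σ => σ ∈ S) = S := by
      ext σ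
      rw [Finset.mem_filter, hS, Finset.mem_filter]
      tauto
    rw [hcard] at hsum
    have hht : I.ht τ = I.B - 3 * τ := rfl
    have hbase := hI.base
    omega

end DP

end Pool.Agent.Work.MP_8491f2_lc
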