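import Pool.Agent.Work.MP_8491f2_lc.DP.DefsB

/-!
# MP_8491f2_lc/DP, Ord (size S-M): removing repetitions keeps the order

PROOF.  `Before P Q []` is false; `Before P Q (a :: L) ↔ (P a ∧ ¬ Q a) ∨ (¬ Q a ∧ Before P Q L)`.  Then `List.destutter (· ≠ ·) (a :: L) = List.destutter' (· ≠ ·) a L`, with `destutter' R a [] = [a]`, `destutter' R a (b :: L) = if R a b then a :: destutter' R b L else destutter' R a L` (`List.destutter'_cons`); prove `Before P Q (L.destutter' (· ≠ ·) a) ↔ Before P Q (a :: L)` by induction on `L` for all `a` (if `a = b` then `Before P Q (a :: a :: L) ↔ Before P Q (a :: L)`).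
`before_iff_first`: `X` is the first index with `P`, `Y` the first index with `Q`: if `X < Y` take `i = X`; if `i` is as in `Before` then `X ≤ i` and `Y > i`.
-/

set_option autoImplicit false

namespace Pool.Agent.Work.MP_8491f2_lc

namespace DP

private theorem before_cons {β : Type} (P Q : β → Prop) (a : β) (L : List β) :
    Before P Q (a :: L) ↔ (P a ∧ ¬ Q a) ∨ (¬ Q a ∧ Before P Q L) := by
  constructor
  · rintro ⟨i, hi, h1, h2⟩
    have h3 : ¬ Q a := h2 0 (Nat.zero_le _)
    rcases i with _ | i
    · exact Or.inl ⟨h1, h3⟩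
    · refine Or.inr ⟨h3, i, by simpa using hi, h1, fun j hj => ?_⟩
      exact h2 (j + 1) (by omega)
  · rintro (⟨h1, h2⟩ | ⟨h2, i, hi, h1, h3⟩)
    · refine ⟨0, by simp, h1, fun j hj => ?_⟩
      obtain rfl : j = 0 := by omega
      exact h2
    · refine ⟨i + 1, by simpa using hi, h1, fun j hj => ?_⟩
      rcases j with _ | j
      · exact h2
      · exact h3 j (by omega)

open Classical in
private theorem before_destutter' {β : Type} (P Q : β → Prop) (L : List β) :
    ∀ a : β, Before P Q (L.destutter' (· ≠ ·) a) ↔ Before P Q (a :: L) := by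
  induction L with
  | nil => intro a; rfl
  | cons b L ih =>
    intro a
    rw [List.destutter'_cons]
    by_cases hab : a = b
    · subst hab
      rw [if_neg (fun h => h rfl), ih a, before_cons, before_cons P Q a (a :: L), before_cons]
      tauto
    · rw [if_pos hab, before_cons, ih b, ← before_cons]

open Classical in
theorem before_destutter {β : Type} (P Q : β → Prop) (L : List β) :
    Before P Q (L.destutter (· ≠ ·)) ↔ Before P Q L := by
  rcases L with _ | ⟨a, L⟩
  · rfl
  · exact before_destutter' P Q L a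

theorem before_iff_first {β : Type} (P Q : β → Prop) (L : List β) (X Y : ℕ)
    (hX : ∃ h : X < L.length, P (L[X]'h)) (hX' : ∀ (i : ℕ) (hi : i < L.length), i < X → ¬ P L[i])
    (hY : ∃ h : Y < L.length, Q (L[Y]'h)) (hY' : ∀ (i : ℕ) (hi : i < L.length), i < Y → ¬ Q L[i]) :
    X < Y ↔ Before P Q L := by
  obtain ⟨hXL, hPX⟩ := hX
  obtain ⟨hYL, hQY⟩ := hY
  constructor
  · intro h
    exact ⟨X, hXL, hPX, fun j hj => hY' j (by omega) (by omega)⟩
  · rintro ⟨i, hi, h1, h2⟩
    have h3 : X ≤ i := by
      by_contra hc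
      exact hX' i hi (by omega) h1
    have h4 : i < Y := by
      by_contra hc
      exact h2 Y (by omega) hQY
    omega

end DP

end Pool.Agent.Work.MP_8491f2_lc
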