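import Pool.Agent.Work.MP_8491f2_lc.DP.DefsB
import Pool.Agent.Work.MP_8491f2_lc.Blow

/-!
# MP_8491f2_lc/DP, SeqW (size M): the weighted decomposition of a given path decomposition

PROOF.  As in `IsBlow.exists_wpd` (Blow.lean, copy its private lemmas `finite_valid`, `helly`, `card_blow`), but for the given sequence of bags: `b t := L[t]` for `t < L.length`, `∅` after; the interval property and the rest of the sequence form are obtained from `IsPD` as in the first half of the proof of `pwLe_iff_seq` (PathSeq.lean).  The new bag `t` consists of the valid `v` all of whose copies `(v, j)`, `j < wt v`, are in `b t`.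
-/

set_option autoImplicit false

namespace Pool.Agent.Work.MP_8491f2_lc

namespace DP

private theorem finite_valid (I : Inst) : {v : Vx | I.Valid v}.Finite := by
  have hdep : ∀ τ, I.dep τ ≤ I.B := by
    intro τ
    unfold Inst.dep Inst.ht
    have := Nat.div_le_self (I.B - 3 * τ) I.κ
    omega
  have h1 : ((Set.Iic I.T ×ˢ (Set.univ : Set Bool)) ×ˢ
      (insert none (some '' {w : Word | w.length ≤ I.B}) : Set (Option Word))).Finite := by
    refine ((Set.finite_Iic _).prod Set.finite_univ).prod ?_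
    exact ((List.finite_length_le (Fin 3) I.B).image _).insert _
  refine h1.subset ?_
  rintro ⟨⟨τ, s⟩, o⟩ hv
  rcases o with _ | w
  · have hv' : τ < I.T := hv
    exact ⟨⟨hv'.le, Set.mem_univ _⟩, Set.mem_insert _ _⟩
  · have hv' : (τ < I.T ∨ (τ = I.T ∧ s = false)) ∧ w.length ≤ I.dep τ := hv
    refine ⟨⟨?_, Set.mem_univ _⟩, Set.mem_insert_of_mem _ ⟨w, hv'.2.trans (hdep τ), rfl⟩⟩
    show τ ≤ I.T
    rcases hv'.1 with h | h
    · exact h.le
    · exact h.1.le

/-- Pairwise intersecting intervals have a common point. -/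
private theorem helly {V : Type} (bag : ℕ → Finset V)
    (hi : ∀ v i j l, i ≤ j → j ≤ l → v ∈ bag i → v ∈ bag l → v ∈ bag j)
    (Q : Finset V) (hQ : ∀ u ∈ Q, ∀ v ∈ Q, ∃ t, u ∈ bag t ∧ v ∈ bag t) :
    ∃ t, ∀ v ∈ Q, v ∈ bag t := by
  classical
  rcases Q.eq_empty_or_nonempty with rfl | hne
  · exact ⟨0, fun v hv => absurd hv (Finset.notMem_empty _)⟩
  · let a : V → ℕ := fun v => if h : ∃ t, v ∈ bag t then Nat.find h else 0
    have ha : ∀ v, ∀ h : ∃ t, v ∈ bag t, a v = Nat.find h := fun v h => dif_pos h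
    obtain ⟨u, huQ, hu⟩ := Q.exists_max_image a hne
    refine ⟨a u, fun v hv => ?_⟩
    obtain ⟨s, h1, h2⟩ := hQ u huQ v hv
    have h3 : a v ≤ a u := hu v hv
    have h4 : a u ≤ s := by
      rw [ha u ⟨s, h1⟩]; exact Nat.find_le h1
    have h5 : v ∈ bag (a v) := by
      rw [ha v ⟨s, h2⟩]; exact Nat.find_spec (⟨s, h2⟩ : ∃ t, v ∈ bag t)
    exact hi v (a v) (a u) s h3 h4 h5 h2

/-- The given path decomposition as a sequence of bags. -/
private theorem seqOf {V : Type} {G : SimpleGraph V} {k : ℕ} {L : List (Finset V)}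
    (hL : IsPD G k L) : ∃ bag : ℕ → Finset V,
      (∀ t v, v ∈ bag t ↔ ∃ ht : t < L.length, v ∈ L[t]) ∧ (∀ v, ∃ t, v ∈ bag t) ∧
      (∀ u v, G.Adj u v → ∃ t, u ∈ bag t ∧ v ∈ bag t) ∧
      (∀ v i j l, i ≤ j → j ≤ l → v ∈ bag i → v ∈ bag l → v ∈ bag j) ∧
      ∀ t, (bag t).card ≤ k + 1 := by
  classical
  obtain ⟨hB, hc⟩ := hL
  let bag : ℕ → Finset V := fun t => if h : t < L.length then L[t] else ∅
  have hpos : ∀ t, ∀ h : t < L.length, bag t = L[t] := fun t h => dif_pos h
  have hneg : ∀ t, ¬ t < L.length → bag t = ∅ := fun t h => dif_neg h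
  refine ⟨bag, ?_, ?_, ?_, ?_, ?_⟩
  · intro t v
    constructor
    · intro hv
      by_cases ht : t < L.length
      · refine ⟨ht, ?_⟩
        rw [hpos t ht] at hv
        exact hv
      · rw [hneg t ht] at hv
        exact absurd hv (Finset.notMem_empty _)
    · rintro ⟨ht, hv⟩
      rw [hpos t ht]
      exact hv
  · intro v
    obtain ⟨⟨x, hx⟩⟩ := (hB.conn v).nonempty
    refine ⟨x.1, ?_⟩
    rw [hpos x.1 x.2]
    exact hx
  · intro u v huv
    obtain ⟨x, h1, h2⟩ := hB.edge u v huv
    refine ⟨x.1, ?_⟩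
    rw [hpos x.1 x.2]
    exact ⟨h1, h2⟩
  · intro v i j l hij hjl hi hl
    by_contra hj
    have him : i < L.length := by
      by_contra h
      rw [hneg i h] at hi
      exact absurd hi (Finset.notMem_empty _)
    have hlm : l < L.length := by
      by_contra h
      rw [hneg l h] at hl
      exact absurd hl (Finset.notMem_empty _)
    have hjm : j < L.length := by omega
    rw [hpos i him] at hi
    rw [hpos l hlm] at hl
    rw [hpos j hjm] at hj
    have hij' : i ≠ j := by rintro rfl; exact hj hi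
    have hjl' : j ≠ l := by rintro rfl; exact hj hl
    have key : ∀ a b : {x : Fin L.length | v ∈ L.get x},
        ((SimpleGraph.pathGraph L.length).induce {x : Fin L.length | v ∈ L.get x}).Reachable a b →
        a.1.1 < j → b.1.1 < j := by
      rintro a b ⟨p⟩
      induction p with
      | nil => exact id
      | @cons a c b hac p ih =>
        intro ha
        apply ih
        rw [SimpleGraph.comap_adj, SimpleGraph.pathGraph_adj] at hac
        have hcj : c.1.1 ≠ j := by
          intro he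
          apply hj
          have h1 : c.1 = (⟨j, hjm⟩ : Fin L.length) := Fin.ext he
          have h2 : v ∈ L.get c.1 := c.2
          rw [h1] at h2
          exact h2
        have hac' : a.1.1 + 1 = c.1.1 ∨ c.1.1 + 1 = a.1.1 := hac
        omega
    have h1 := key ⟨⟨i, him⟩, hi⟩ ⟨⟨l, hlm⟩, hl⟩ ((hB.conn v).preconnected _ _)
      (show i < j by omega)
    have h2 : l < j := h1
    omega
  · intro t
    by_cases h : t < L.length
    · rw [hpos t h]
      exact hc _ (List.getElem_mem h)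
    · rw [hneg t h]
      simp

theorem seqW {I : Inst} {n : ℕ} {G : SimpleGraph (Fin n)} {π : Fin n → Vx × ℕ}
    (h : I.IsBlow G π) {w : ℕ} {L : List (Finset (Fin n))} (hL : IsPD G w L) :
    ∃ bag : ℕ → Finset Vx, I.IsWPD (w + 1) bag ∧
      ∀ (t : ℕ) (v : Vx), v ∈ bag t ↔ (I.Valid v ∧ ∀ j < I.wt v,
        ∃ (ht : t < L.length) (i : Fin n), i ∈ L[t] ∧ π i = (v, j)) := by
  classical
  obtain ⟨bag, hbag, hv, he, hi, hc⟩ := seqOf hL
  have key : ∀ P : Vx → Prop, (∀ x y, P x → P y → x ≠ y → (I.E x y ∨ I.E y x)) →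
      ∃ t, ∀ i, P (π i).1 → i ∈ bag t := by
    intro P hP
    obtain ⟨t, ht⟩ := helly bag hi (Finset.univ.filter fun i => P (π i).1) (by
      intro u hu v hv'
      have hu' : P (π u).1 := by simpa using hu
      have hv'' : P (π v).1 := by simpa using hv'
      by_cases huv : u = v
      · subst huv
        obtain ⟨t, ht⟩ := hv u
        exact ⟨t, ht, ht⟩
      · apply he
        rw [h.adj]
        by_cases h1 : (π u).1 = (π v).1
        · left
          refine ⟨h1, fun h2 => huv (h.inj (Prod.ext h1 h2))⟩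
        · right
          exact ⟨h1, hP _ _ hu' hv'' h1⟩)
    exact ⟨t, fun i hi' => ht i (by simpa using hi')⟩
  let S : Finset Vx := (finite_valid I).toFinset
  have hS : ∀ v, v ∈ S ↔ I.Valid v := fun v => by simp [S]
  let bag' : ℕ → Finset Vx := fun t => S.filter fun v => ∀ j < I.wt v, ∃ i ∈ bag t, π i = (v, j)
  have hb : ∀ t v, v ∈ bag' t ↔ I.Valid v ∧ ∀ j < I.wt v, ∃ i ∈ bag t, π i = (v, j) := by
    intro t v
    simp only [bag', Finset.mem_filter, hS]
  have key2 : ∀ P : Vx → Prop, (∀ x y, P x → P y → x ≠ y → (I.E x y ∨ I.E y x)) →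
      ∃ t, ∀ v, I.Valid v → P v → v ∈ bag' t := by
    intro P hP
    obtain ⟨t, ht⟩ := key P hP
    refine ⟨t, fun v hv' hPv => (hb t v).2 ⟨hv', fun j hj => ?_⟩⟩
    obtain ⟨i, hi'⟩ := h.surj (v, j) ⟨hv', hj⟩
    refine ⟨i, ht i ?_, hi'⟩
    rw [hi']; exact hPv
  refine ⟨bag', ?_, ?_⟩
  · constructor
    · intro t v hv'
      exact ((hb t v).1 hv').1
    · intro v hv'
      obtain ⟨t, ht⟩ := key2 (fun x => x = v)
        (fun x y hx hy hxy => absurd (hx.trans hy.symm) hxy)
      exact ⟨t, ht v hv' rfl⟩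
    · intro u v hu hv' huv
      obtain ⟨t, ht⟩ := key2 (fun x => x = u ∨ x = v) (by
        rintro x y (rfl | rfl) (rfl | rfl) hxy
        · exact absurd rfl hxy
        · exact Or.inl huv
        · exact Or.inr huv
        · exact absurd rfl hxy)
      exact ⟨t, ht u hu (Or.inl rfl), ht v hv' (Or.inr rfl)⟩
    · intro v i j l hij hjl h1 h2
      rw [hb] at h1 h2 ⊢
      refine ⟨h1.1, fun m hm => ?_⟩
      obtain ⟨a, ha, ha'⟩ := h1.2 m hm
      obtain ⟨b, hb', hb''⟩ := h2.2 m hm
      have hab : a = b := h.inj (ha'.trans hb''.symm)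
      subst hab
      exact ⟨a, hi a i j l hij hjl ha hb', ha'⟩
    · intro t
      refine le_trans ?_ (hc t)
      have h1 : ∑ v ∈ bag' t, I.wt v = ((bag' t).sigma fun v => Finset.range (I.wt v)).card := by
        rw [Finset.card_sigma]; simp
      rw [h1]
      refine Finset.card_le_card_of_surjOn (fun i => (⟨(π i).1, (π i).2⟩ : Σ _ : Vx, ℕ)) ?_
      rintro ⟨v, j⟩ hx
      simp only [Finset.coe_sigma, Set.mem_sigma_iff, Finset.mem_coe, Finset.mem_range] at hx
      obtain ⟨i, hi1, hi2⟩ := ((hb t v).1 hx.1).2 j hx.2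
      refine ⟨i, hi1, ?_⟩
      show (⟨(π i).1, (π i).2⟩ : Σ _ : Vx, ℕ) = ⟨v, j⟩
      rw [hi2]
  · intro t v
    rw [hb]
    refine and_congr_right fun _ => forall₂_congr fun j _ => ?_
    constructor
    · rintro ⟨i, hi1, hi2⟩
      obtain ⟨ht, hi3⟩ := (hbag t i).1 hi1
      exact ⟨ht, i, hi3, hi2⟩
    · rintro ⟨ht, i, hi1, hi2⟩
      exact ⟨i, (hbag t i).2 ⟨ht, hi1⟩, hi2⟩

end DP

end Pool.Agent.Work.MP_8491f2_lc
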