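import Pool.Agent.Work.MP_8491f2_lc.DP.GraphB
import Pool.Agent.Work.MP_8491f2_lc.DP.LowX
import Pool.Agent.Work.MP_8491f2_lc.DP.SolX
import Pool.Agent.Work.MP_8491f2_lc.DP.SeqW
import Pool.Agent.Work.MP_8491f2_lc.DP.Ord

/-!
# MP_8491f2_lc/DP, CompB (size M-L): the trace on the left side determines `x`

PROOF.  Take everything from `graphB`; `B' x := B (ex x)`, `ex x : ℕ → Bool` the extension of `x : Fin m → Bool` by `false`.  For `g < m` and `s : Bool` let `Hv g s : Finset (Fin κ ⊕ Fin a) → Prop` say that the valid vertices `v` of the anchor `(9 g, s)` all of whose copies are in the set have total weight at least `ht (9 g)` (all instances have the same `ht`, `wt`, `Valid`, `anchor`; use `x = fun _ => false`): `Hv g s b := ht (9 g) ≤ ∑ v ∈ F.filter (fun v => v ∈ anchor (9 g) s ∧ ∀ j < wt v, ∃ i ∈ b, φ (leftEmb i) = (v, j)), wt v` for a finite set `F` of all valid vertices.  `ori T g := decide (Before (Hv g false) (Hv g true) T)`.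
Let `L` be a path decomposition of `glue A (B' x)` of width at most `w = 27 (m + 5) + 2 κ + 11`.  Transport to `Fin n` (as in Comp.lean), `seqW` gives `bag` with `IsWPD (w + 1)`, `w + 1 = B + 2`.  Let `X τ s` be the first `t` with `ht τ ≤ ∑ v ∈ (bag t).filter (· ∈ anchor τ s), wt v` (`Good.exists_heavy`, `Nat.find`).  `lowX` (`r = 2`) and `solX` with `o τ = decide (X τ false < X τ true)` give a solution `z` with `z (6 + g) = o (9 g)` (`tokB`), and `solB`: `o (9 g) = (z 0 == x g)`.  For the left units the heavy condition on `bag t` is `Hv g s (side L[t])` (all `φ`-preimages of copies of anchor vertices of the unit `9 g`, `IsA'`, are in the left side: the fourth property of `graphB`), so by `before_iff_first` and `before_destutter` `ori (trace L) g = o (9 g)`.  If `z 0 = true` then `ori (trace L) = x`, otherwise it is the complement.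
-/

set_option autoImplicit false

namespace Pool.Agent.Work.MP_8491f2_lc

namespace DP

private theorem isPD_map {V W : Type} {G : SimpleGraph V} {H : SimpleGraph W} (e : V ≃ W)
    (h : ∀ u v, G.Adj u v → H.Adj (e u) (e v)) {w : ℕ} {L : List (Finset W)} (hL : IsPD H w L) :
    IsPD G w (L.map (fun b => b.preimage e e.injective.injOn)) := by
  obtain ⟨⟨h1, h2, h3⟩, h4⟩ := hL
  set f : Finset W → Finset V := fun b => b.preimage e e.injective.injOn with hf
  have hlen : (L.map f).length = L.length := List.length_map f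
  have hmem : ∀ (i : Fin (L.map f).length) (v : V),
      v ∈ (L.map f).get i ↔ e v ∈ L.get (i.cast hlen) := by
    intro i v
    simp [hf]
  refine ⟨⟨?_, ?_, ?_⟩, ?_⟩
  · rw [hlen]; exact h1
  · intro u v huv
    obtain ⟨x, hx1, hx2⟩ := h2 _ _ (h u v huv)
    refine ⟨x.cast hlen.symm, ?_, ?_⟩
    · rw [hmem]; exact hx1
    · rw [hmem]; exact hx2
  · intro v
    have h5 := h3 (e v)
    let c : {x : Fin (L.map f).length | v ∈ (L.map f).get x} ≃
        {x : Fin L.length | e v ∈ L.get x} :=
      { toFun := fun x => ⟨x.1.cast hlen, (hmem x.1 v).1 x.2⟩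
        invFun := fun x => ⟨x.1.cast hlen.symm, (hmem _ v).2 x.2⟩
        left_inv := fun x => rfl
        right_inv := fun x => rfl }
    let I : ((SimpleGraph.pathGraph (L.map f).length).induce
        {x | v ∈ (L.map f).get x}) ≃g ((SimpleGraph.pathGraph L.length).induce
        {x | e v ∈ L.get x}) :=
      { toEquiv := c
        map_rel_iff' := by
          intro x y
          rw [SimpleGraph.comap_adj, SimpleGraph.comap_adj, SimpleGraph.pathGraph_adj,
            SimpleGraph.pathGraph_adj]
          exact Iff.rfl }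
    exact I.connected_iff.2 h5
  · intro b hb
    rw [List.mem_map] at hb
    obtain ⟨b', hb', rfl⟩ := hb
    refine le_trans ?_ (h4 b' hb')
    exact Finset.card_le_card_of_injOn e (fun v hv => Finset.mem_preimage.1 hv) e.injective.injOn


/-- extension of a finite 0-1 sequence. -/
private def exB {m : ℕ} (x : Fin m → Bool) : ℕ → Bool :=
  fun g => if h : g < m then x ⟨g, h⟩ else false

/-- the instances, with the next unit as a parameter. -/
private def J (κ m : ℕ) (nx : ℕ → ℕ) : Inst :=
  ⟨κ, 27 * (m + 5) + 2 * κ + 10, 9 * (m + 5), nx, hvOf (quadsB m (fun _ => false))⟩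

private theorem inst_eq (κ m : ℕ) (x : ℕ → Bool) :
    instOf κ (quadsB m x) = J κ m (nxOf (quadsB m x)) := by
  unfold instOf J
  rw [quadsB_length, hvB m x (fun _ => false)]

private theorem wt_pos {κ m : ℕ} (hκ : 6 ≤ κ) (nx : ℕ → ℕ) (v : Vx) : 0 < (J κ m nx).wt v := by
  obtain ⟨⟨τ, s⟩, o⟩ := v
  cases o with
  | none =>
    show 0 < (if _ then 4 else 3)
    split_ifs <;> norm_num
  | some w =>
    show 0 < (if w.length = (J κ m nx).dep τ then (J κ m nx).lam τ else κ)
    split_ifs
    · show 0 < κ + _
      omega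
    · omega

/-- `v` is in the anchor and all its copies are in the set. -/
private def AC {κ a b : ℕ} (I0 : Inst) (φ : Fin κ ⊕ (Fin a ⊕ Fin b) → Vx × ℕ) (τ : ℕ) (s : Bool)
    (bs : Finset (Fin κ ⊕ Fin a)) (v : Vx) : Prop :=
  v ∈ I0.anchor τ s ∧
    ∀ j < I0.wt v, ∃ i ∈ bs, φ (leftEmb (Fin κ) (Fin a) (Fin b) i) = (v, j)

private theorem before_destutter' {β : Type} (P Q : β → Prop) (L : List β)
    (inst : DecidableRel (fun x y : β => x ≠ y)) :
    Before P Q (@List.destutter β (fun x y => x ≠ y) inst L) ↔ Before P Q L := by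
  have h := before_destutter P Q L
  have e : @List.destutter β (fun x y => x ≠ y) inst =
      @List.destutter β (fun x y => x ≠ y) (fun x y => Classical.propDecidable _) := by
    have : inst = (fun x y => Classical.propDecidable _) := Subsingleton.elim _ _
    rw [this]
  rw [e]
  rw [← h]
  have e2 : ∀ i1 i2 : DecidableRel (fun x y : β => x ≠ y),
      @List.destutter β (fun x y => x ≠ y) i1 L = @List.destutter β (fun x y => x ≠ y) i2 L := by
    intro i1 i2
    rw [Subsingleton.elim i1 i2]
  rw [e2]

theorem compB {κ : ℕ} (hκ : 6 ≤ κ) (m : ℕ) : ∃ (a b : ℕ) (A : SimpleGraph (Fin κ ⊕ Fin a))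
    (B : (Fin m → Bool) → SimpleGraph (Fin κ ⊕ Fin b))
    (ori : List (Finset (Fin κ ⊕ Fin a)) → Fin m → Bool),
    κ + a + b ≤ (18 * (m + 5) + 2) * (6 * κ) * 3 ^ ((27 * (m + 5) + 2 * κ + 10) / κ) ∧
    (∀ x, TwLe (glue A (B x)) (3 * κ - 2)) ∧
    (∀ x, PwLe (glue A (B x)) (27 * (m + 5) + 2 * κ + 11)) ∧
    ∀ (x : Fin m → Bool) (L : List (Finset (Fin κ ⊕ (Fin a ⊕ Fin b)))),
      IsPD (glue A (B x)) (27 * (m + 5) + 2 * κ + 11) L →
      ori (trace L) = x ∨ ori (trace L) = fun g => !x g := by
  classical
  obtain ⟨a, b, φ, A, B, hsize, hinj, hval, hleft, hadj, htw, hpw⟩ := graphB hκ m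
  set I0 : Inst := J κ m (fun _ => 0) with hI0
  let F : Finset Vx := Finset.univ.image (fun i => (φ i).1)
  have hF : ∀ v, I0.Valid v → v ∈ F := by
    intro v hv
    have h1 : (instOf κ (quadsB m (fun _ => false))).BValid (v, 0) := by
      rw [inst_eq]
      exact ⟨hv, wt_pos hκ _ v⟩
    obtain ⟨i, hi⟩ := (hval (fun _ => false) (v, 0)).2 h1
    exact Finset.mem_image.2 ⟨i, Finset.mem_univ i, by rw [hi]⟩
  let Hv : ℕ → Bool → Finset (Fin κ ⊕ Fin a) → Prop := fun g s bs =>
    I0.ht (9 * g) ≤ ∑ v ∈ F.filter (fun v => AC I0 φ (9 * g) s bs v), I0.wt v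
  refine ⟨a, b, A, fun x => B (exB x),
    fun T g => decide (Before (Hv g.1 false) (Hv g.1 true) T), hsize, fun x => htw _,
    fun x => hpw _, ?_⟩
  intro x L hL
  -- transport to `Fin n`
  let e : Fin (κ + (a + b)) ≃ Fin κ ⊕ (Fin a ⊕ Fin b) :=
    finSumFinEquiv.symm.trans (Equiv.sumCongr (Equiv.refl _) finSumFinEquiv.symm)
  let G : SimpleGraph (Fin (κ + (a + b))) := (glue A (B (exB x))).comap e
  have hL' := isPD_map (G := G) e (fun u v h => h) hL
  have hblow : (instOf κ (quadsB m (exB x))).IsBlow G (fun i => φ (e i)) := by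
    refine ⟨?_, ?_, ?_, ?_⟩
    · intro i j h
      exact e.injective (hinj h)
    · intro i
      exact (hval (exB x) _).1 ⟨e i, rfl⟩
    · intro p hp
      obtain ⟨i, hi⟩ := (hval (exB x) p).2 hp
      exact ⟨e.symm i, by rw [Equiv.apply_symm_apply]; exact hi⟩
    · intro i j
      exact hadj (exB x) (e i) (e j)
  obtain ⟨bag, hbag, hmem⟩ := seqW hblow hL'
  have hgood := instOf_good hκ (quadsB_dist m (exB x))
  have hB2 : (instOf κ (quadsB m (exB x))).B + 2 = 27 * (m + 5) + 2 * κ + 11 + 1 := by
    show 27 * (quadsB m (exB x)).length + 2 * κ + 10 + 2 = _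
    rw [quadsB_length]
  rw [← hB2] at hbag
  set I : Inst := instOf κ (quadsB m (exB x)) with hI
  have hIJ : I = J κ m (nxOf (quadsB m (exB x))) := inst_eq κ m (exB x)
  have hT : I.T = 9 * (m + 5) := by rw [hIJ]; rfl
  -- heavy bags
  let P : ℕ → Bool → ℕ → Prop := fun τ s t =>
    I.ht τ ≤ ∑ v ∈ (bag t).filter (fun v => v ∈ I.anchor τ s), I.wt v
  have hex : ∀ (τ : ℕ) (s : Bool), (τ < I.T ∨ (τ = I.T ∧ s = false)) → ∃ t, P τ s t :=
    fun τ s hτ => hgood.exists_heavy hbag hτ
  let X : ℕ → Bool → ℕ := fun τ s => if h : ∃ t, P τ s t then Nat.find h else 0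
  have hX : ∀ (τ : ℕ) (s : Bool), (τ < I.T ∨ (τ = I.T ∧ s = false)) → P τ s (X τ s) := by
    intro τ s hτ
    have h1 := hex τ s hτ
    have h2 : X τ s = Nat.find h1 := dif_pos h1
    rw [h2]
    exact Nat.find_spec h1
  have hXmin : ∀ (τ : ℕ) (s : Bool), (τ < I.T ∨ (τ = I.T ∧ s = false)) →
      ∀ t < X τ s, ¬ P τ s t := by
    intro τ s hτ t ht
    have h1 := hex τ s hτ
    have h2 : X τ s = Nat.find h1 := dif_pos h1
    rw [h2] at ht
    exact Nat.find_min h1 ht
  obtain ⟨hne, hc, hb⟩ := lowX hgood le_rfl hbag X hX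
  obtain ⟨z, hz1, hz2⟩ := solX (quadsB_dist m (exB x)) (quadsB_ne_nil m (exB x))
    (o := fun τ => decide (X τ false < X τ true))
    (fun σ hσ hn => decide_eq_decide.2 (hc σ hσ hn)) hb
  have hz3 := solB m (exB x) z hz1
  -- the heavy condition in terms of the left side
  have hP : ∀ (g : ℕ), g < m → ∀ (s : Bool) (t : ℕ),
      P (9 * g) s t ↔ ∃ ht : t < L.length, Hv g s (side (L[t]'ht)) := by
    intro g hg s t
    have hκht : κ ≤ I.ht (9 * g) := by
      have := hgood.kappa_le_ht (τ := 9 * g) (by rw [hT]; omega)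
      exact this
    by_cases ht : t < L.length
    · have hset : (bag t).filter (fun v => v ∈ I.anchor (9 * g) s) =
          F.filter (fun v => AC I0 φ (9 * g) s (side (L[t]'ht)) v) := by
        ext v
        rw [Finset.mem_filter, Finset.mem_filter, hmem]
        constructor
        · rintro ⟨⟨h1, h2⟩, h3⟩
          have h4 : I0.Valid v := by rw [hIJ] at h1; exact h1
          refine ⟨hF v h4, ?_, ?_⟩
          · rw [hIJ] at h3; exact h3
          · intro j hj
            obtain ⟨ht', i, h5, h6⟩ := h2 j (by rw [hIJ]; exact hj)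
            have h7 : IsA' m (φ (e i)).1.1.1 := by
              rw [show φ (e i) = (v, j) from h6]
              have h8 : v.1.1 = 9 * g := Inst.anchor_unit h3
              show IsA' m v.1.1
              rw [h8]
              exact ⟨by omega, Or.inl (by omega)⟩
            obtain ⟨j', hj'⟩ := hleft _ h7
            refine ⟨Sum.inr j', ?_, ?_⟩
            · have h9 : e i ∈ L[t]'ht := by
                have h10 : i ∈ ((L[t]'ht).preimage e e.injective.injOn) := by
                  simpa using h5
                exact Finset.mem_preimage.1 h10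
              unfold side
              rw [Finset.mem_preimage]
              show Sum.inr (Sum.inl j') ∈ L[t]'ht
              rw [← hj']
              exact h9
            · show φ (Sum.inr (Sum.inl j')) = (v, j)
              rw [← hj']
              exact h6
        · rintro ⟨h1, h2, h3⟩
          have h4 : v ∈ I.anchor (9 * g) s := by rw [hIJ]; exact h2
          refine ⟨⟨h4.1, ?_⟩, h4⟩
          intro j hj
          obtain ⟨p, h5, h6⟩ := h3 j (by rw [hIJ] at hj; exact hj)
          refine ⟨by simpa using ht, e.symm (leftEmb (Fin κ) (Fin a) (Fin b) p), ?_, ?_⟩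
          · have h7 : e.symm (leftEmb (Fin κ) (Fin a) (Fin b) p) ∈
                ((L[t]'ht).preimage e e.injective.injOn) := by
              rw [Finset.mem_preimage, Equiv.apply_symm_apply]
              unfold side at h5
              rw [Finset.mem_preimage] at h5
              exact h5
            simpa using h7
          · show φ (e (e.symm (leftEmb (Fin κ) (Fin a) (Fin b) p))) = (v, j)
            rw [Equiv.apply_symm_apply]
            exact h6
      have hsum : ∑ v ∈ (bag t).filter (fun v => v ∈ I.anchor (9 * g) s), I.wt v =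
          ∑ v ∈ F.filter (fun v => AC I0 φ (9 * g) s (side (L[t]'ht)) v), I0.wt v := by
        rw [hset]
        refine Finset.sum_congr rfl fun v _ => ?_
        rw [hIJ]
        rfl
      have hht : I.ht (9 * g) = I0.ht (9 * g) := by rw [hIJ]; rfl
      constructor
      · intro h1
        refine ⟨ht, ?_⟩
        show I0.ht (9 * g) ≤ _
        rw [← hht, ← hsum]
        exact h1
      · rintro ⟨_, h1⟩
        show I.ht (9 * g) ≤ _
        rw [hht, hsum]
        exact h1
    · constructor
      · intro h1
        exfalso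
        have h2 : bag t = ∅ := by
          rw [Finset.eq_empty_iff_forall_notMem]
          intro v hv
          rw [hmem] at hv
          obtain ⟨ht', -⟩ := hv.2 0 (by rw [hIJ]; exact wt_pos hκ _ v)
          rw [List.length_map] at ht'
          exact ht ht'
        have h3 : I.ht (9 * g) ≤ ∑ v ∈ (bag t).filter (fun v => v ∈ I.anchor (9 * g) s), I.wt v := h1
        rw [h2, Finset.filter_empty, Finset.sum_empty] at h3
        omega
      · rintro ⟨h1, -⟩
        exact absurd h1 ht
  -- the orientation is read off from the trace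
  have hori : ∀ g : Fin m, decide (Before (Hv g.1 false) (Hv g.1 true) (trace L)) =
      decide (X (9 * g.1) false < X (9 * g.1) true) := by
    intro g
    have hgT : 9 * g.1 < I.T := by rw [hT]; have := g.2; omega
    rw [decide_eq_decide]
    unfold trace
    rw [before_destutter']
    symm
    have key : ∀ s, (∃ h : X (9 * g.1) s < (L.map side).length,
        Hv g.1 s ((L.map side)[X (9 * g.1) s]'h)) ∧
        ∀ (i : ℕ) (hi : i < (L.map side).length), i < X (9 * g.1) s →
          ¬ Hv g.1 s ((L.map side)[i]'hi) := by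
      intro s
      constructor
      · obtain ⟨h1, h2⟩ := (hP g.1 g.2 s _).1 (hX (9 * g.1) s (Or.inl hgT))
        refine ⟨by rw [List.length_map]; exact h1, ?_⟩
        rw [List.getElem_map]
        exact h2
      · intro i hi hlt h3
        rw [List.getElem_map] at h3
        rw [List.length_map] at hi
        exact hXmin (9 * g.1) s (Or.inl hgT) i hlt ((hP g.1 g.2 s i).2 ⟨hi, h3⟩)
    exact before_iff_first _ _ _ _ _ (key false).1 (key false).2 (key true).1 (key true).2
  -- conclusion
  have hfin : ∀ g : Fin m, decide (Before (Hv g.1 false) (Hv g.1 true) (trace L)) =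
      (z 0 == x g) := by
    intro g
    rw [hori g]
    have h1 := hz2 (9 * g.1) (6 + g.1) (by rw [quadsB_length]; have := g.2; omega)
      (tokB m (exB x) g.1 g.2)
    rw [← h1, hz3 g.1 g.2]
    unfold exB
    rw [dif_pos g.2]
  cases hz0 : z 0 with
  | true =>
    left
    funext g
    exact (hfin g).trans (by rw [hz0]; cases x g <;> rfl)
  | false =>
    right
    funext g
    exact (hfin g).trans (by rw [hz0]; cases x g <;> rfl)

end DP

end Pool.Agent.Work.MP_8491f2_lc
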