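import Mathlib

/-!
# MP_8491f2_lc/DP, Count (size M): the choice of `m`

PROOF.  `κ = (k + 2) / 3 ≥ 6`, `3 κ ≥ k`, `j = s / 14 ≥ 1`, `28 j ≥ s`.  Take `e = Nat.log 3 n / 28`, `m = κ e`.  The exponent: `(27 (κ e + 5) + 2 κ + 10) / κ ≤ 27 e + 2 + (145 / κ) ≤ 27 e + 27` (`145 / 6 < 25`).  So the size is at most `s + j (18 (κ e + 5) + 2) 6 κ 3 ^ (27 e + 27)`, which is `≤ 3 ^ (28 e) ≤ n` for `e ≥ e₀(s, k)` (a polynomial in `e` times `3 ^ 27` is at most `3 ^ e`; and `Nat.log 3 n / 28 → ∞`, `Nat.pow_log_le_self`).  `n < 3 ^ (28 (e + 1)) ≤ 3 ^ (56 e)` (`Nat.lt_pow_succ_log_self`; `e ≥ 1`), so `n ^ (s k / 10000) ≤ 3 ^ (56 e s k / 10000) ≤ 4 ^ (56 e s k / 10000) = 2 ^ (112 e s k / 10000)`, and `112 e s k / 10000 ≤ j κ e` because `s ≤ 28 j`, `k ≤ 3 κ`: `112 * 84 = 9408 ≤ 10000`.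
-/

set_option autoImplicit false

namespace Pool.Agent.Work.MP_8491f2_lc

namespace DP

private theorem sq_le_three_pow (e : ℕ) : e ^ 2 ≤ 3 ^ e := by
  induction e with
  | zero => norm_num
  | succ e ih =>
    rcases Nat.lt_or_ge e 2 with h | h
    · interval_cases e <;> norm_num
    · rw [pow_succ 3 e]
      nlinarith

private theorem lin_le_three_pow {A B e : ℕ} (h : A + B + 1 ≤ e) : A * e + B ≤ 3 ^ e := by
  refine le_trans ?_ (sq_le_three_pow e)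
  nlinarith [Nat.zero_le A, Nat.zero_le B]

private theorem count_num {s k κ j e : ℕ} (hκk : k ≤ 3 * κ) (hjs : s ≤ 28 * j) :
    ((112 * e : ℕ) : ℝ) * ((s : ℝ) * k / 10000) ≤ ((j * (κ * e) : ℕ) : ℝ) := by
  have h1 : 112 * e * (s * k) ≤ 10000 * (j * (κ * e)) := by
    calc 112 * e * (s * k) ≤ 112 * e * ((28 * j) * (3 * κ)) :=
          Nat.mul_le_mul_left _ (Nat.mul_le_mul hjs hκk)
      _ = 9408 * (j * (κ * e)) := by ring
      _ ≤ 10000 * (j * (κ * e)) := Nat.mul_le_mul_right _ (by norm_num)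
  have h2 : ((112 * e * (s * k) : ℕ) : ℝ) ≤ ((10000 * (j * (κ * e)) : ℕ) : ℝ) := by
    exact_mod_cast h1
  push_cast at h2 ⊢
  linarith

private theorem count_up {e n : ℕ} (he1 : 1 ≤ e) (hup : n < 3 ^ (28 * (e + 1))) :
    (n : ℝ) ≤ 2 ^ (112 * e) := by
  have h2 : n ≤ 2 ^ (112 * e) := by
    calc n ≤ 3 ^ (28 * (e + 1)) := hup.le
      _ ≤ 3 ^ (56 * e) := Nat.pow_le_pow_right (by norm_num) (by omega)
      _ ≤ 4 ^ (56 * e) := Nat.pow_le_pow_left (by norm_num) _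
      _ = 2 ^ (112 * e) := by
        rw [show (4 : ℕ) = 2 ^ 2 by norm_num, ← pow_mul]
        congr 1
        omega
  exact_mod_cast h2

private theorem count_aux {s k κ j e n : ℕ} (hκk : k ≤ 3 * κ) (hjs : s ≤ 28 * j) (he1 : 1 ≤ e)
    (hup : n < 3 ^ (28 * (e + 1))) :
    (n : ℝ) ^ ((s : ℝ) * k / 10000) ≤ 2 ^ (j * (κ * e)) := by
  have h1 := count_up he1 hup
  have hr : (0 : ℝ) ≤ (s : ℝ) * k / 10000 :=
    div_nonneg (mul_nonneg (Nat.cast_nonneg _) (Nat.cast_nonneg _)) (by norm_num)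
  calc (n : ℝ) ^ ((s : ℝ) * k / 10000) ≤ ((2 : ℝ) ^ (112 * e)) ^ ((s : ℝ) * k / 10000) :=
        Real.rpow_le_rpow (Nat.cast_nonneg _) h1 hr
    _ = (2 : ℝ) ^ (((112 * e : ℕ) : ℝ) * ((s : ℝ) * k / 10000)) := by
        rw [← Real.rpow_natCast, ← Real.rpow_mul (by norm_num)]
    _ ≤ (2 : ℝ) ^ (((j * (κ * e) : ℕ)) : ℝ) :=
        Real.rpow_le_rpow_of_exponent_le (by norm_num) (count_num hκk hjs)
    _ = 2 ^ (j * (κ * e)) := Real.rpow_natCast _ _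

theorem count (s k : ℕ) (hs : 14 ≤ s) (hk : 16 ≤ k) : ∃ n₀ : ℕ, ∀ n ≥ n₀, ∃ m : ℕ,
    s + (s / 14) * ((18 * (m + 5) + 2) * (6 * ((k + 2) / 3)) *
      3 ^ ((27 * (m + 5) + 2 * ((k + 2) / 3) + 10) / ((k + 2) / 3))) ≤ n ∧
    (n : ℝ) ^ ((s : ℝ) * k / 10000) ≤ 2 ^ ((s / 14) * m) := by
  obtain ⟨κ, hκ⟩ : ∃ κ, κ = (k + 2) / 3 := ⟨_, rfl⟩
  obtain ⟨j, hj⟩ : ∃ j, j = s / 14 := ⟨_, rfl⟩
  rw [← hκ, ← hj]
  have hκ6 : 6 ≤ κ := by omega
  have hκk : k ≤ 3 * κ := by omega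
  have hj1 : 1 ≤ j := by omega
  have hjs : s ≤ 28 * j := by omega
  clear hκ hj
  refine ⟨3 ^ (28 * ((108 * j * κ ^ 2 * 3 ^ 27) + (s + 552 * j * κ * 3 ^ 27) + 1)), fun n hn => ?_⟩
  obtain ⟨e, he⟩ : ∃ e, e = Nat.log 3 n / 28 := ⟨_, rfl⟩
  have hn0 : n ≠ 0 := by
    have : 0 < 3 ^ (28 * ((108 * j * κ ^ 2 * 3 ^ 27) + (s + 552 * j * κ * 3 ^ 27) + 1)) := by
      positivity
    omega
  have hlog : 28 * ((108 * j * κ ^ 2 * 3 ^ 27) + (s + 552 * j * κ * 3 ^ 27) + 1) ≤ Nat.log 3 n :=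
    Nat.le_log_of_pow_le (by norm_num) hn
  have hee : (108 * j * κ ^ 2 * 3 ^ 27) + (s + 552 * j * κ * 3 ^ 27) + 1 ≤ e := by
    rw [he]
    omega
  have hpoly := lin_le_three_pow hee
  have hlow : 3 ^ (28 * e) ≤ n := by
    refine le_trans ?_ (Nat.pow_log_le_self 3 hn0)
    exact Nat.pow_le_pow_right (by norm_num) (by omega)
  have hup : n < 3 ^ (28 * (e + 1)) := by
    refine lt_of_lt_of_le (Nat.lt_pow_succ_log_self (b := 3) (by norm_num) n) ?_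
    exact Nat.pow_le_pow_right (by norm_num) (by omega)
  refine ⟨κ * e, ?_, ?_⟩
  · have hE : (27 * (κ * e + 5) + 2 * κ + 10) / κ ≤ 27 * e + 27 := by
      have h1 : 27 * (κ * e + 5) + 2 * κ + 10 ≤ κ * (27 * e + 27) := by nlinarith
      calc (27 * (κ * e + 5) + 2 * κ + 10) / κ ≤ (κ * (27 * e + 27)) / κ := Nat.div_le_div_right h1
        _ = 27 * e + 27 := Nat.mul_div_cancel_left _ (by omega)
    have h2 : 3 ^ ((27 * (κ * e + 5) + 2 * κ + 10) / κ) ≤ 3 ^ 27 * 3 ^ (27 * e) := by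
      rw [← pow_add]
      exact Nat.pow_le_pow_right (by norm_num) (by omega)
    have h3 : s ≤ s * 3 ^ (27 * e) := Nat.le_mul_of_pos_right s (by positivity)
    calc s + j * ((18 * (κ * e + 5) + 2) * (6 * κ) *
          3 ^ ((27 * (κ * e + 5) + 2 * κ + 10) / κ))
        ≤ s * 3 ^ (27 * e) + j * ((18 * (κ * e + 5) + 2) * (6 * κ) * (3 ^ 27 * 3 ^ (27 * e))) := by
          gcongr
      _ = ((108 * j * κ ^ 2 * 3 ^ 27) * e + (s + 552 * j * κ * 3 ^ 27)) * 3 ^ (27 * e) := by ring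
      _ ≤ 3 ^ e * 3 ^ (27 * e) := Nat.mul_le_mul_right _ hpoly
      _ = 3 ^ (28 * e) := by rw [← pow_add]; congr 1; omega
      _ ≤ n := hlow
  · exact count_aux hκk hjs (by omega) hup

/-- `n ^ (14 k / 10000)` is larger than `f k * (n + 1) ^ d` for some `k` and all large `n`. -/
theorem count2 (f : ℕ → ℕ) (d : ℕ) : ∃ k : ℕ, 16 ≤ k ∧ ∃ n₁ : ℕ, ∀ n ≥ n₁,
    ((f k * (n + 1) ^ d : ℕ) : ℝ) < (n : ℝ) ^ ((14 : ℝ) * k / 10000) := by
  obtain ⟨K, hK⟩ : ∃ K, K = 10000 * (d + 1) := ⟨_, rfl⟩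
  have hK16 : 16 ≤ K := by omega
  have h1 : (14 : ℝ) * (K : ℝ) / 10000 = ((14 * (d + 1) : ℕ) : ℝ) := by
    rw [hK]
    push_cast
    ring
  clear hK
  obtain ⟨r, hr⟩ : ∃ r, r = 14 * (d + 1) := ⟨_, rfl⟩
  rw [← hr] at h1
  have hr1 : d + 1 ≤ r := by omega
  clear hr
  refine ⟨K, hK16, f K * 2 ^ d + 1, fun n hn => ?_⟩
  rw [h1, Real.rpow_natCast]
  have hn1 : 1 ≤ n := by omega
  have h2 : f K * (n + 1) ^ d < n ^ r := by
    calc f K * (n + 1) ^ d ≤ f K * (2 * n) ^ d :=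
          Nat.mul_le_mul_left _ (Nat.pow_le_pow_left (by omega) d)
      _ = (f K * 2 ^ d) * n ^ d := by rw [mul_pow, mul_assoc]
      _ < n * n ^ d := Nat.mul_lt_mul_of_pos_right (by omega) (by positivity)
      _ = n ^ (d + 1) := by rw [pow_succ]; ring
      _ ≤ n ^ r := Nat.pow_le_pow_right hn1 hr1
  exact_mod_cast h2

end DP

end Pool.Agent.Work.MP_8491f2_lc
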