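import Pool.Agent.Work.MP_8491f2_lc.Defs

/-!
Two graphs glued along common vertices.
-/

set_option autoImplicit false

namespace Pool.Agent.Work.MP_8491f2_lc

namespace DP

/-- The inclusion of the left part of a glued graph. -/
def leftEmb (S α β : Type) : S ⊕ α ↪ S ⊕ (α ⊕ β) :=
  Function.Embedding.sumMap (Function.Embedding.refl S) Function.Embedding.inl

/-- The inclusion of the right part of a glued graph. -/
def rightEmb (S α β : Type) : S ⊕ β ↪ S ⊕ (α ⊕ β) :=
  Function.Embedding.sumMap (Function.Embedding.refl S) Function.Embedding.inr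

/-- The graphs `A` and `B` glued along the common vertices `S`. -/
def glue {S α β : Type} (A : SimpleGraph (S ⊕ α)) (B : SimpleGraph (S ⊕ β)) :
    SimpleGraph (S ⊕ (α ⊕ β)) :=
  A.map (leftEmb S α β) ⊔ B.map (rightEmb S α β)

/-- The variable 4-clause: variables `0, 1` belong to the left side (their values in a solution
are `z`, `not z`), `2, 3` (value `z`) and `4, 5` (value `not z`) to the right side. -/
def vq (a b : Bool) : Quad := (if a then 0 else 1, 2, 4, if b then 5 else 3)

/-- The fixed 4-clauses. -/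
def fixedQ : List Quad := [(0, 1, 2, 4), (0, 1, 3, 4), (0, 1, 2, 5), (2, 3, 4, 5), (0, 2, 4, 5)]

/-- The formula of the pair `(x, y)`. -/
def quads (m : ℕ) (x y : ℕ → Bool) : List Quad :=
  (List.range m).map (fun g => vq (x g) (y g)) ++ fixedQ

/-- The units of the left side before the cut. -/
def IsA' (m τ : ℕ) : Prop := τ < 9 * m ∧ (τ % 9 = 0 ∨ τ % 9 = 5)

/-- The units of the left side. -/
def IsA (m τ : ℕ) : Prop := IsA' m τ ∨ τ = 9 * m ∨ τ = 9 * m + 1

/-- The boundary: the four rails of the units `9 m` and `9 m + 1`. -/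
def Bd (m : ℕ) (v : Vx) : Prop := (v.1.1 = 9 * m ∨ v.1.1 = 9 * m + 1) ∧ v.2 = none

end DP

end Pool.Agent.Work.MP_8491f2_lc
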