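import Pool.Agent.Work.MP_8491f2_lc.DP.Defs

/-!
Partial solutions: traces of path decompositions; the formulas with a fixed left side.
-/

set_option autoImplicit false

namespace Pool.Agent.Work.MP_8491f2_lc

namespace DP

/-- The list of bags `L` is a path decomposition of `G` of width at most `w`. -/
def IsPD {V : Type} (G : SimpleGraph V) (w : ℕ) (L : List (Finset V)) : Prop :=
  IsTreeDec G (SimpleGraph.pathGraph L.length) (fun i => L.get i) ∧ ∀ b ∈ L, b.card ≤ w + 1

/-- The part of a bag in the left side. -/
noncomputable def side {S α β : Type} (b : Finset (S ⊕ (α ⊕ β))) : Finset (S ⊕ α) :=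
  b.preimage (leftEmb S α β) (leftEmb S α β).injective.injOn

open Classical in
/-- The trace of a sequence of bags on the left side, without consecutive repetitions. -/
noncomputable def trace {S α β : Type} (L : List (Finset (S ⊕ (α ⊕ β)))) :
    List (Finset (S ⊕ α)) :=
  (L.map side).destutter (· ≠ ·)

/-- Some element of `L` satisfies `P`, and neither it nor an earlier one satisfies `Q`. -/
def Before {β : Type} (P Q : β → Prop) (L : List β) : Prop :=
  ∃ (i : ℕ) (hi : i < L.length), P L[i] ∧ ∀ (j : ℕ) (hj : j ≤ i), ¬ Q (L[j]'(by omega))

/-- The formula for `x`: the variable `6 + g` must have the value of the variable `0` if and only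
if `x g` is true. -/
def quadsB (m : ℕ) (x : ℕ → Bool) : List Quad :=
  (List.range m).map (fun g => (6 + g, 2, 4, if x g then 5 else 3)) ++ fixedQ

/-- The root of the central anchor. -/
abbrev croot (m : ℕ) : Vx := node (9 * (m + 5)) false []

end DP

end Pool.Agent.Work.MP_8491f2_lc
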