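import Pool.Agent.Work.MP_8491f2_lc.DP.Defs

/-!
# MP_8491f2_lc/DP, Form (size S): the formulas

PROOF of `sat_quads`.  `→`: let `z` be a solution.  The fixed clauses say (numbers of true variables, `toNat`): `z0 + z1 + z2 + z4 = 2`, `z0 + z1 + z3 + z4 = 2`, `z0 + z1 + z2 + z5 = 2`, `z2 + z3 + z4 + z5 = 2`, `z0 + z2 + z4 + z5 = 2`; so `z2 = z3`, `z4 = z5`, `z4 ≠ z2`, `z0 = z2`, `z1 ≠ z0` (all 64 cases: `cases` on the six Booleans and `simp_all`/`omega`).  The clause `vq (x g) (y g)` then has count 2 only if `x g = y g` (16 cases).  `←`: `z = fun i => decide (i = 0 ∨ i = 2 ∨ i = 3)`: all counts are 2.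
-/

set_option autoImplicit false

namespace Pool.Agent.Work.MP_8491f2_lc

namespace DP

theorem quads_length (m : ℕ) (x y : ℕ → Bool) : (quads m x y).length = m + 5 := by
  simp [quads, fixedQ]

theorem quads_dist (m : ℕ) (x y : ℕ → Bool) : ∀ q ∈ quads m x y, q.Dist := by
  intro q hq
  unfold quads at hq
  rw [List.mem_append, List.mem_map] at hq
  rcases hq with ⟨g, _, rfl⟩ | hq
  · unfold vq Quad.Dist
    cases x g <;> cases y g <;> decide
  · unfold fixedQ at hq
    simp only [List.mem_cons, List.not_mem_nil, or_false] at hq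
    rcases hq with rfl | rfl | rfl | rfl | rfl <;> (unfold Quad.Dist; decide)

theorem quads_ne_nil (m : ℕ) (x y : ℕ → Bool) : quads m x y ≠ [] := by
  intro h
  have h1 := quads_length m x y
  rw [h] at h1
  simp at h1

private theorem fixed_sol (z : ℕ → Bool) (h : ∀ q ∈ fixedQ, q.count z = 2) :
    z 1 = !(z 0) ∧ z 2 = z 0 ∧ z 3 = z 0 ∧ z 4 = !(z 0) ∧ z 5 = !(z 0) := by
  have h1 := h (0, 1, 2, 4) (by simp [fixedQ])
  have h2 := h (0, 1, 3, 4) (by simp [fixedQ])
  have h3 := h (0, 1, 2, 5) (by simp [fixedQ])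
  have h4 := h (2, 3, 4, 5) (by simp [fixedQ])
  have h5 := h (0, 2, 4, 5) (by simp [fixedQ])
  unfold Quad.count at h1 h2 h3 h4 h5
  revert h1 h2 h3 h4 h5
  cases z 0 <;> cases z 1 <;> cases z 2 <;> cases z 3 <;> cases z 4 <;> cases z 5 <;> simp

theorem sat_quads (m : ℕ) (x y : ℕ → Bool) :
    Sat24 (quads m x y) ↔ ∀ g < m, x g = y g := by
  constructor
  · rintro ⟨z, hz⟩ g hg
    obtain ⟨h1, h2, h3, h4, h5⟩ := fixed_sol z (fun q hq => hz q (by
      unfold quads; exact List.mem_append_right _ hq))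
    have h6 := hz (vq (x g) (y g)) (by
      unfold quads
      exact List.mem_append_left _ (List.mem_map.2 ⟨g, List.mem_range.2 hg, rfl⟩))
    unfold vq Quad.count at h6
    revert h6
    cases hx : x g <;> cases hy : y g <;> simp [h1, h2, h3, h4, h5] <;> cases z 0 <;> simp
  · intro h
    refine ⟨fun i => decide (i = 0 ∨ i = 2 ∨ i = 3), ?_⟩
    intro q hq
    unfold quads at hq
    rw [List.mem_append, List.mem_map] at hq
    rcases hq with ⟨g, hg, rfl⟩ | hq
    · rw [h g (List.mem_range.1 hg)]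
      unfold vq Quad.count
      cases y g <;> decide
    · unfold fixedQ at hq
      simp only [List.mem_cons, List.not_mem_nil, or_false] at hq
      rcases hq with rfl | rfl | rfl | rfl | rfl <;> (unfold Quad.count; decide)

end DP

end Pool.Agent.Work.MP_8491f2_lc
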