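import Pool.Agent.Work.MP_8491f2_lc.DP.DefsB

/-!
# MP_8491f2_lc/DP, FormB (size S): the formulas with a fixed left side

PROOF.  As in Form.lean (proved, copy): the fixed clauses give `z 2 = z 0`, `z 3 = z 0`, `z 4 = !z 0`, `z 5 = !z 0`; the clause number `g < m` has count `z (6 + g) + 1 + z 5` (if `x g`) or `z (6 + g) + 1 + z 3`, so `z (6 + g) = z 0` iff `x g`.  Solution for `satB`: `z i = true` for `i = 0, 2, 3` and for `i = 6 + g` with `x g`, i.e. `z i = if i < 6 then decide (i = 0 ∨ i = 2 ∨ i = 3) else x (i - 6)`.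
-/

set_option autoImplicit false

namespace Pool.Agent.Work.MP_8491f2_lc

namespace DP

theorem quadsB_length (m : ℕ) (x : ℕ → Bool) : (quadsB m x).length = m + 5 := by
  simp [quadsB, fixedQ]

theorem quadsB_dist (m : ℕ) (x : ℕ → Bool) : ∀ q ∈ quadsB m x, q.Dist := by
  intro q hq
  unfold quadsB at hq
  rw [List.mem_append, List.mem_map] at hq
  rcases hq with ⟨g, _, rfl⟩ | hq
  · unfold Quad.Dist
    have a2 : 6 + g ≠ 2 := by omega
    have a3 : 6 + g ≠ 3 := by omega
    have a4 : 6 + g ≠ 4 := by omega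
    have a5 : 6 + g ≠ 5 := by omega
    cases x g
    · simp [a2, a3, a4]
    · simp [a2, a4, a5]
  · unfold fixedQ at hq
    simp only [List.mem_cons, List.not_mem_nil, or_false] at hq
    rcases hq with rfl | rfl | rfl | rfl | rfl <;> (unfold Quad.Dist; decide)

theorem quadsB_ne_nil (m : ℕ) (x : ℕ → Bool) : quadsB m x ≠ [] := by
  intro h
  have h1 := quadsB_length m x
  rw [h] at h1
  simp at h1

private theorem fixedB_sol (z : ℕ → Bool) (h : ∀ q ∈ fixedQ, q.count z = 2) :
    z 1 = !(z 0) ∧ z 2 = z 0 ∧ z 3 = z 0 ∧ z 4 = !(z 0) ∧ z 5 = !(z 0) := by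
  have h1 := h (0, 1, 2, 4) (by simp [fixedQ])
  have h2 := h (0, 1, 3, 4) (by simp [fixedQ])
  have h3 := h (0, 1, 2, 5) (by simp [fixedQ])
  have h4 := h (2, 3, 4, 5) (by simp [fixedQ])
  have h5 := h (0, 2, 4, 5) (by simp [fixedQ])
  unfold Quad.count at h1 h2 h3 h4 h5
  revert h1 h2 h3 h4 h5
  cases z 0 <;> cases z 1 <;> cases z 2 <;> cases z 3 <;> cases z 4 <;> cases z 5 <;> simp

theorem satB (m : ℕ) (x : ℕ → Bool) : Sat24 (quadsB m x) := by
  refine ⟨fun i => if i < 6 then decide (i = 0 ∨ i = 2 ∨ i = 3) else x (i - 6), ?_⟩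
  intro q hq
  unfold quadsB at hq
  rw [List.mem_append, List.mem_map] at hq
  rcases hq with ⟨g, hg, rfl⟩ | hq
  · have h6 : ¬ (6 + g < 6) := by omega
    have h7 : 6 + g - 6 = g := by omega
    unfold Quad.count
    cases hx : x g
    · simp [h6, h7, hx]
    · simp [h6, h7, hx]
  · unfold fixedQ at hq
    simp only [List.mem_cons, List.not_mem_nil, or_false] at hq
    rcases hq with rfl | rfl | rfl | rfl | rfl <;> (unfold Quad.count; simp)

theorem solB (m : ℕ) (x z : ℕ → Bool) (hz : ∀ q ∈ quadsB m x, q.count z = 2) :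
    ∀ g < m, z (6 + g) = (z 0 == x g) := by
  intro g hg
  obtain ⟨h1, h2, h3, h4, h5⟩ := fixedB_sol z (fun q hq => hz q (by
    unfold quadsB; exact List.mem_append_right _ hq))
  have h6 := hz (6 + g, 2, 4, if x g then 5 else 3) (by
    unfold quadsB
    exact List.mem_append_left _ (List.mem_map.2 ⟨g, List.mem_range.2 hg, rfl⟩))
  unfold Quad.count at h6
  revert h6
  cases hx : x g <;> simp [h1, h2, h3, h4, h5] <;> cases z 0 <;> cases z (6 + g) <;> simp

end DP

end Pool.Agent.Work.MP_8491f2_lc
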