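import Pool.Agent.Work.MP_8491f2_lc.DP.PartB
import Pool.Agent.Work.MP_8491f2_lc.DP.Iso
import Pool.Agent.Work.MP_8491f2_lc.Decide

/-!
# MP_8491f2_lc/DP, GraphB (size M): one fixed left side, many right sides

PROOF as in Comp.lean (proved).  `A` = pull back of `(instOf κ (quadsB m (fun _ => false))).BAdj` under `φ ∘ leftEmb`, `B x` = pull back of `(instOf κ (quadsB m x)).BAdj` under `φ ∘ rightEmb`; `badjB_left`, `badjB_cross` give `(glue A (B x)).Adj u v ↔ (instOf κ (quadsB m x)).BAdj (φ u) (φ v)`.  `PwLe`: `satB`, `exists_balanced_of_sat24`, `pwLe_of_balanced` with `r = 1`.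
-/

set_option autoImplicit false

namespace Pool.Agent.Work.MP_8491f2_lc

namespace DP

private theorem gb_symm (I : Inst) (p q : Vx × ℕ) (h : I.BAdj p q) : I.BAdj q p := by
  rcases h with ⟨h1, h2⟩ | ⟨h1, h2⟩
  · exact Or.inl ⟨h1.symm, fun h3 => h2 h3.symm⟩
  · exact Or.inr ⟨fun h3 => h1 h3.symm, h2.symm⟩

private theorem gb_irrefl (I : Inst) (p : Vx × ℕ) : ¬ I.BAdj p p := by
  rintro (⟨_, h2⟩ | ⟨h1, _⟩)
  · exact h2 rfl
  · exact h1 rfl

/-- the graph of the instance pulled back. -/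
private def gbPull (I : Inst) {X : Type} (f : X → Vx × ℕ) : SimpleGraph X where
  Adj u v := I.BAdj (f u) (f v)
  symm := ⟨fun _ _ h => gb_symm I _ _ h⟩
  loopless := ⟨fun _ h => gb_irrefl I _ h⟩

theorem graphB {κ : ℕ} (hκ : 6 ≤ κ) (m : ℕ) : ∃ (a b : ℕ)
    (φ : Fin κ ⊕ (Fin a ⊕ Fin b) → Vx × ℕ) (A : SimpleGraph (Fin κ ⊕ Fin a))
    (B : (ℕ → Bool) → SimpleGraph (Fin κ ⊕ Fin b)),
    κ + a + b ≤ (18 * (m + 5) + 2) * (6 * κ) * 3 ^ ((27 * (m + 5) + 2 * κ + 10) / κ) ∧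
    Function.Injective φ ∧
    (∀ (x : ℕ → Bool) (p : Vx × ℕ), (∃ i, φ i = p) ↔ (instOf κ (quadsB m x)).BValid p) ∧
    (∀ i, IsA' m (φ i).1.1.1 → ∃ j, i = Sum.inr (Sum.inl j)) ∧
    (∀ (x : ℕ → Bool) u v, (glue A (B x)).Adj u v ↔
      (instOf κ (quadsB m x)).BAdj (φ u) (φ v)) ∧
    (∀ x, TwLe (glue A (B x)) (3 * κ - 2)) ∧
    ∀ x, PwLe (glue A (B x)) (27 * (m + 5) + 2 * κ + 11) := by
  classical
  obtain ⟨a, b, φ, hinj, hval, hbd, hA, hB, hsize⟩ := partB hκ m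
  let In : (ℕ → Bool) → Inst := fun x => instOf κ (quadsB m x)
  let A : SimpleGraph (Fin κ ⊕ Fin a) :=
    gbPull (In fun _ => false) (fun u => φ (leftEmb (Fin κ) (Fin a) (Fin b) u))
  let B : (ℕ → Bool) → SimpleGraph (Fin κ ⊕ Fin b) := fun x =>
    gbPull (In x) (fun u => φ (rightEmb (Fin κ) (Fin a) (Fin b) u))
  -- adjacency of the glued graph
  have hadj : ∀ x u v, (glue A (B x)).Adj u v ↔ (In x).BAdj (φ u) (φ v) := by
    intro x u v
    have hL : ∀ p q, A.Adj p q ↔ (In x).BAdj (φ (leftEmb _ _ _ p)) (φ (leftEmb _ _ _ q)) := by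
      have hA' : ∀ p : Fin κ ⊕ Fin a, IsA' m (φ (leftEmb (Fin κ) (Fin a) (Fin b) p)).1.1.1 ∨
          (φ (leftEmb (Fin κ) (Fin a) (Fin b) p)).1 = croot m := by
        rintro (p | p)
        · exact Or.inr (hbd p)
        · exact Or.inl (hA p)
      intro p q
      exact badjB_left (hA' p) (hA' q) _ x
    have hR : ∀ p q, (B x).Adj p q ↔
        (In x).BAdj (φ (rightEmb _ _ _ p)) (φ (rightEmb _ _ _ q)) := fun p q => Iff.rfl
    have hcross : ∀ (i : Fin a) (j : Fin b),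
        ¬ (In x).BAdj (φ (Sum.inr (Sum.inl i))) (φ (Sum.inr (Sum.inr j))) ∧
        ¬ (In x).BAdj (φ (Sum.inr (Sum.inr j))) (φ (Sum.inr (Sum.inl i))) := by
      intro i j
      exact badjB_cross (hA i) (hB j).1 (hB j).2 x
    unfold glue
    rw [SimpleGraph.sup_adj, SimpleGraph.map_adj, SimpleGraph.map_adj]
    constructor
    · rintro (⟨p, q, h1, rfl, rfl⟩ | ⟨p, q, h1, rfl, rfl⟩)
      · exact (hL p q).1 h1
      · exact (hR p q).1 h1
    · intro h
      rcases u with u | u | u <;> rcases v with v | v | v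
      · exact Or.inl ⟨Sum.inl u, Sum.inl v, (hL _ _).2 h, rfl, rfl⟩
      · exact Or.inl ⟨Sum.inl u, Sum.inr v, (hL _ _).2 h, rfl, rfl⟩
      · exact Or.inr ⟨Sum.inl u, Sum.inr v, (hR _ _).2 h, rfl, rfl⟩
      · exact Or.inl ⟨Sum.inr u, Sum.inl v, (hL _ _).2 h, rfl, rfl⟩
      · exact Or.inl ⟨Sum.inr u, Sum.inr v, (hL _ _).2 h, rfl, rfl⟩
      · exact absurd h (hcross u v).1
      · exact Or.inr ⟨Sum.inr u, Sum.inl v, (hR _ _).2 h, rfl, rfl⟩
      · exact absurd h (hcross v u).2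
      · exact Or.inr ⟨Sum.inr u, Sum.inr v, (hR _ _).2 h, rfl, rfl⟩
  -- transport to `Fin n`
  let e : Fin (κ + (a + b)) ≃ Fin κ ⊕ (Fin a ⊕ Fin b) :=
    finSumFinEquiv.symm.trans (Equiv.sumCongr (Equiv.refl _) finSumFinEquiv.symm)
  let G : (ℕ → Bool) → SimpleGraph (Fin (κ + (a + b))) := fun x => (glue A (B x)).comap e
  have hblow : ∀ x, (In x).IsBlow (G x) (fun i => φ (e i)) := by
    intro x
    refine ⟨?_, ?_, ?_, ?_⟩
    · intro i j h
      exact e.injective (hinj h)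
    · intro i
      exact (hval x _).1 ⟨e i, rfl⟩
    · intro p hp
      obtain ⟨i, hi⟩ := (hval x p).2 hp
      exact ⟨e.symm i, by rw [Equiv.apply_symm_apply]; exact hi⟩
    · intro i j
      exact hadj x (e i) (e j)
  have hD : ∀ x, ∀ q ∈ quadsB m x, q.Dist := fun x => quadsB_dist m x
  refine ⟨a, b, φ, A, B, hsize, hinj, hval, ?_, hadj, ?_, ?_⟩
  · rintro (i | i | i) hi
    · rw [hbd i] at hi
      have h1 : 9 * (m + 5) < 9 * m := hi.1
      omega
    · exact ⟨i, rfl⟩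
    · exact absurd hi (hB i).1
  · intro x
    have h1 := tw_le_of_isBlow hκ (hD x) (hblow x)
    have h2 := (tw_le_iff (G x) _).1 h1
    refine twLe_comap e.symm e.symm.injective (fun u v h => ?_) h2
    show (glue A (B x)).Adj (e (e.symm u)) (e (e.symm v))
    rw [Equiv.apply_symm_apply, Equiv.apply_symm_apply]
    exact h
  · intro x
    have hl : (quadsB m x).length = m + 5 := quadsB_length m x
    have h1 := pwLe_of_balanced (r := 1) hκ (hD x) (hblow x)
      (exists_balanced_of_sat24 (hD x) (satB m x))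
    rw [hl] at h1
    refine pwLe_comap e.symm e.symm.injective (fun u v h => ?_) h1
    show (glue A (B x)).Adj (e (e.symm u)) (e (e.symm v))
    rw [Equiv.apply_symm_apply, Equiv.apply_symm_apply]
    exact h

end DP

end Pool.Agent.Work.MP_8491f2_lc
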