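import Pool.Agent.Work.MP_8491f2_lc.DP.Defs
import Pool.Agent.Work.MP_8491f2_lc.PathSeq

/-!
# MP_8491f2_lc/DP, PwUnion (size M): the pathwidth of a disjoint union

`c` maps every vertex to the number of its part; no edges between different parts.
PROOF.  First two parts (`P v` or not), with the sequences of `pwLe_iff_seq`: `L₁, bag₁` of the induced graph on `{v | P v}` and `L₂, bag₂` of the other one; new sequence: `bag t = (bag₁ t).map` for `t < L₁`, `(bag₂ (t - L₁)).map` for `L₁ ≤ t` (`Finset.map` with the subtype embedding), length `L₁ + L₂`; a vertex with `P` has no bags at times `≥ L₁`.  Then induction on `N` for `c : V → ℕ` with all values `< N` (for all `V` at once): `N = 0`: `V` is empty (empty bags); step: `P v := c v = N`; the graph induced on `{v | c v ≠ N}` has the parts of `G` (an induced graph of an induced graph: transport the sequences, or use the bags with values in `V`: it is convenient to prove everything for the statement 'there is a sequence of bags `Finset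 V` for the vertices `v` with `Q v`', `Q : V → Prop`, and to translate `PwLe (G.induce _)` once).  Finally `ι ≃ Fin N`.
-/

set_option autoImplicit false

namespace Pool.Agent.Work.MP_8491f2_lc

namespace DP

private def PSeq {V : Type} (G : SimpleGraph V) (k : ℕ) (Q : V → Prop) (L : ℕ)
    (bag : ℕ → Finset V) : Prop :=
  (∀ t, L ≤ t → bag t = ∅) ∧ (∀ t v, v ∈ bag t → Q v) ∧ (∀ v, Q v → ∃ t, v ∈ bag t) ∧
    (∀ u v, Q u → Q v → G.Adj u v → ∃ t, u ∈ bag t ∧ v ∈ bag t) ∧
    (∀ v i j l, i ≤ j → j ≤ l → v ∈ bag i → v ∈ bag l → v ∈ bag j) ∧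
    ∀ t, (bag t).card ≤ k + 1

private theorem pseq_of_induce {V : Type} (G : SimpleGraph V) (k : ℕ) (Q : V → Prop)
    (h : PwLe (G.induce {v | Q v}) k) : ∃ L bag, PSeq G k Q L bag := by
  classical
  obtain ⟨L, bag, h1, h2, h3, h4, h5⟩ := (pwLe_iff_seq _ k).1 h
  have hm : ∀ (t : ℕ) (v : V), v ∈ (bag t).map (Function.Embedding.subtype _) ↔
      ∃ hv : Q v, (⟨v, hv⟩ : {v | Q v}) ∈ bag t := by
    intro t v
    rw [Finset.mem_map]
    constructor
    · rintro ⟨⟨w, hw⟩, hwt, rfl⟩
      exact ⟨hw, hwt⟩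
    · rintro ⟨hv, hvt⟩
      exact ⟨⟨v, hv⟩, hvt, rfl⟩
  refine ⟨L, fun t => (bag t).map (Function.Embedding.subtype _), ?_, ?_, ?_, ?_, ?_, ?_⟩
  · intro t ht
    show (bag t).map (Function.Embedding.subtype _) = ∅
    rw [h1 t ht]
    rfl
  · intro t v hv
    exact ((hm t v).1 hv).1
  · intro v hv
    obtain ⟨t, ht⟩ := h2 ⟨v, hv⟩
    exact ⟨t, (hm t v).2 ⟨hv, ht⟩⟩
  · intro u v hu hv huv
    obtain ⟨t, ht, ht'⟩ := h3 ⟨u, hu⟩ ⟨v, hv⟩ huv
    exact ⟨t, (hm t u).2 ⟨hu, ht⟩, (hm t v).2 ⟨hv, ht'⟩⟩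
  · intro v i j l hij hjl hi hl
    obtain ⟨hv, hi'⟩ := (hm i v).1 hi
    obtain ⟨_, hl'⟩ := (hm l v).1 hl
    exact (hm j v).2 ⟨hv, h4 ⟨v, hv⟩ i j l hij hjl hi' hl'⟩
  · intro t
    show ((bag t).map (Function.Embedding.subtype _)).card ≤ k + 1
    rw [Finset.card_map]
    exact h5 t

private theorem pseq_union {V ι : Type} [DecidableEq ι] (G : SimpleGraph V) (c : V → ι)
    (hc : ∀ u v, G.Adj u v → c u = c v) (k : ℕ)
    (h : ∀ i, PwLe (G.induce {v | c v = i}) k) (S : Finset ι) :
    ∃ L bag, PSeq G k (fun v => c v ∈ S) L bag := by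
  classical
  induction S using Finset.induction_on with
  | empty =>
    refine ⟨0, fun _ => ∅, fun _ _ => rfl, ?_, ?_, ?_, ?_, ?_⟩
    · intro t v hv
      exact absurd hv (Finset.notMem_empty _)
    · intro v hv
      exact absurd hv (Finset.notMem_empty _)
    · intro u v hu _ _
      exact absurd hu (Finset.notMem_empty _)
    · intro v i j l _ _ hi _
      exact absurd hi (Finset.notMem_empty _)
    · intro t
      show (∅ : Finset V).card ≤ k + 1
      rw [Finset.card_empty]
      exact Nat.zero_le _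
  | insert i S hiS ih =>
    obtain ⟨L1, b1, h1, h2, h3, h4, h5, h6⟩ := ih
    obtain ⟨L2, b2, g1, g2, g3, g4, g5, g6⟩ := pseq_of_induce G k (fun v => c v = i) (h i)
    have hlt : ∀ t, t < L1 → (if t < L1 then b1 t else b2 (t - L1)) = b1 t := fun t ht => if_pos ht
    have hge : ∀ t, L1 ≤ t → (if t < L1 then b1 t else b2 (t - L1)) = b2 (t - L1) :=
      fun t ht => if_neg (by omega)
    have hmem : ∀ t v, v ∈ (if t < L1 then b1 t else b2 (t - L1)) ↔
        (t < L1 ∧ v ∈ b1 t) ∨ (L1 ≤ t ∧ v ∈ b2 (t - L1)) := by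
      intro t v
      rcases lt_or_ge t L1 with ht | ht
      · rw [hlt t ht]
        constructor
        · exact fun hv => Or.inl ⟨ht, hv⟩
        · rintro (⟨_, hv⟩ | ⟨h7, _⟩)
          · exact hv
          · omega
      · rw [hge t ht]
        constructor
        · exact fun hv => Or.inr ⟨ht, hv⟩
        · rintro (⟨h7, _⟩ | ⟨_, hv⟩)
          · omega
          · exact hv
    have hin1 : ∀ t v, v ∈ b1 t → t < L1 := by
      intro t v hv
      by_contra h7
      rw [h1 t (by omega)] at hv
      exact absurd hv (Finset.notMem_empty _)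
    refine ⟨L1 + L2, fun t => if t < L1 then b1 t else b2 (t - L1), ?_, ?_, ?_, ?_, ?_, ?_⟩
    · intro t ht
      show (if t < L1 then b1 t else b2 (t - L1)) = ∅
      rw [hge t (by omega)]
      exact g1 _ (by omega)
    · intro t v hv
      rw [hmem] at hv
      rcases hv with ⟨_, hv⟩ | ⟨_, hv⟩
      · exact Finset.mem_insert_of_mem (h2 t v hv)
      · have h7 : c v = i := g2 _ v hv
        rw [h7]
        exact Finset.mem_insert_self _ _
    · intro v hv
      rcases Finset.mem_insert.1 hv with hv | hv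
      · obtain ⟨t, ht⟩ := g3 v hv
        refine ⟨L1 + t, ?_⟩
        rw [hmem]
        right
        refine ⟨by omega, ?_⟩
        rw [Nat.add_sub_cancel_left]
        exact ht
      · obtain ⟨t, ht⟩ := h3 v hv
        refine ⟨t, ?_⟩
        rw [hmem]
        exact Or.inl ⟨hin1 t v ht, ht⟩
    · intro u v hu hv huv
      have hcuv := hc u v huv
      rcases Finset.mem_insert.1 hu with hu | hu
      · obtain ⟨t, ht, ht'⟩ := g4 u v hu (hcuv.symm.trans hu) huv
        refine ⟨L1 + t, ?_⟩
        rw [hmem, hmem, Nat.add_sub_cancel_left]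
        exact ⟨Or.inr ⟨by omega, ht⟩, Or.inr ⟨by omega, ht'⟩⟩
      · have hv' : c v ∈ S := by
          rw [← hcuv]
          exact hu
        obtain ⟨t, ht, ht'⟩ := h4 u v hu hv' huv
        refine ⟨t, ?_⟩
        rw [hmem, hmem]
        exact ⟨Or.inl ⟨hin1 t u ht, ht⟩, Or.inl ⟨hin1 t v ht', ht'⟩⟩
    · intro v a j l haj hjl ha hl
      rw [hmem] at ha hl ⊢
      rcases ha with ⟨ha1, ha2⟩ | ⟨ha1, ha2⟩
      · rcases hl with ⟨hl1, hl2⟩ | ⟨hl1, hl2⟩
        · exact Or.inl ⟨by omega, h5 v a j l haj hjl ha2 hl2⟩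
        · exfalso
          have h7 : c v ∈ S := h2 a v ha2
          have h8 : c v = i := g2 _ v hl2
          rw [h8] at h7
          exact hiS h7
      · rcases hl with ⟨hl1, hl2⟩ | ⟨hl1, hl2⟩
        · omega
        · exact Or.inr ⟨by omega, g5 v (a - L1) (j - L1) (l - L1) (by omega) (by omega) ha2 hl2⟩
    · intro t
      show (if t < L1 then b1 t else b2 (t - L1)).card ≤ k + 1
      split_ifs
      · exact h6 t
      · exact g6 _

theorem pwLe_union {V ι : Type} [Finite ι] (G : SimpleGraph V) (c : V → ι)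
    (hc : ∀ u v, G.Adj u v → c u = c v) (k : ℕ)
    (h : ∀ i, PwLe (G.induce {v | c v = i}) k) : PwLe G k := by
  classical
  haveI : Fintype ι := Fintype.ofFinite ι
  obtain ⟨L, bag, h1, _, h3, h4, h5, h6⟩ := pseq_union G c hc k h Finset.univ
  exact (pwLe_iff_seq G k).2 ⟨L, bag, h1, fun v => h3 v (Finset.mem_univ _),
    fun u v huv => h4 u v (Finset.mem_univ _) (Finset.mem_univ _) huv, h5, h6⟩

end DP

end Pool.Agent.Work.MP_8491f2_lc
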