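import Pool.Agent.Work.MP_8491f2_lc.DP.Defs
import Pool.Agent.Work.MP_8491f2_lc.Elim

/-!
# MP_8491f2_lc/DP, TwUnion (size M): the treewidth of a disjoint union

`c` maps every vertex to the number of its part; no edges between different parts.
PROOF.  Let `T i` (on the finite type `X i`, a tree, so nonempty, bags `B i x : Finset {v | c v = i}`) be the decomposition of part `i`.  New tree on `Option (Σ i, X i)` (finite): `none` is adjacent to one chosen node `r i` of every `X i`, `some ⟨i, x⟩` and `some ⟨i, y⟩` are adjacent when `x, y` are adjacent in `T i`; bags: `∅` at `none`, `(B i x).map Subtype` at `some ⟨i, x⟩`.  It is a tree: root every `T i` at `r i`: (Elim) `isTree_of_parent` needs a parent function and a level; parent of `x ≠ r i` = the next vertex on the path to `r i` (`(hT i).dist_ne_of_adj` or the walk `(hT.existsUnique_path x (r i))`), level `dist x (r i)`; or directly: connected (everything is connected to `none`) and number of edges = number of vertices minus 1 (`SimpleGraph.isTree_iff_connected_and_card`,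 or `isTree_iff_existsUnique_path`): choose what is easiest.  The nodes of a vertex `v` of part `i` are `some ⟨i, x⟩`, `v ∈ B i x`: connected because the map `x ↦ some ⟨i, x⟩` is an isomorphism onto an induced subgraph.  (If `ι` is empty then `V` is empty: one node.)
-/

set_option autoImplicit false

namespace Pool.Agent.Work.MP_8491f2_lc

namespace DP

section star

variable {ι : Type} {X : ι → Type}

/-- the trees `T i` joined by a new vertex `none` -/
private def star (T : ∀ i, SimpleGraph (X i)) (r : ∀ i, X i) : SimpleGraph (Option (Σ i, X i)) where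
  Adj a b := (∃ i x y, a = some ⟨i, x⟩ ∧ b = some ⟨i, y⟩ ∧ (T i).Adj x y) ∨
    (∃ i, a = none ∧ b = some ⟨i, r i⟩) ∨ ∃ i, a = some ⟨i, r i⟩ ∧ b = none
  symm := ⟨by
    rintro a b (⟨i, x, y, h1, h2, h3⟩ | ⟨i, h1, h2⟩ | ⟨i, h1, h2⟩)
    · exact Or.inl ⟨i, y, x, h2, h1, h3.symm⟩
    · exact Or.inr (Or.inr ⟨i, h2, h1⟩)
    · exact Or.inr (Or.inl ⟨i, h2, h1⟩)⟩
  loopless := ⟨by
    rintro a (⟨i, x, y, h1, h2, h3⟩ | ⟨i, h1, h2⟩ | ⟨i, h1, h2⟩)
    · rw [h1] at h2
      have h4 := Option.some.inj h2
      have h5 : x = y := by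
        injection h4
      exact h3.ne h5
    · rw [h1] at h2
      exact absurd h2 (by simp)
    · rw [h1] at h2
      exact absurd h2 (by simp)⟩

open Classical in
/-- the retraction to the tree `T i` -/
private noncomputable def ret (r : ∀ i, X i) (i : ι) : Option (Σ i, X i) → X i
  | none => r i
  | some z => if h : z.1 = i then h ▸ z.2 else r i

private theorem ret_none (r : ∀ i, X i) (i : ι) : ret r i none = r i := rfl

open Classical in
private theorem ret_same (r : ∀ i, X i) (i : ι) (x : X i) : ret r i (some ⟨i, x⟩) = x := by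
  show (if h : i = i then (h ▸ x : X i) else r i) = x
  rw [dif_pos rfl]

open Classical in
private theorem ret_ne (r : ∀ i, X i) {i j : ι} (h : j ≠ i) (x : X j) :
    ret r i (some ⟨j, x⟩) = r i := by
  show (if h : j = i then (h ▸ x : X i) else r i) = r i
  rw [dif_neg h]

private theorem ret_root (r : ∀ i, X i) (i j : ι) : ret r i (some ⟨j, r j⟩) = r i := by
  by_cases h : j = i
  · subst h
    exact ret_same r j (r j)
  · exact ret_ne r h (r j)

private theorem star_adj {T : ∀ i, SimpleGraph (X i)} {r : ∀ i, X i} (i : ι)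
    {a b : Option (Σ i, X i)} (h : (star T r).Adj a b) :
    ret r i a = ret r i b ∨
      ∃ x y, a = some ⟨i, x⟩ ∧ b = some ⟨i, y⟩ ∧ (T i).Adj x y := by
  rcases h with ⟨j, x, y, h1, h2, h3⟩ | ⟨j, h1, h2⟩ | ⟨j, h1, h2⟩
  · by_cases hj : j = i
    · subst hj
      exact Or.inr ⟨x, y, h1, h2, h3⟩
    · left
      rw [h1, h2, ret_ne r hj, ret_ne r hj]
  · left
    rw [h1, h2, ret_none, ret_root]
  · left
    rw [h1, h2, ret_none, ret_root]

private theorem star_conn (T : ∀ i, SimpleGraph (X i)) (r : ∀ i, X i)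
    (hT : ∀ i, (T i).IsTree) (a : Option (Σ i, X i)) : (star T r).Reachable a none := by
  rcases a with _ | ⟨i, x⟩
  · exact SimpleGraph.Reachable.refl _
  · have h1 : (T i).Reachable x (r i) := (hT i).connected.preconnected x (r i)
    let f : T i →g star T r :=
      ⟨fun x => some ⟨i, x⟩, fun {x y} hxy => Or.inl ⟨i, x, y, rfl, rfl, hxy⟩⟩
    have h2 : (star T r).Reachable (some ⟨i, x⟩) (some ⟨i, r i⟩) := h1.map f
    have h3 : (star T r).Adj (some ⟨i, r i⟩) none := Or.inr (Or.inr ⟨i, rfl, rfl⟩)
    exact h2.trans h3.reachable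

private theorem sigma_inj {i : ι} {x y : X i}
    (h : (some ⟨i, x⟩ : Option (Σ i, X i)) = some ⟨i, y⟩) : x = y := by
  have h1 := Option.some.inj h
  injection h1

private theorem star_isTree (T : ∀ i, SimpleGraph (X i)) (r : ∀ i, X i)
    (hT : ∀ i, (T i).IsTree) : (star T r).IsTree := by
  classical
  refine ⟨{ preconnected := fun a b => (star_conn T r hT a).trans (star_conn T r hT b).symm,
            nonempty := ⟨none⟩ }, ?_⟩
  rw [SimpleGraph.isAcyclic_iff_forall_adj_isBridge]
  -- the edges of the trees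
  have key1 : ∀ (i : ι) (x y : X i), (T i).Adj x y →
      ¬ ((star T r).deleteEdges {s((some ⟨i, x⟩ : Option (Σ i, X i)), some ⟨i, y⟩)}).Reachable
        (some ⟨i, x⟩) (some ⟨i, y⟩) := by
    intro i x y hxy hr
    have hinv : ∀ a b, ((star T r).deleteEdges
        {s((some ⟨i, x⟩ : Option (Σ i, X i)), some ⟨i, y⟩)}).Reachable a b →
        ((T i).deleteEdges {s(x, y)}).Reachable (ret r i a) (ret r i b) := by
      rintro a b ⟨p⟩
      induction p with
      | nil => exact SimpleGraph.Reachable.refl _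
      | @cons a c b hac p ih =>
        refine SimpleGraph.Reachable.trans ?_ ih
        rw [SimpleGraph.deleteEdges_adj] at hac
        obtain ⟨h1, h2⟩ := hac
        rcases star_adj i h1 with h3 | ⟨x', y', h3, h4, h5⟩
        · rw [h3]
        · subst h3 h4
          rw [ret_same, ret_same]
          refine SimpleGraph.Adj.reachable ?_
          rw [SimpleGraph.deleteEdges_adj]
          refine ⟨h5, fun h6 => h2 ?_⟩
          have h7 : s(x', y') = s(x, y) := h6
          show s((some ⟨i, x'⟩ : Option (Σ i, X i)), some ⟨i, y'⟩) =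
            s((some ⟨i, x⟩ : Option (Σ i, X i)), some ⟨i, y⟩)
          rw [Sym2.eq_iff] at h7 ⊢
          rcases h7 with ⟨h8, h9⟩ | ⟨h8, h9⟩
          · left
            rw [h8, h9]
            exact ⟨rfl, rfl⟩
          · right
            rw [h8, h9]
            exact ⟨rfl, rfl⟩
    have h1 := hinv _ _ hr
    rw [ret_same, ret_same] at h1
    have h2 := SimpleGraph.isAcyclic_iff_forall_adj_isBridge.1 (hT i).isAcyclic hxy
    rw [SimpleGraph.isBridge_iff] at h2
    exact h2 h1
  -- the new edges
  have key2 : ∀ i : ι, ¬ ((star T r).deleteEdges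
      {s((none : Option (Σ i, X i)), some ⟨i, r i⟩)}).Reachable (some ⟨i, r i⟩) none := by
    intro i hr
    have hinv : ∀ a b, ((star T r).deleteEdges
        {s((none : Option (Σ i, X i)), some ⟨i, r i⟩)}).Reachable a b →
        (∃ x, a = some ⟨i, x⟩) → ∃ x, b = some ⟨i, x⟩ := by
      rintro a b ⟨p⟩
      induction p with
      | nil => exact id
      | @cons a c b hac p ih =>
        rintro ⟨x, hx⟩
        apply ih
        rw [SimpleGraph.deleteEdges_adj] at hac
        obtain ⟨h1, h2⟩ := hac
        rcases h1 with ⟨j, x', y', h3, h4, h5⟩ | ⟨j, h3, h4⟩ | ⟨j, h3, h4⟩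
        · rw [hx] at h3
          have h6 := Option.some.inj h3
          have h7 : i = j := congrArg Sigma.fst h6
          subst h7
          exact ⟨y', h4⟩
        · rw [hx] at h3
          exact absurd h3 (by simp)
        · exfalso
          have h6 : (some ⟨i, x⟩ : Option (Σ i, X i)) = some ⟨j, r j⟩ := hx.symm.trans h3
          have h7 : i = j := congrArg Sigma.fst (Option.some.inj h6)
          subst h7
          apply h2
          rw [h3, h4]
          exact Sym2.eq_swap
    obtain ⟨x, hx⟩ := hinv _ _ hr ⟨r i, rfl⟩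
    exact absurd hx (by simp)
  intro a b hab
  rw [SimpleGraph.isBridge_iff]
  rcases hab with ⟨i, x, y, h1, h2, h3⟩ | ⟨i, h1, h2⟩ | ⟨i, h1, h2⟩
  · subst h1 h2
    exact key1 i x y h3
  · subst h1 h2
    exact fun hr => key2 i hr.symm
  · subst h1 h2
    intro hr
    apply key2 i
    rw [Sym2.eq_swap]
    exact hr

end star

theorem twLe_union {V ι : Type} [Finite ι] (G : SimpleGraph V) (c : V → ι)
    (hc : ∀ u v, G.Adj u v → c u = c v) (k : ℕ)
    (h : ∀ i, TwLe (G.induce {v | c v = i}) k) : TwLe G k := by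
  classical
  choose X hX T B hD hB using h
  have hne : ∀ i, Nonempty (X i) := fun i => (hD i).isTree.connected.nonempty
  let r : ∀ i, X i := fun i => Classical.choice (hne i)
  let Bg : Option (Σ i, X i) → Finset V := fun a =>
    match a with
    | none => ∅
    | some z => (B z.1 z.2).map (Function.Embedding.subtype _)
  have hBg : ∀ (v : V) (i : ι) (x : X i), v ∈ Bg (some ⟨i, x⟩) ↔
      ∃ hv : c v = i, (⟨v, hv⟩ : {v | c v = i}) ∈ B i x := by
    intro v i x
    show v ∈ (B i x).map (Function.Embedding.subtype _) ↔ _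
    rw [Finset.mem_map]
    constructor
    · rintro ⟨⟨w, hw⟩, h1, h2⟩
      have h3 : w = v := h2
      subst h3
      exact ⟨hw, h1⟩
    · rintro ⟨hv, h1⟩
      exact ⟨⟨v, hv⟩, h1, rfl⟩
  refine ⟨Option (Σ i, X i), inferInstance, star T r, Bg,
    ⟨star_isTree T r fun i => (hD i).isTree, ?_, ?_⟩, ?_⟩
  · intro u v huv
    have h1 : c u = c v := hc u v huv
    obtain ⟨x, h2, h3⟩ := (hD (c v)).edge ⟨u, h1⟩ ⟨v, rfl⟩ huv
    exact ⟨some ⟨c v, x⟩, (hBg u _ x).2 ⟨h1, h2⟩, (hBg v _ x).2 ⟨rfl, h3⟩⟩
  · intro v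
    have h1 := (hD (c v)).conn ⟨v, rfl⟩
    let f : ((T (c v)).induce {x | (⟨v, rfl⟩ : {u | c u = c v}) ∈ B (c v) x}) →g
        ((star T r).induce {a | v ∈ Bg a}) :=
      ⟨fun x => ⟨some ⟨c v, x.1⟩, (hBg v _ x.1).2 ⟨rfl, x.2⟩⟩,
        fun {x y} hxy => Or.inl ⟨c v, x.1, y.1, rfl, rfl, hxy⟩⟩
    refine SimpleGraph.Connected.map f ?_ h1
    rintro ⟨a, ha⟩
    rcases a with _ | ⟨i, x⟩
    · exact absurd ha (Finset.notMem_empty v)
    · obtain ⟨hv, hx⟩ := (hBg v i x).1 ha
      subst hv
      exact ⟨⟨x, hx⟩, rfl⟩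
  · rintro (_ | ⟨i, x⟩)
    · show (∅ : Finset V).card ≤ k + 1
      rw [Finset.card_empty]
      exact Nat.zero_le _
    · show ((B i x).map (Function.Embedding.subtype _)).card ≤ k + 1
      rw [Finset.card_map]
      exact hB i x

end DP

end Pool.Agent.Work.MP_8491f2_lc
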