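import Pool.Agent.Work.MP_8491f2_lc.DP.Iso
import Pool.Agent.Work.MP_8491f2_lc.DP.PwUnion
import Pool.Agent.Work.MP_8491f2_lc.DP.TwUnion

/-!
# MP_8491f2_lc/DP, Multi (size M-L): disjoint copies and isolated boundary vertices

PROOF.  Equivalences `eS : Fin (14 * j + r) ≃ (Fin j × Fin 14) ⊕ Fin r`, `ea : Fin (j * a) ≃ Fin j × Fin a`, `eb`.  Partial map `dA : Fin (14 j + r) ⊕ Fin (j a) → Option (Fin j × (Fin 14 ⊕ Fin a))` (`none` on the `r` additional vertices), `A' x` has an edge `u v` when `dA u = some (i, p)`, `dA v = some (i, q)`, `(A (x i)).Adj p q` for some `i, p, q`; `B'` with `dB`.  Embeddings `f i : Fin 14 ⊕ (Fin a ⊕ Fin b) → Fin (14 j + r) ⊕ (Fin (j a) ⊕ Fin (j b))` (`inl t ↦ inl (eS.symm (inl (i, t)))`, ...), with `(glue (A' x) (B' y)).Adj (f i u) (f i v) ↔ (glue (A (x i)) (B (y i))).Adj u v`, and every edge of the big graph is of this form.  `c` = number of the component in `Fin j ⊕ Fin r`.  `PwLe big w → ∀ i, PwLe (glue (A (x i)) (B (y i))) w` (`pwLe_comap`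 with `f i`), so `x i = y i` for all `i`.  Conversely `pwLe_union`, `twLe_union` with `c`: the part `inl i` is isomorphic to the glued graph number `i` (`pwLe_comap` with the inverse map: every vertex of the part is `f i u`), the part `inr t` has one vertex (one bag; e.g. `pw_le_iff`/comap into any graph that satisfies `PwLe`, or directly).
-/

set_option autoImplicit false

namespace Pool.Agent.Work.MP_8491f2_lc

namespace DP

private theorem mu_glue {S α β : Type} (A : SimpleGraph (S ⊕ α)) (B : SimpleGraph (S ⊕ β))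
    (u v : S ⊕ (α ⊕ β)) : (glue A B).Adj u v ↔
      (∃ p q, A.Adj p q ∧ leftEmb S α β p = u ∧ leftEmb S α β q = v) ∨
      (∃ p q, B.Adj p q ∧ rightEmb S α β p = u ∧ rightEmb S α β q = v) := by
  unfold glue
  rw [SimpleGraph.sup_adj, SimpleGraph.map_adj, SimpleGraph.map_adj]

/-- the general argument for a disjoint union of copies -/
private theorem mu_gen (P : ∀ V : Type, SimpleGraph V → Prop)
    (hcom : ∀ (V W : Type) (G : SimpleGraph V) (H : SimpleGraph W) (f : V → W),
      Function.Injective f → (∀ u v, G.Adj u v → H.Adj (f u) (f v)) → P W H → P V G)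
    (hun : ∀ (V ι : Type) [Finite ι] (G : SimpleGraph V) (c : V → ι),
      (∀ u v, G.Adj u v → c u = c v) → (∀ i, P _ (G.induce {v | c v = i})) → P V G)
    {V U U0 I T : Type} [Finite I] [Finite T] (f : I → U → V) (c : V → I ⊕ T)
    (big : SimpleGraph V) (small : I → SimpleGraph U)
    (hE : ∀ u v, big.Adj u v ↔ ∃ i u' v', (small i).Adj u' v' ∧ f i u' = u ∧ f i v' = v)
    (hcf : ∀ i u, c (f i u) = Sum.inl i) (hfc : ∀ v i, c v = Sum.inl i → ∃ u, f i u = v)
    (hct : ∀ v v' t, c v = Sum.inr t → c v' = Sum.inr t → v = v')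
    (hinj : ∀ i, Function.Injective (f i)) (hs : ∀ i, P U (small i))
    (H0 : SimpleGraph U0) (u0 : U0) (h0 : P U0 H0) : P V big := by
  refine hun V (I ⊕ T) big c ?_ ?_
  · intro u v huv
    obtain ⟨i, u', v', -, rfl, rfl⟩ := (hE u v).1 huv
    rw [hcf, hcf]
  · rintro (i | t)
    · choose φ hφ using fun v : {v | c v = Sum.inl i} => hfc v.1 i v.2
      refine hcom _ _ _ (small i) φ ?_ ?_ (hs i)
      · intro u v huv
        apply Subtype.ext
        rw [← hφ u, ← hφ v, huv]
      · intro u v huv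
        have h1 : big.Adj u.1 v.1 := huv
        obtain ⟨i', u', v', h2, h3, h4⟩ := (hE _ _).1 h1
        have h5 : i' = i := by
          have h6 := hcf i' u'
          rw [h3, u.2] at h6
          exact (Sum.inl.inj h6).symm
        subst h5
        have h6 : u' = φ u := hinj i' (h3.trans (hφ u).symm)
        have h7 : v' = φ v := hinj i' (h4.trans (hφ v).symm)
        rw [← h6, ← h7]
        exact h2
    · refine hcom _ _ _ H0 (fun _ => u0) ?_ ?_ h0
      · intro u v _
        exact Subtype.ext (hct _ _ t u.2 v.2)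
      · intro u v huv
        exact absurd (Subtype.ext (hct _ _ t u.2 v.2)) huv.ne

section data

variable {a b j r : ℕ}

private noncomputable def eS (j r : ℕ) : (Fin j × Fin 14) ⊕ Fin r ≃ Fin (14 * j + r) :=
  Fintype.equivFinOfCardEq (by
    rw [Fintype.card_sum, Fintype.card_prod, Fintype.card_fin, Fintype.card_fin,
      Fintype.card_fin, mul_comm])

private noncomputable def eA (j a : ℕ) : Fin j × Fin a ≃ Fin (j * a) := finProdFinEquiv

/-- the inclusion of the component `i` in one half -/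
private noncomputable def gA (r a : ℕ) {j : ℕ} (i : Fin j) :
    Fin 14 ⊕ Fin a ↪ Fin (14 * j + r) ⊕ Fin (j * a) :=
  Function.Embedding.sumMap
    ⟨fun t => eS j r (Sum.inl (i, t)), fun t t' h => by
      have h1 := Sum.inl.inj ((eS j r).injective h)
      exact (Prod.mk.inj h1).2⟩
    ⟨fun u => eA j a (i, u), fun t t' h => by
      have h1 := (eA j a).injective h
      exact (Prod.mk.inj h1).2⟩

/-- the inclusion of the component `i` -/
private noncomputable def fi (r a b : ℕ) {j : ℕ} (i : Fin j) :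
    Fin 14 ⊕ (Fin a ⊕ Fin b) → Fin (14 * j + r) ⊕ (Fin (j * a) ⊕ Fin (j * b)) :=
  Sum.map (fun t => eS j r (Sum.inl (i, t)))
    (Sum.map (fun u => eA j a (i, u)) (fun u => eA j b (i, u)))

private noncomputable def cc (j r a b : ℕ) :
    Fin (14 * j + r) ⊕ (Fin (j * a) ⊕ Fin (j * b)) → Fin j ⊕ Fin r :=
  Sum.elim (fun s => Sum.map Prod.fst id ((eS j r).symm s))
    (Sum.elim (fun u => Sum.inl ((eA j a).symm u).1) (fun u => Sum.inl ((eA j b).symm u).1))

private theorem left_comm (i : Fin j) (p : Fin 14 ⊕ Fin a) :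
    leftEmb (Fin (14 * j + r)) (Fin (j * a)) (Fin (j * b)) (gA r a i p) =
      fi r a b i (leftEmb (Fin 14) (Fin a) (Fin b) p) := by
  rcases p with p | p <;> rfl

private theorem right_comm (i : Fin j) (p : Fin 14 ⊕ Fin b) :
    rightEmb (Fin (14 * j + r)) (Fin (j * a)) (Fin (j * b)) (gA r b i p) =
      fi r a b i (rightEmb (Fin 14) (Fin a) (Fin b) p) := by
  rcases p with p | p <;> rfl

private theorem cc_fi (i : Fin j) (u : Fin 14 ⊕ (Fin a ⊕ Fin b)) :
    cc j r a b (fi r a b i u) = Sum.inl i := by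
  rcases u with u | u | u
  · show Sum.map Prod.fst id ((eS j r).symm (eS j r (Sum.inl (i, u)))) = _
    rw [Equiv.symm_apply_apply]
    rfl
  · show Sum.inl ((eA j a).symm (eA j a (i, u))).1 = _
    rw [Equiv.symm_apply_apply]
  · show Sum.inl ((eA j b).symm (eA j b (i, u))).1 = _
    rw [Equiv.symm_apply_apply]

private theorem fi_surj (v : Fin (14 * j + r) ⊕ (Fin (j * a) ⊕ Fin (j * b))) (i : Fin j)
    (h : cc j r a b v = Sum.inl i) : ∃ u, fi r a b i u = v := by
  rcases v with v | v | v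
  · have h1 : Sum.map Prod.fst id ((eS j r).symm v) = Sum.inl i := h
    rcases h2 : (eS j r).symm v with ⟨i', t⟩ | t
    · rw [h2] at h1
      have h3 : i' = i := Sum.inl.inj h1
      subst h3
      refine ⟨Sum.inl t, ?_⟩
      show Sum.inl (eS j r (Sum.inl (i', t))) = _
      rw [← h2, Equiv.apply_symm_apply]
    · rw [h2] at h1
      exact absurd h1 (by simp)
  · have h1 : ((eA j a).symm v).1 = i := Sum.inl.inj h
    refine ⟨Sum.inr (Sum.inl ((eA j a).symm v).2), ?_⟩
    show Sum.inr (Sum.inl (eA j a (i, ((eA j a).symm v).2))) = _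
    rw [← h1, Prod.mk.eta, Equiv.apply_symm_apply]
  · have h1 : ((eA j b).symm v).1 = i := Sum.inl.inj h
    refine ⟨Sum.inr (Sum.inr ((eA j b).symm v).2), ?_⟩
    show Sum.inr (Sum.inr (eA j b (i, ((eA j b).symm v).2))) = _
    rw [← h1, Prod.mk.eta, Equiv.apply_symm_apply]

private theorem cc_inr (v : Fin (14 * j + r) ⊕ (Fin (j * a) ⊕ Fin (j * b))) (t : Fin r)
    (h : cc j r a b v = Sum.inr t) : v = Sum.inl (eS j r (Sum.inr t)) := by
  rcases v with v | v | v
  · have h1 : Sum.map Prod.fst id ((eS j r).symm v) = Sum.inr t := h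
    rcases h2 : (eS j r).symm v with ⟨i', t'⟩ | t'
    · rw [h2] at h1
      exact absurd h1 (by simp)
    · rw [h2] at h1
      have h3 : t' = t := Sum.inr.inj h1
      rw [← h3, ← h2, Equiv.apply_symm_apply]
  · exact absurd h (by
      show ¬ (Sum.inl ((eA j a).symm v).1 = Sum.inr t)
      simp)
  · exact absurd h (by
      show ¬ (Sum.inl ((eA j b).symm v).1 = Sum.inr t)
      simp)

private theorem fi_inj (i : Fin j) : Function.Injective (fi r a b i) := by
  unfold fi
  refine Function.Injective.sumMap (fun t t' h => ?_) (Function.Injective.sumMap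
    (fun t t' h => ?_) (fun t t' h => ?_))
  · exact (Prod.mk.inj (Sum.inl.inj ((eS j r).injective h))).2
  · exact (Prod.mk.inj ((eA j a).injective h)).2
  · exact (Prod.mk.inj ((eA j b).injective h)).2

/-- the graph of one half -/
private noncomputable def half {m a : ℕ} (r : ℕ) {j : ℕ}
    (A : (Fin m → Bool) → SimpleGraph (Fin 14 ⊕ Fin a)) (x : Fin j → Fin m → Bool) :
    SimpleGraph (Fin (14 * j + r) ⊕ Fin (j * a)) :=
  ⨆ i, (A (x i)).map (gA r a i)

private theorem half_adj {m : ℕ} (A : (Fin m → Bool) → SimpleGraph (Fin 14 ⊕ Fin a))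
    (x : Fin j → Fin m → Bool) (u v : Fin (14 * j + r) ⊕ Fin (j * a)) :
    (half r A x).Adj u v ↔ ∃ i p q, (A (x i)).Adj p q ∧ gA r a i p = u ∧ gA r a i q = v := by
  unfold half
  rw [SimpleGraph.iSup_adj]
  simp only [SimpleGraph.map_adj]

private theorem big_adj {m : ℕ} (A : (Fin m → Bool) → SimpleGraph (Fin 14 ⊕ Fin a))
    (B : (Fin m → Bool) → SimpleGraph (Fin 14 ⊕ Fin b)) (x y : Fin j → Fin m → Bool)
    (u v : Fin (14 * j + r) ⊕ (Fin (j * a) ⊕ Fin (j * b))) :
    (glue (half r A x) (half r B y)).Adj u v ↔ ∃ i u' v',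
      (glue (A (x i)) (B (y i))).Adj u' v' ∧ fi r a b i u' = u ∧ fi r a b i v' = v := by
  rw [mu_glue]
  constructor
  · rintro (⟨p, q, h, rfl, rfl⟩ | ⟨p, q, h, rfl, rfl⟩)
    · obtain ⟨i, p', q', h', rfl, rfl⟩ := (half_adj A x p q).1 h
      exact ⟨i, _, _, (mu_glue _ _ _ _).2 (Or.inl ⟨p', q', h', rfl, rfl⟩),
        (left_comm i p').symm, (left_comm i q').symm⟩
    · obtain ⟨i, p', q', h', rfl, rfl⟩ := (half_adj B y p q).1 h
      exact ⟨i, _, _, (mu_glue _ _ _ _).2 (Or.inr ⟨p', q', h', rfl, rfl⟩),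
        (right_comm i p').symm, (right_comm i q').symm⟩
  · rintro ⟨i, u', v', h, rfl, rfl⟩
    rcases (mu_glue _ _ _ _).1 h with ⟨p, q, h', rfl, rfl⟩ | ⟨p, q, h', rfl, rfl⟩
    · exact Or.inl ⟨gA r a i p, gA r a i q, (half_adj A x _ _).2 ⟨i, p, q, h', rfl, rfl⟩,
        left_comm i p, left_comm i q⟩
    · exact Or.inr ⟨gA r b i p, gA r b i q, (half_adj B y _ _).2 ⟨i, p, q, h', rfl, rfl⟩,
        right_comm i p, right_comm i q⟩

end data

theorem multi {m a b t w : ℕ} (A : (Fin m → Bool) → SimpleGraph (Fin 14 ⊕ Fin a))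
    (B : (Fin m → Bool) → SimpleGraph (Fin 14 ⊕ Fin b))
    (htw : ∀ x y, TwLe (glue (A x) (B y)) t)
    (hpw : ∀ x y, PwLe (glue (A x) (B y)) w ↔ x = y) (j r : ℕ) :
    ∃ (A' : (Fin j → Fin m → Bool) → SimpleGraph (Fin (14 * j + r) ⊕ Fin (j * a)))
      (B' : (Fin j → Fin m → Bool) → SimpleGraph (Fin (14 * j + r) ⊕ Fin (j * b))),
      (∀ x y, TwLe (glue (A' x) (B' y)) t) ∧
      ∀ x y, PwLe (glue (A' x) (B' y)) w ↔ x = y := by
  refine ⟨half r A, half r B, fun x y => ?_, fun x y => ⟨fun h => ?_, ?_⟩⟩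
  · exact mu_gen (fun V G => TwLe G t) (fun V W G H f hf h hk => twLe_comap f hf h hk)
      (fun V ι _ G c hc h => twLe_union G c hc t h) (fi r a b) (cc j r a b)
      (glue (half r A x) (half r B y)) (fun i => glue (A (x i)) (B (y i)))
      (big_adj A B x y) cc_fi fi_surj
      (fun v v' t h h' => (cc_inr v t h).trans (cc_inr v' t h').symm) fi_inj
      (fun i => htw _ _) (glue (A fun _ => false) (B fun _ => false)) (Sum.inl 0) (htw _ _)
  · funext i
    refine (hpw (x i) (y i)).1 (pwLe_comap (fi r a b i) (fi_inj i) (fun u v huv => ?_) h)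
    exact (big_adj A B x y _ _).2 ⟨i, u, v, huv, rfl, rfl⟩
  · rintro rfl
    exact mu_gen (fun V G => PwLe G w) (fun V W G H f hf h hk => pwLe_comap f hf h hk)
      (fun V ι _ G c hc h => pwLe_union G c hc w h) (fi r a b) (cc j r a b)
      (glue (half r A x) (half r B x)) (fun i => glue (A (x i)) (B (x i)))
      (big_adj A B x x) cc_fi fi_surj
      (fun v v' t h h' => (cc_inr v t h).trans (cc_inr v' t h').symm) fi_inj
      (fun i => (hpw _ _).2 rfl) (glue (A fun _ => false) (B fun _ => false)) (Sum.inl 0)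
      ((hpw _ _).2 rfl)

end DP

end Pool.Agent.Work.MP_8491f2_lc
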