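import Pool.Agent.Work.MP_8491f2_lc.DP.Comp
import Pool.Agent.Work.MP_8491f2_lc.DP.Multi
import Pool.Agent.Work.MP_8491f2_lc.DP.Count

/-!
# MP_8491f2_lc/DP, Main (size S-M): the fooling set

PROOF.  `κ = (k + 2) / 3`, `j = s / 14`, `r = s % 14`; `count` gives `n₀` and `m`; `comp` gives `a, b, A, B` with `w = 27 (m + 5) + 2 κ + 11`; `multi` gives `A', B'` on `Fin (14 j + r)`, rewrite `14 j + r = s` (`Nat.div_add_mod`).  `N = 2 ^ (j m)` is the number of functions `Fin j → Fin m → Bool`; reindex by an equivalence with `Fin N`.  Size: `s + j a + j b ≤ s + j (14 + a + b)`.  `3 κ - 2 ≤ k` (`twLe_mono`), `tw_le_iff`, `pw_le_iff`.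
-/

set_option autoImplicit false

namespace Pool.Agent.Work.MP_8491f2_lc

namespace DP

private theorem fool_aux {s s' n m j a b w k : ℕ} (hs : s' = s)
    (A' : (Fin j → Fin m → Bool) → SimpleGraph (Fin s' ⊕ Fin (j * a)))
    (B' : (Fin j → Fin m → Bool) → SimpleGraph (Fin s' ⊕ Fin (j * b)))
    (htw : ∀ x y, TwLe (glue (A' x) (B' y)) k) (hpw : ∀ x y, PwLe (glue (A' x) (B' y)) w ↔ x = y)
    (hsz : s + j * a + j * b ≤ n) (hN : (n : ℝ) ^ ((s : ℝ) * k / 10000) ≤ 2 ^ (j * m)) :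
    ∃ (w a b N : ℕ) (A : Fin N → SimpleGraph (Fin s ⊕ Fin a))
      (B : Fin N → SimpleGraph (Fin s ⊕ Fin b)),
      s + a + b ≤ n ∧ (n : ℝ) ^ ((s : ℝ) * k / 10000) ≤ N ∧
      (∀ i j, tw (glue (A i) (B j)) ≤ k) ∧ ∀ i j, (pw (glue (A i) (B j)) ≤ w ↔ i = j) := by
  subst hs
  have hcard : Fintype.card (Fin j → Fin m → Bool) = 2 ^ (j * m) := by
    rw [Fintype.card_fun, Fintype.card_fun, Fintype.card_bool, Fintype.card_fin, Fintype.card_fin,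
      ← pow_mul, mul_comm]
  let e : Fin (2 ^ (j * m)) ≃ (Fin j → Fin m → Bool) := (Fintype.equivFinOfCardEq hcard).symm
  refine ⟨w, j * a, j * b, 2 ^ (j * m), fun i => A' (e i), fun i => B' (e i), hsz, ?_, ?_, ?_⟩
  · rw [Nat.cast_pow, Nat.cast_ofNat]
    exact hN
  · intro i i'
    exact (tw_le_iff _ _).2 (htw _ _)
  · intro i i'
    rw [pw_le_iff, hpw, e.injective.eq_iff]

theorem fooling (s k : ℕ) (hs : 14 ≤ s) (hk : 16 ≤ k) : ∃ n₀ : ℕ, ∀ n ≥ n₀,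
    ∃ (w a b N : ℕ) (A : Fin N → SimpleGraph (Fin s ⊕ Fin a))
      (B : Fin N → SimpleGraph (Fin s ⊕ Fin b)),
      s + a + b ≤ n ∧ (n : ℝ) ^ ((s : ℝ) * k / 10000) ≤ N ∧
      (∀ i j, tw (glue (A i) (B j)) ≤ k) ∧ ∀ i j, (pw (glue (A i) (B j)) ≤ w ↔ i = j) := by
  obtain ⟨n₀, hn₀⟩ := count s k hs hk
  refine ⟨n₀, fun n hn => ?_⟩
  obtain ⟨m, h1, h2⟩ := hn₀ n hn
  have hκ : 6 ≤ (k + 2) / 3 := by omega
  obtain ⟨a, b, A, B, hab, htw, hpw⟩ := comp hκ m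
  obtain ⟨A', B', htw', hpw'⟩ := multi A B htw hpw (s / 14) (s % 14)
  refine fool_aux (Nat.div_add_mod s 14) A' B' (fun x y => twLe_mono (htw' x y) (by omega)) hpw'
    ?_ h2
  have h3 : s / 14 * (14 + a + b) ≤ s / 14 * ((18 * (m + 5) + 2) * (6 * ((k + 2) / 3)) *
      3 ^ ((27 * (m + 5) + 2 * ((k + 2) / 3) + 10) / ((k + 2) / 3))) :=
    Nat.mul_le_mul_left _ hab
  have h4 : s / 14 * (14 + a + b) = s / 14 * 14 + s / 14 * a + s / 14 * b := by ring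
  omega

end DP

end Pool.Agent.Work.MP_8491f2_lc
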