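import Pool.Agent.Work.MP_8491f2_lc.DP.Form
import Pool.Agent.Work.MP_8491f2_lc.UnitsDefs

/-!
# MP_8491f2_lc/DP, Nx (size M): the next units

`tok (quads m x y) τ`, `g = τ / 9`, `i = τ % 9` (see `getD_flatMap`, `tok_block` in Units, private there, copy them): for `τ < 9 m`: `i = 0, 5`: `some (if x g then 0 else 1)`; `i = 1, 6`: `some 2`; `i = 2, 7`: `some 4`; `i = 3, 8`: `some (if y g then 5 else 3)`; `i = 4`: `none`.  For `τ ≥ 9 m` it does not depend on `x, y` (position in `tokens fixedQ`), `tok (9 m) = some 0`, `tok (9 m + 1) = some 1`.  So: at the units `IsA'` the token depends on `x` only and is `some 0` or `some 1`; at the other units `τ < 9 m` it depends on `y` only and is not `some 0`, `some 1`.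
`nxOf C τ` = first `τ' < 9 (m + 5)` with `τ < τ'`, `tok τ'` not `none`, `tok τ' = tok τ` (`9 (m + 5)` if there is none).
PROOFS.  `nx_left`: the predicates on `τ'` are the same for `y` and `y'`: `tok τ` is the same; for `τ'` in `IsA'` or `≥ 9 m` the tokens `tok τ'` are the same; for the other `τ' < 9 m` both predicates are false.  `nx_right`: `τ < 9 m`: `tok τ` is the same for `x` and `x'`, not `some 0`, `some 1`; for `τ'` in `IsA'` both predicates are false, for the others the tokens are the same; `τ ≥ 9 m`: only `τ' > τ` count.  `nx_mem_left`: `tok τ` is `some 0` or `some 1`, so `9 m` or `9 m + 1` satisfies the predicate and `nx ≤ 9 m + 1`; below `9 m` only units `IsA'` have such a token.  `nx_mem_right`: if `τ < 9 m` then `tok τ` is not `some 0`, `some 1`, but all units `IsA` have one of these tokens (and `9 (m + 5)` is not `IsA`); if `τ ≥ 9 m + 1` then `nx > τ` (or `= 9 (m + 5)`); if `τ = 9 m`: `nx > 9 m` and `tok (9 m + 1) ≠ tok (9 m)`.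
`hv_quads`: the list in `hvOf` depends on the length only (`List.flatMap` of a constant function); `hv_cut`: `getD_flatMap` at `9 m + 0`, `9 m + 1`.
-/

set_option autoImplicit false

namespace Pool.Agent.Work.MP_8491f2_lc

namespace DP

private theorem nx_getD_flatMap {α β : Type} (f : α → List β) (m : ℕ) (hf : ∀ a, (f a).length = m)
    (d : β) : ∀ (C : List α) (g i : ℕ) (hg : g < C.length), i < m →
    (C.flatMap f).getD (m * g + i) d = (f (C[g]'hg)).getD i d := by
  intro C
  induction C with
  | nil => intro g i hg; simp at hg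
  | cons a C ih =>
    intro g i hg hi
    rw [List.flatMap_cons]
    cases g with
    | zero =>
      rw [Nat.mul_zero, Nat.zero_add, List.getD_append _ _ _ _ (by rw [hf]; exact hi)]
      simp
    | succ g =>
      rw [List.getD_append_right _ _ _ _ (by rw [hf]; nlinarith)]
      have h1 : m * (g + 1) + i - (f a).length = m * g + i := by
        rw [hf, Nat.mul_succ]; omega
      rw [h1, ih g i (by simpa using hg) hi]
      simp

private theorem nx_tok_block (C : List Quad) (g i : ℕ) (hg : g < C.length) (hi : i < 9) :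
    tok C (9 * g + i) = [some (C[g]'hg).1, some (C[g]'hg).2.1, some (C[g]'hg).2.2.1,
      some (C[g]'hg).2.2.2, none, some (C[g]'hg).1, some (C[g]'hg).2.1, some (C[g]'hg).2.2.1,
      some (C[g]'hg).2.2.2].getD i none := by
  unfold tok tokens
  exact nx_getD_flatMap _ 9 (fun a => by simp) none C g i hg hi

private theorem nx_hv_block (C : List Quad) (g i : ℕ) (hg : g < C.length) (hi : i < 9) :
    hvOf C (9 * g + i) = decide (i < 4) := by
  unfold hvOf
  rw [nx_getD_flatMap _ 9 (fun a => by simp) false C g i hg hi]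
  interval_cases i <;> rfl

private theorem nx_get_left (m : ℕ) (x y : ℕ → Bool) (g : ℕ) (hg : g < m) :
    (quads m x y)[g]'(by rw [quads_length]; omega) = vq (x g) (y g) := by
  unfold quads
  rw [List.getElem_append_left (by simpa using hg)]
  simp

private theorem nx_get_right (m : ℕ) (x y : ℕ → Bool) (g : ℕ) (hg : g < 5) :
    (quads m x y)[m + g]'(by rw [quads_length]; omega) = fixedQ[g]'(by simpa [fixedQ] using hg) := by
  unfold quads
  rw [List.getElem_append_right (by simp)]
  simp

private theorem nx_tok_var (m : ℕ) (x y : ℕ → Bool) (τ : ℕ) (h : τ < 9 * m) :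
    tok (quads m x y) τ = [some (if x (τ / 9) then 0 else 1), some 2, some 4,
      some (if y (τ / 9) then 5 else 3), none, some (if x (τ / 9) then 0 else 1), some 2, some 4,
      some (if y (τ / 9) then 5 else 3)].getD (τ % 9) none := by
  have hg : τ / 9 < m := by omega
  have h1 := nx_tok_block (quads m x y) (τ / 9) (τ % 9) (by rw [quads_length]; omega) (by omega)
  rw [nx_get_left m x y (τ / 9) hg] at h1
  have h2 : 9 * (τ / 9) + τ % 9 = τ := by omega
  rw [h2] at h1
  exact h1

private theorem nx_tok_fix (m : ℕ) (x y x' y' : ℕ → Bool) (τ : ℕ) (h : 9 * m ≤ τ) :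
    tok (quads m x y) τ = tok (quads m x' y') τ := by
  by_cases hT : τ < 9 * (m + 5)
  · have h1 := nx_tok_block (quads m x y) (m + (τ / 9 - m)) (τ % 9) (by rw [quads_length]; omega)
      (by omega)
    have h2 := nx_tok_block (quads m x' y') (m + (τ / 9 - m)) (τ % 9) (by rw [quads_length]; omega)
      (by omega)
    rw [nx_get_right m x y (τ / 9 - m) (by omega)] at h1
    rw [nx_get_right m x' y' (τ / 9 - m) (by omega)] at h2
    have h3 : 9 * (m + (τ / 9 - m)) + τ % 9 = τ := by omega
    rw [h3] at h1 h2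
    rw [h1, h2]
  · have h1 : ∀ u v : ℕ → Bool, tok (quads m u v) τ = none := by
      intro u v
      unfold tok
      apply List.getD_eq_default
      have h4 : (tokens (quads m u v)).length = 9 * (quads m u v).length := by
        unfold tokens
        generalize quads m u v = C
        induction C with
        | nil => simp
        | cons a C ih => rw [List.flatMap_cons, List.length_append, ih]; simp; omega
      rw [h4, quads_length]
      omega
    rw [h1, h1]

private theorem nx_tok_A (m : ℕ) (x y : ℕ → Bool) (τ : ℕ) (h : IsA' m τ) :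
    tok (quads m x y) τ = some (if x (τ / 9) then 0 else 1) := by
  rw [nx_tok_var m x y τ h.1]
  rcases h.2 with h2 | h2 <;> rw [h2] <;> rfl

private theorem nx_tok_B (m : ℕ) (x x' y : ℕ → Bool) (τ : ℕ) (h : ¬ IsA' m τ) (hτ : τ < 9 * m) :
    tok (quads m x y) τ = tok (quads m x' y) τ ∧ tok (quads m x y) τ ≠ some 0 ∧
      tok (quads m x y) τ ≠ some 1 := by
  rw [nx_tok_var m x y τ hτ, nx_tok_var m x' y τ hτ]
  have h1 : τ % 9 ≠ 0 := fun h2 => h ⟨hτ, Or.inl h2⟩
  have h2 : τ % 9 ≠ 5 := fun h2 => h ⟨hτ, Or.inr h2⟩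
  have h3 : τ % 9 < 9 := Nat.mod_lt _ (by norm_num)
  generalize τ % 9 = i at h1 h2 h3
  cases y (τ / 9) <;> interval_cases i <;> simp at h1 h2 ⊢

private theorem nx_tok_cut (m : ℕ) (x y : ℕ → Bool) :
    tok (quads m x y) (9 * m) = some 0 ∧ tok (quads m x y) (9 * m + 1) = some 1 := by
  have h1 := nx_tok_block (quads m x y) (m + 0) 0 (by rw [quads_length]; omega) (by norm_num)
  have h2 := nx_tok_block (quads m x y) (m + 0) 1 (by rw [quads_length]; omega) (by norm_num)
  rw [nx_get_right m x y 0 (by omega)] at h1 h2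
  exact ⟨h1, h2⟩

private def nxCand (C : List Quad) (σ ρ : ℕ) : Prop :=
  σ < ρ ∧ (tok C ρ).isSome = true ∧ tok C ρ = tok C σ

private theorem nx_spec (C : List Quad) (σ : ℕ) :
    (nxOf C σ < 9 * C.length ∧ nxCand C σ (nxOf C σ) ∧ ∀ ρ < nxOf C σ, ¬ nxCand C σ ρ) ∨
    (nxOf C σ = 9 * C.length ∧ ∀ ρ < 9 * C.length, ¬ nxCand C σ ρ) := by
  set p : ℕ → Bool := fun τ' =>
    decide (σ < τ') && ((tok C τ').isSome && decide (tok C τ' = tok C σ)) with hp
  have hpc : ∀ ρ, p ρ = true ↔ nxCand C σ ρ := by
    intro ρ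
    simp [hp, nxCand]
  have hn : nxOf C σ = ((List.range (9 * C.length)).find? p).getD (9 * C.length) := by
    unfold nxOf
    rw [List.head?_filter]
  rcases hf : (List.range (9 * C.length)).find? p with _ | i
  · right
    rw [hn, hf]
    refine ⟨rfl, fun ρ hρ hc => ?_⟩
    rw [List.find?_eq_none] at hf
    exact hf ρ (List.mem_range.mpr hρ) ((hpc ρ).mpr hc)
  · left
    rw [hn, hf]
    rw [List.find?_range_eq_some] at hf
    obtain ⟨h1, h2, h3⟩ := hf
    refine ⟨by simpa using h2, by simpa using (hpc i).mp h1, fun ρ hρ hc => ?_⟩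
    have := h3 ρ (by simpa using hρ)
    rw [(hpc ρ).mpr hc] at this
    simp at this

private theorem nx_congr {C C' : List Quad} {σ : ℕ} (hl : C.length = C'.length)
    (h : ∀ ρ, σ < ρ → (nxCand C σ ρ ↔ nxCand C' σ ρ)) : nxOf C σ = nxOf C' σ := by
  have h' : ∀ ρ, nxCand C σ ρ ↔ nxCand C' σ ρ := by
    intro ρ
    by_cases hρ : σ < ρ
    · exact h ρ hρ
    · exact ⟨fun hc => absurd hc.1 hρ, fun hc => absurd hc.1 hρ⟩
  rcases nx_spec C σ with ⟨h1, h2, h3⟩ | ⟨h1, h2⟩ <;>
    rcases nx_spec C' σ with ⟨h4, h5, h6⟩ | ⟨h4, h5⟩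
  · apply le_antisymm
    · by_contra hc
      exact h3 _ (by omega) ((h' _).2 h5)
    · by_contra hc
      exact h6 _ (by omega) ((h' _).1 h2)
  · exact absurd ((h' _).1 h2) (h5 _ (by omega))
  · exact absurd ((h' _).2 h5) (h2 _ (by omega))
  · rw [h1, h4, hl]

theorem nx_left {m τ : ℕ} (h : IsA' m τ) (x y y' : ℕ → Bool) :
    nxOf (quads m x y) τ = nxOf (quads m x y') τ := by
  apply nx_congr (by rw [quads_length, quads_length])
  intro ρ _
  unfold nxCand
  rw [nx_tok_A m x y τ h, nx_tok_A m x y' τ h]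
  by_cases h1 : ρ < 9 * m
  · by_cases h2 : IsA' m ρ
    · rw [nx_tok_A m x y ρ h2, nx_tok_A m x y' ρ h2]
    · obtain ⟨-, h3, h4⟩ := nx_tok_B m x x y ρ h2 h1
      obtain ⟨-, h5, h6⟩ := nx_tok_B m x x y' ρ h2 h1
      constructor
      · rintro ⟨_, _, h7⟩
        cases hx : x (τ / 9)
        · rw [hx] at h7; exact absurd h7 h4
        · rw [hx] at h7; exact absurd h7 h3
      · rintro ⟨_, _, h7⟩
        cases hx : x (τ / 9)
        · rw [hx] at h7; exact absurd h7 h6
        · rw [hx] at h7; exact absurd h7 h5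
  · rw [nx_tok_fix m x y x y' ρ (by omega)]

theorem nx_right {m τ : ℕ} (h : ¬ IsA' m τ) (x x' y : ℕ → Bool) :
    nxOf (quads m x y) τ = nxOf (quads m x' y) τ := by
  apply nx_congr (by rw [quads_length, quads_length])
  intro ρ hρ
  unfold nxCand
  by_cases hτ : τ < 9 * m
  · obtain ⟨h1, h2, h3⟩ := nx_tok_B m x x' y τ h hτ
    rw [← h1]
    by_cases h4 : ρ < 9 * m
    · by_cases h5 : IsA' m ρ
      · rw [nx_tok_A m x y ρ h5, nx_tok_A m x' y ρ h5]
        constructor
        · rintro ⟨_, _, h7⟩
          cases hx : x (ρ / 9)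
          · rw [hx] at h7; exact absurd h7.symm h3
          · rw [hx] at h7; exact absurd h7.symm h2
        · rintro ⟨_, _, h7⟩
          cases hx : x' (ρ / 9)
          · rw [hx] at h7; exact absurd h7.symm h3
          · rw [hx] at h7; exact absurd h7.symm h2
      · rw [(nx_tok_B m x x' y ρ h5 h4).1]
    · rw [nx_tok_fix m x y x' y ρ (by omega)]
  · rw [nx_tok_fix m x y x' y τ (by omega), nx_tok_fix m x y x' y ρ (by omega)]

theorem nx_mem_left {m τ : ℕ} (h : IsA' m τ) (x y : ℕ → Bool) :
    IsA m (nxOf (quads m x y) τ) := by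
  have hτ := h.1
  obtain ⟨ρ0, hρ0, hc0⟩ : ∃ ρ0, ρ0 ≤ 9 * m + 1 ∧ nxCand (quads m x y) τ ρ0 := by
    cases hx : x (τ / 9)
    · refine ⟨9 * m + 1, le_rfl, by omega, ?_, ?_⟩
      · rw [(nx_tok_cut m x y).2]; rfl
      · rw [(nx_tok_cut m x y).2, nx_tok_A m x y τ h, hx]; rfl
    · refine ⟨9 * m, by omega, by omega, ?_, ?_⟩
      · rw [(nx_tok_cut m x y).1]; rfl
      · rw [(nx_tok_cut m x y).1, nx_tok_A m x y τ h, hx]; rfl
  rcases nx_spec (quads m x y) τ with ⟨h1, h2, h3⟩ | ⟨h1, h2⟩
  · have h4 : nxOf (quads m x y) τ ≤ 9 * m + 1 := by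
      by_contra hc
      exact h3 ρ0 (by omega) hc0
    by_cases h5 : nxOf (quads m x y) τ < 9 * m
    · left
      by_contra h6
      obtain ⟨-, h7, h8⟩ := nx_tok_B m x x y _ h6 h5
      have h9 := h2.2.2
      rw [nx_tok_A m x y τ h] at h9
      cases hx : x (τ / 9)
      · rw [hx] at h9; exact h8 h9
      · rw [hx] at h9; exact h7 h9
    · right
      omega
  · exact absurd hc0 (h2 ρ0 (by rw [quads_length]; omega))

theorem nx_mem_right {m τ : ℕ} (h : ¬ IsA' m τ) (x y : ℕ → Bool) :
    ¬ IsA m (nxOf (quads m x y) τ) := by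
  intro hA
  rcases nx_spec (quads m x y) τ with ⟨h1, h2, h3⟩ | ⟨h1, h2⟩
  · have h4 := h2.1
    have h5 := h2.2.2
    by_cases hτ : τ < 9 * m
    · obtain ⟨-, h6, h7⟩ := nx_tok_B m x x y τ h hτ
      rw [← h5] at h6 h7
      rcases hA with hA | hA | hA
      · rw [nx_tok_A m x y _ hA] at h6 h7
        cases hx : x (nxOf (quads m x y) τ / 9)
        · rw [hx] at h7; exact h7 rfl
        · rw [hx] at h6; exact h6 rfl
      · rw [hA, (nx_tok_cut m x y).1] at h6
        exact h6 rfl
      · rw [hA, (nx_tok_cut m x y).2] at h7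
        exact h7 rfl
    · rcases hA with hA | hA | hA
      · have := hA.1
        omega
      · omega
      · have h8 : τ = 9 * m := by omega
        rw [hA, h8, (nx_tok_cut m x y).1, (nx_tok_cut m x y).2] at h5
        simp at h5
  · rw [h1, quads_length] at hA
    rcases hA with hA | hA | hA
    · have := hA.1
      omega
    · omega
    · omega

theorem hv_quads (m : ℕ) (x y x' y' : ℕ → Bool) : hvOf (quads m x y) = hvOf (quads m x' y') := by
  have h : ∀ C C' : List Quad, C.length = C'.length → (C.flatMap fun _ =>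
      [true, true, true, true, false, false, false, false, false]) = (C'.flatMap fun _ =>
      [true, true, true, true, false, false, false, false, false]) := by
    intro C
    induction C with
    | nil =>
      intro C' hC
      cases C' with
      | nil => rfl
      | cons a C' => simp at hC
    | cons a C ih =>
      intro C' hC
      cases C' with
      | nil => simp at hC
      | cons b C' =>
        rw [List.flatMap_cons, List.flatMap_cons, ih C' (by simpa using hC)]
  funext τ
  unfold hvOf
  rw [h (quads m x y) (quads m x' y') (by rw [quads_length, quads_length])]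

theorem hv_cut (m : ℕ) (x y : ℕ → Bool) :
    hvOf (quads m x y) (9 * m) = true ∧ hvOf (quads m x y) (9 * m + 1) = true := by
  have h1 := nx_hv_block (quads m x y) m 0 (by rw [quads_length]; omega) (by norm_num)
  have h2 := nx_hv_block (quads m x y) m 1 (by rw [quads_length]; omega) (by norm_num)
  exact ⟨h1, h2⟩

end DP

end Pool.Agent.Work.MP_8491f2_lc
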