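import Pool.Agent.Work.MP_8491f2_lc.DP.FormB
import Pool.Agent.Work.MP_8491f2_lc.UnitsDefs

/-!
# MP_8491f2_lc/DP, NxB (size M): the next units, fixed left side

The left units are again `IsA' m τ`: `τ < 9 m`, `τ % 9 = 0` or `5`, with token `some (6 + τ / 9)` (no other unit has this token).  PROOFS as in Nx.lean (proved; copy `nx_getD_flatMap`, `nx_tok_block`, `nx_hv_block`, `nx_spec`, `nx_congr`): for `τ < 9 m` the token is `[some (6 + g), some 2, some 4, some (5 or 3), none, the same four].getD (τ % 9) none`, `g = τ / 9`; for `τ ≥ 9 m` it is the token of `fixedQ`, a variable `< 6` or `none`.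
`nxB_left`: the predicate `τ < ρ`, `tok ρ = some (6 + τ / 9)` does not depend on `x`; its solutions are `ρ = τ + 5` if `τ % 9 = 0`, none if `τ % 9 = 5`.  `nxB_left_mem`: so `nx τ = τ + 5` is `IsA'` or `nx τ = 9 (m + 5)`.  `nxB_right`: if `τ` is not `IsA'` then its token is not of the form `some (6 + g)`, so `nx τ` is not `IsA'` (also not if it is `9 (m + 5)`).
-/

set_option autoImplicit false

namespace Pool.Agent.Work.MP_8491f2_lc

namespace DP

private theorem nx_getD_flatMap {α β : Type} (f : α → List β) (m : ℕ) (hf : ∀ a, (f a).length = m)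
    (d : β) : ∀ (C : List α) (g i : ℕ) (hg : g < C.length), i < m →
    (C.flatMap f).getD (m * g + i) d = (f (C[g]'hg)).getD i d := by
  intro C
  induction C with
  | nil => intro g i hg; simp at hg
  | cons a C ih =>
    intro g i hg hi
    rw [List.flatMap_cons]
    cases g with
    | zero =>
      rw [Nat.mul_zero, Nat.zero_add, List.getD_append _ _ _ _ (by rw [hf]; exact hi)]
      simp
    | succ g =>
      rw [List.getD_append_right _ _ _ _ (by rw [hf]; nlinarith)]
      have h1 : m * (g + 1) + i - (f a).length = m * g + i := by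
        rw [hf, Nat.mul_succ]; omega
      rw [h1, ih g i (by simpa using hg) hi]
      simp

private theorem nx_tok_block (C : List Quad) (g i : ℕ) (hg : g < C.length) (hi : i < 9) :
    tok C (9 * g + i) = [some (C[g]'hg).1, some (C[g]'hg).2.1, some (C[g]'hg).2.2.1,
      some (C[g]'hg).2.2.2, none, some (C[g]'hg).1, some (C[g]'hg).2.1, some (C[g]'hg).2.2.1,
      some (C[g]'hg).2.2.2].getD i none := by
  unfold tok tokens
  exact nx_getD_flatMap _ 9 (fun a => by simp) none C g i hg hi

private theorem nb_get_left (m : ℕ) (x : ℕ → Bool) (g : ℕ) (hg : g < m) :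
    (quadsB m x)[g]'(by rw [quadsB_length]; omega) = (6 + g, 2, 4, if x g then 5 else 3) := by
  unfold quadsB
  rw [List.getElem_append_left (by simpa using hg)]
  simp

private theorem nb_get_right (m : ℕ) (x : ℕ → Bool) (g : ℕ) (hg : g < 5) :
    (quadsB m x)[m + g]'(by rw [quadsB_length]; omega) =
      fixedQ[g]'(by simpa [fixedQ] using hg) := by
  unfold quadsB
  rw [List.getElem_append_right (by simp)]
  simp

private theorem nb_tok_var (m : ℕ) (x : ℕ → Bool) (τ : ℕ) (h : τ < 9 * m) :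
    tok (quadsB m x) τ = [some (6 + τ / 9), some 2, some 4,
      some (if x (τ / 9) then 5 else 3), none, some (6 + τ / 9), some 2, some 4,
      some (if x (τ / 9) then 5 else 3)].getD (τ % 9) none := by
  have hg : τ / 9 < m := by omega
  have h1 := nx_tok_block (quadsB m x) (τ / 9) (τ % 9) (by rw [quadsB_length]; omega) (by omega)
  rw [nb_get_left m x (τ / 9) hg] at h1
  have h2 : 9 * (τ / 9) + τ % 9 = τ := by omega
  rw [h2] at h1
  exact h1

private theorem nb_tok_A (m : ℕ) (x : ℕ → Bool) (τ : ℕ) (h : IsA' m τ) :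
    tok (quadsB m x) τ = some (6 + τ / 9) := by
  rw [nb_tok_var m x τ h.1]
  rcases h.2 with h2 | h2 <;> rw [h2] <;> rfl

private theorem nb_fixed : ∀ q ∈ fixedQ, q.1 < 6 ∧ q.2.1 < 6 ∧ q.2.2.1 < 6 ∧ q.2.2.2 < 6 := by
  decide

private theorem nb_tok_none (m : ℕ) (x : ℕ → Bool) (τ : ℕ) (h : 9 * (m + 5) ≤ τ) :
    tok (quadsB m x) τ = none := by
  unfold tok
  apply List.getD_eq_default
  have h4 : (tokens (quadsB m x)).length = 9 * (quadsB m x).length := by
    unfold tokens
    generalize quadsB m x = C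
    induction C with
    | nil => simp
    | cons a C ih => rw [List.flatMap_cons, List.length_append, ih]; simp; omega
  rw [h4, quadsB_length]
  omega

private theorem nb_tok_B (m : ℕ) (x : ℕ → Bool) (τ : ℕ) (h : ¬ IsA' m τ) (g : ℕ) :
    tok (quadsB m x) τ ≠ some (6 + g) := by
  by_cases hτ : τ < 9 * m
  · rw [nb_tok_var m x τ hτ]
    have h1 : τ % 9 ≠ 0 := fun h2 => h ⟨hτ, Or.inl h2⟩
    have h2 : τ % 9 ≠ 5 := fun h2 => h ⟨hτ, Or.inr h2⟩
    have h3 : τ % 9 < 9 := Nat.mod_lt _ (by norm_num)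
    generalize τ % 9 = i at h1 h2 h3
    cases x (τ / 9) <;> interval_cases i <;> simp at h1 h2 ⊢ <;> omega
  · by_cases hT : τ < 9 * (m + 5)
    · have h1 := nx_tok_block (quadsB m x) (m + (τ / 9 - m)) (τ % 9)
        (by rw [quadsB_length]; omega) (by omega)
      rw [nb_get_right m x (τ / 9 - m) (by omega)] at h1
      have h3 : 9 * (m + (τ / 9 - m)) + τ % 9 = τ := by omega
      rw [h3] at h1
      rw [h1]
      obtain ⟨q1, q2, q3, q4⟩ := nb_fixed _ (List.getElem_mem (l := fixedQ) (n := τ / 9 - m)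
        (by show τ / 9 - m < 5; omega))
      generalize fixedQ[τ / 9 - m]'_ = q at q1 q2 q3 q4
      have h5 : τ % 9 < 9 := Nat.mod_lt _ (by norm_num)
      generalize τ % 9 = i at h5
      interval_cases i <;> simp <;> omega
    · rw [nb_tok_none m x τ (by omega)]
      simp

private def nxCand (C : List Quad) (σ ρ : ℕ) : Prop :=
  σ < ρ ∧ (tok C ρ).isSome = true ∧ tok C ρ = tok C σ

private theorem nx_spec (C : List Quad) (σ : ℕ) :
    (nxOf C σ < 9 * C.length ∧ nxCand C σ (nxOf C σ) ∧ ∀ ρ < nxOf C σ, ¬ nxCand C σ ρ) ∨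
    (nxOf C σ = 9 * C.length ∧ ∀ ρ < 9 * C.length, ¬ nxCand C σ ρ) := by
  set p : ℕ → Bool := fun τ' =>
    decide (σ < τ') && ((tok C τ').isSome && decide (tok C τ' = tok C σ)) with hp
  have hpc : ∀ ρ, p ρ = true ↔ nxCand C σ ρ := by
    intro ρ
    simp [hp, nxCand]
  have hn : nxOf C σ = ((List.range (9 * C.length)).find? p).getD (9 * C.length) := by
    unfold nxOf
    rw [List.head?_filter]
  rcases hf : (List.range (9 * C.length)).find? p with _ | i
  · right
    rw [hn, hf]
    refine ⟨rfl, fun ρ hρ hc => ?_⟩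
    rw [List.find?_eq_none] at hf
    exact hf ρ (List.mem_range.mpr hρ) ((hpc ρ).mpr hc)
  · left
    rw [hn, hf]
    rw [List.find?_range_eq_some] at hf
    obtain ⟨h1, h2, h3⟩ := hf
    refine ⟨by simpa using h2, by simpa using (hpc i).mp h1, fun ρ hρ hc => ?_⟩
    have := h3 ρ (by simpa using hρ)
    rw [(hpc ρ).mpr hc] at this
    simp at this

private theorem nx_congr {C C' : List Quad} {σ : ℕ} (hl : C.length = C'.length)
    (h : ∀ ρ, σ < ρ → (nxCand C σ ρ ↔ nxCand C' σ ρ)) : nxOf C σ = nxOf C' σ := by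
  have h' : ∀ ρ, nxCand C σ ρ ↔ nxCand C' σ ρ := by
    intro ρ
    by_cases hρ : σ < ρ
    · exact h ρ hρ
    · exact ⟨fun hc => absurd hc.1 hρ, fun hc => absurd hc.1 hρ⟩
  rcases nx_spec C σ with ⟨h1, h2, h3⟩ | ⟨h1, h2⟩ <;>
    rcases nx_spec C' σ with ⟨h4, h5, h6⟩ | ⟨h4, h5⟩
  · apply le_antisymm
    · by_contra hc
      exact h3 _ (by omega) ((h' _).2 h5)
    · by_contra hc
      exact h6 _ (by omega) ((h' _).1 h2)
  · exact absurd ((h' _).1 h2) (h5 _ (by omega))
  · exact absurd ((h' _).2 h5) (h2 _ (by omega))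
  · rw [h1, h4, hl]

theorem tokB (m : ℕ) (x : ℕ → Bool) (g : ℕ) (hg : g < m) :
    tok (quadsB m x) (9 * g) = some (6 + g) := by
  have h1 := nb_tok_A m x (9 * g) ⟨by omega, Or.inl (by omega)⟩
  have h2 : 9 * g / 9 = g := by omega
  rw [h2] at h1
  exact h1

theorem nxB_left {m τ : ℕ} (h : IsA' m τ) (x x' : ℕ → Bool) :
    nxOf (quadsB m x) τ = nxOf (quadsB m x') τ := by
  apply nx_congr (by rw [quadsB_length, quadsB_length])
  intro ρ _
  unfold nxCand
  rw [nb_tok_A m x τ h, nb_tok_A m x' τ h]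
  by_cases h2 : IsA' m ρ
  · rw [nb_tok_A m x ρ h2, nb_tok_A m x' ρ h2]
  · constructor
    · rintro ⟨_, _, h3⟩
      exact absurd h3 (nb_tok_B m x ρ h2 _)
    · rintro ⟨_, _, h3⟩
      exact absurd h3 (nb_tok_B m x' ρ h2 _)

theorem nxB_left_mem {m τ : ℕ} (h : IsA' m τ) (x : ℕ → Bool) :
    IsA' m (nxOf (quadsB m x) τ) ∨ nxOf (quadsB m x) τ = 9 * (m + 5) := by
  rcases nx_spec (quadsB m x) τ with ⟨h1, h2, h3⟩ | ⟨h1, h2⟩
  · left
    by_contra h4
    have h5 := h2.2.2
    rw [nb_tok_A m x τ h] at h5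
    exact nb_tok_B m x _ h4 _ h5
  · right
    rw [h1, quadsB_length]

theorem nxB_right {m τ : ℕ} (h : ¬ IsA' m τ) (x : ℕ → Bool) :
    ¬ IsA' m (nxOf (quadsB m x) τ) := by
  intro hA
  rcases nx_spec (quadsB m x) τ with ⟨h1, h2, h3⟩ | ⟨h1, h2⟩
  · have h5 := h2.2.2
    rw [nb_tok_A m x _ hA] at h5
    exact nb_tok_B m x τ h _ h5.symm
  · rw [h1, quadsB_length] at hA
    have := hA.1
    omega

theorem hvB (m : ℕ) (x x' : ℕ → Bool) : hvOf (quadsB m x) = hvOf (quadsB m x') := by
  have h : ∀ C C' : List Quad, C.length = C'.length → (C.flatMap fun _ =>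
      [true, true, true, true, false, false, false, false, false]) = (C'.flatMap fun _ =>
      [true, true, true, true, false, false, false, false, false]) := by
    intro C
    induction C with
    | nil =>
      intro C' hC
      cases C' with
      | nil => rfl
      | cons a C' => simp at hC
    | cons a C ih =>
      intro C' hC
      cases C' with
      | nil => simp at hC
      | cons b C' =>
        rw [List.flatMap_cons, List.flatMap_cons, ih C' (by simpa using hC)]
  funext τ
  unfold hvOf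
  rw [h (quadsB m x) (quadsB m x') (by rw [quadsB_length, quadsB_length])]

end DP

end Pool.Agent.Work.MP_8491f2_lc
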