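import Pool.Agent.Work.MP_8491f2_lc.DP.Adj
import Pool.Agent.Work.MP_8491f2_lc.BuildB

/-!
# MP_8491f2_lc/DP, Part (size M): the vertices of the blow-up, split into boundary, left and right

PROOF.  Let `C = quads m (fun _ => false) (fun _ => false)`, `|C| = m + 5` (`quads_length`), `P = 3 ^ ((27 |C| + 2 κ + 10) / κ)`; `isBlow_graphC` (BuildB) gives an injective `π = (bvxC (κ, C) P).get : Fin n → Vx × ℕ` whose values are exactly the points with `BValid`, `n + 1 ≤` the bound (`length_bvxC_le`).  Split `Fin n` into `{i | Bd m (π i).1}`, `{i | IsA m (π i).1.1.1 ∧ ¬ Bd m (π i).1}`, `{i | ¬ IsA m (π i).1.1.1}` (disjoint and everything: `Bd` implies `IsA`), with `a`, `b` the cardinalities of the last two.  The first set has 14 elements: the points `(rail τ s, j)`, `τ = 9 m` or `9 m + 1`, `j < wt`, `wt (rail τ false) = 4`, `wt (rail τ true) = 3` (`hv_cut`), all valid (`τ < T = 9 (m + 5)`).  `φ` is the equivalence of the sum with `Fin n` followed by `π` (e.g.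 `Equiv.sumCompl` twice, `Fintype.equivFinOfCardEq`).
-/

set_option autoImplicit false

namespace Pool.Agent.Work.MP_8491f2_lc

namespace DP

private theorem pt_wt (κ m : ℕ) (x y : ℕ → Bool) (τ : ℕ) (s : Bool)
    (hτ : τ = 9 * m ∨ τ = 9 * m + 1) :
    (instOf κ (quads m x y)).wt (rail τ s) = if s then 3 else 4 := by
  have h1 := hv_cut m x y
  have h2 : hvOf (quads m x y) τ = true := by
    rcases hτ with rfl | rfl
    · exact h1.1
    · exact h1.2
  show (if hvOf (quads m x y) τ = true ∧ s = false then 4 else 3) = _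
  rw [h2]
  cases s <;> simp

/-- the fourteen boundary points. -/
private def bdPt (m : ℕ) : (Fin 2 × (Fin 4 ⊕ Fin 3)) → Vx × ℕ
  | (i, Sum.inl j) => (rail (9 * m + i.1) false, j.1)
  | (i, Sum.inr j) => (rail (9 * m + i.1) true, j.1)

private theorem bdPt_inj (m : ℕ) : Function.Injective (bdPt m) := by
  rintro ⟨i, a | a⟩ ⟨j, b | b⟩ h
  · simp only [bdPt, Prod.mk.injEq, and_true] at h
    obtain ⟨h1, h2⟩ := h
    have h3 : i = j := Fin.ext (by omega)
    have h4 : a = b := Fin.ext h2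
    rw [h3, h4]
  · simp [bdPt] at h
  · simp [bdPt] at h
  · simp only [bdPt, Prod.mk.injEq, and_true] at h
    obtain ⟨h1, h2⟩ := h
    have h3 : i = j := Fin.ext (by omega)
    have h4 : a = b := Fin.ext h2
    rw [h3, h4]

private theorem bdPt_mem (κ m : ℕ) (x y : ℕ → Bool) (p : Vx × ℕ) :
    ((instOf κ (quads m x y)).BValid p ∧ Bd m p.1) ↔ ∃ q, bdPt m q = p := by
  constructor
  · rintro ⟨⟨h1, h2⟩, h3, h4⟩
    obtain ⟨⟨⟨τ, s⟩, o⟩, j⟩ := p
    simp only at h3 h4
    subst h4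
    have h5 := pt_wt κ m x y τ s h3
    have h6 : j < (instOf κ (quads m x y)).wt (rail τ s) := h2
    rw [h5] at h6
    have h7 : τ - 9 * m < 2 := by omega
    have h8 : 9 * m + (τ - 9 * m) = τ := by omega
    cases s
    · have h9 : j < 4 := by simpa using h6
      refine ⟨(⟨τ - 9 * m, h7⟩, Sum.inl ⟨j, h9⟩), ?_⟩
      simp only [bdPt, h8]
    · have h9 : j < 3 := by simpa using h6
      refine ⟨(⟨τ - 9 * m, h7⟩, Sum.inr ⟨j, h9⟩), ?_⟩
      simp only [bdPt, h8]
  · rintro ⟨⟨i, a | a⟩, rfl⟩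
    · have h1 : 9 * m + i.1 = 9 * m ∨ 9 * m + i.1 = 9 * m + 1 := by
        have := i.2
        omega
      refine ⟨⟨?_, ?_⟩, h1, rfl⟩
      · show 9 * m + i.1 < 9 * (quads m x y).length
        rw [quads_length]
        have := i.2
        omega
      · show a.1 < (instOf κ (quads m x y)).wt (rail (9 * m + i.1) false)
        rw [pt_wt κ m x y _ false h1]
        simp
    · have h1 : 9 * m + i.1 = 9 * m ∨ 9 * m + i.1 = 9 * m + 1 := by
        have := i.2
        omega
      refine ⟨⟨?_, ?_⟩, h1, rfl⟩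
      · show 9 * m + i.1 < 9 * (quads m x y).length
        rw [quads_length]
        have := i.2
        omega
      · show a.1 < (instOf κ (quads m x y)).wt (rail (9 * m + i.1) true)
        rw [pt_wt κ m x y _ true h1]
        simp

theorem part {κ : ℕ} (hκ : 6 ≤ κ) (m : ℕ) :
    ∃ (a b : ℕ) (φ : Fin 14 ⊕ (Fin a ⊕ Fin b) → Vx × ℕ), Function.Injective φ ∧
      (∀ (x y : ℕ → Bool) (p : Vx × ℕ), (∃ i, φ i = p) ↔ (instOf κ (quads m x y)).BValid p) ∧
      (∀ i, Bd m (φ (Sum.inl i)).1) ∧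
      (∀ i, IsA m (φ (Sum.inr (Sum.inl i))).1.1.1 ∧ ¬ Bd m (φ (Sum.inr (Sum.inl i))).1) ∧
      (∀ i, ¬ IsA m (φ (Sum.inr (Sum.inr i))).1.1.1) ∧
      14 + a + b ≤
        (18 * (m + 5) + 2) * (6 * κ) * 3 ^ ((27 * (m + 5) + 2 * κ + 10) / κ) := by
  classical
  have hκ0 : 0 < κ := by omega
  set x0 : ℕ → Bool := fun _ => false with hx0
  set C := quads m x0 x0 with hC
  set P := 3 ^ ((27 * C.length + 2 * κ + 10) / κ) with hP
  have hlen : C.length = m + 5 := quads_length m x0 x0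
  have hblow := isBlow_graphC (κ := κ) hκ0 (C := C) (P := P) le_rfl
  have hcard := length_bvxC_le hκ C P
  set n := (bvxC (κ, C) P).length with hn
  set π : Fin n → Vx × ℕ := (bvxC (κ, C) P).get with hπ
  -- classes
  let pB : Fin n → Prop := fun i => Bd m (π i).1
  let pA : Fin n → Prop := fun i => IsA m (π i).1.1.1
  have hBA : ∀ i, pB i → pA i := fun i h => Or.inr h.1
  -- the boundary has 14 points
  have h14 : Fintype.card {i // pB i} = 14 := by
    have h1 : Fintype.card (Fin 2 × (Fin 4 ⊕ Fin 3)) = 14 := by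
      simp
    rw [← h1]
    have hex : ∀ q, ∃ i : {i // pB i}, π i.1 = bdPt m q := by
      intro q
      have h2 := (bdPt_mem κ m x0 x0 (bdPt m q)).2 ⟨q, rfl⟩
      obtain ⟨i, hi⟩ := hblow.surj _ h2.1
      refine ⟨⟨i, ?_⟩, hi⟩
      show Bd m (π i).1
      rw [show π i = bdPt m q from hi]
      exact h2.2
    choose f hf using hex
    symm
    apply Fintype.card_congr
    refine Equiv.ofBijective f ⟨?_, ?_⟩
    · intro q q' h
      apply bdPt_inj m
      rw [← hf q, ← hf q', h]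
    · rintro ⟨i, hi⟩
      obtain ⟨q, hq⟩ := (bdPt_mem κ m x0 x0 (π i)).1 ⟨hblow.valid i, hi⟩
      refine ⟨q, ?_⟩
      apply Subtype.ext
      apply hblow.inj
      show π (f q).1 = π i
      rw [hf q, hq]
  let a := Fintype.card {i // ¬ pB i ∧ pA i}
  let b := Fintype.card {i // ¬ pB i ∧ ¬ pA i}
  let eB : Fin 14 ≃ {i // pB i} := (Fintype.equivFinOfCardEq h14).symm
  let eA : Fin a ≃ {i // ¬ pB i ∧ pA i} := (Fintype.equivFin _).symm
  let eR : Fin b ≃ {i // ¬ pB i ∧ ¬ pA i} := (Fintype.equivFin _).symm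
  let ψ : Fin 14 ⊕ (Fin a ⊕ Fin b) → Fin n :=
    Sum.elim (fun i => (eB i).1) (Sum.elim (fun i => (eA i).1) (fun i => (eR i).1))
  have hψi : Function.Injective ψ := by
    rintro (i | i | i) (j | j | j) h
    · have h1 : (eB i).1 = (eB j).1 := h
      rw [eB.injective (Subtype.ext h1)]
    · have h1 : (eB i).1 = (eA j).1 := h
      exact absurd (h1 ▸ (eB i).2) (eA j).2.1
    · have h1 : (eB i).1 = (eR j).1 := h
      exact absurd (h1 ▸ (eB i).2) (eR j).2.1
    · have h1 : (eA i).1 = (eB j).1 := h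
      exact absurd (h1 ▸ (eB j).2) (eA i).2.1
    · have h1 : (eA i).1 = (eA j).1 := h
      rw [eA.injective (Subtype.ext h1)]
    · have h1 : (eA i).1 = (eR j).1 := h
      exact absurd (h1 ▸ (eA i).2.2) (eR j).2.2
    · have h1 : (eR i).1 = (eB j).1 := h
      exact absurd (h1 ▸ (eB j).2) (eR i).2.1
    · have h1 : (eR i).1 = (eA j).1 := h
      exact absurd (h1 ▸ (eA j).2.2) (eR i).2.2
    · have h1 : (eR i).1 = (eR j).1 := h
      rw [eR.injective (Subtype.ext h1)]
  have hψs : Function.Surjective ψ := by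
    intro i
    by_cases h1 : pB i
    · refine ⟨Sum.inl (eB.symm ⟨i, h1⟩), ?_⟩
      show (eB (eB.symm ⟨i, h1⟩)).1 = i
      rw [Equiv.apply_symm_apply]
    · by_cases h2 : pA i
      · refine ⟨Sum.inr (Sum.inl (eA.symm ⟨i, h1, h2⟩)), ?_⟩
        show (eA (eA.symm ⟨i, h1, h2⟩)).1 = i
        rw [Equiv.apply_symm_apply]
      · refine ⟨Sum.inr (Sum.inr (eR.symm ⟨i, h1, h2⟩)), ?_⟩
        show (eR (eR.symm ⟨i, h1, h2⟩)).1 = i
        rw [Equiv.apply_symm_apply]
  refine ⟨a, b, fun i => π (ψ i), ?_, ?_, ?_, ?_, ?_, ?_⟩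
  · intro i j h
    exact hψi (hblow.inj h)
  · intro x y p
    rw [bvalid_iff κ m x y x0 x0 p]
    constructor
    · rintro ⟨i, rfl⟩
      exact hblow.valid (ψ i)
    · intro h
      obtain ⟨i, hi⟩ := hblow.surj p h
      obtain ⟨j, rfl⟩ := hψs i
      exact ⟨j, hi⟩
  · intro i
    exact (eB i).2
  · intro i
    exact ⟨(eA i).2.2, (eA i).2.1⟩
  · intro i
    exact (eR i).2.2
  · have h1 : Fintype.card (Fin 14 ⊕ (Fin a ⊕ Fin b)) = Fintype.card (Fin n) :=
      Fintype.card_congr (Equiv.ofBijective ψ ⟨hψi, hψs⟩)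
    simp only [Fintype.card_sum, Fintype.card_fin] at h1
    rw [hlen] at hcard
    omega

end DP

end Pool.Agent.Work.MP_8491f2_lc
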