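import Pool.Agent.Work.MP_8491f2_lc.DP.AdjB
import Pool.Agent.Work.MP_8491f2_lc.BuildB

/-!
# MP_8491f2_lc/DP, PartB (size M): the vertices split, fixed left side

PROOF as in Part.lean (proved): boundary = the `κ` points `(croot m, j)`, `j < κ` (weight `κ`: the word `[]` has length `0 < dep T`, because `ht T = 2 κ + 10`, `dep T = (2 κ + 10) / κ - 1 ≥ 1`; valid: `T = T`, `false = false`), left = units `IsA'`, right = the rest.
-/

set_option autoImplicit false

namespace Pool.Agent.Work.MP_8491f2_lc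

namespace DP

private theorem pb_wt {κ : ℕ} (hκ : 6 ≤ κ) (m : ℕ) (x : ℕ → Bool) :
    (instOf κ (quadsB m x)).wt (croot m) = κ := by
  have hl := quadsB_length m x
  have hne : ¬ (([] : Word).length = (instOf κ (quadsB m x)).dep (9 * (m + 5))) := by
    show ¬ (0 = (27 * (quadsB m x).length + 2 * κ + 10 - 3 * (9 * (m + 5))) / κ - 1)
    rw [hl]
    have h1 : 27 * (m + 5) + 2 * κ + 10 - 3 * (9 * (m + 5)) = 2 * κ + 10 := by omega
    rw [h1]
    have h2 : 2 ≤ (2 * κ + 10) / κ := by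
      rw [Nat.le_div_iff_mul_le (by omega)]
      omega
    omega
  show (if ([] : Word).length = (instOf κ (quadsB m x)).dep (9 * (m + 5)) then
    (instOf κ (quadsB m x)).lam (9 * (m + 5)) else κ) = κ
  rw [if_neg hne]

private theorem pb_valid (κ m : ℕ) (x : ℕ → Bool) : (instOf κ (quadsB m x)).Valid (croot m) := by
  show (9 * (m + 5) < 9 * (quadsB m x).length ∨
    (9 * (m + 5) = 9 * (quadsB m x).length ∧ false = false)) ∧ 0 ≤ _
  rw [quadsB_length]
  exact ⟨Or.inr ⟨rfl, rfl⟩, Nat.zero_le _⟩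

private theorem pb_mem {κ : ℕ} (hκ : 6 ≤ κ) (m : ℕ) (x : ℕ → Bool) (p : Vx × ℕ) :
    ((instOf κ (quadsB m x)).BValid p ∧ p.1 = croot m) ↔ ∃ j : Fin κ, (croot m, j.1) = p := by
  constructor
  · rintro ⟨⟨_, h2⟩, h3⟩
    rw [h3, pb_wt hκ] at h2
    exact ⟨⟨p.2, h2⟩, by rw [← h3]⟩
  · rintro ⟨j, rfl⟩
    refine ⟨⟨pb_valid κ m x, ?_⟩, rfl⟩
    show j.1 < (instOf κ (quadsB m x)).wt (croot m)
    rw [pb_wt hκ]
    exact j.2

theorem partB {κ : ℕ} (hκ : 6 ≤ κ) (m : ℕ) :
    ∃ (a b : ℕ) (φ : Fin κ ⊕ (Fin a ⊕ Fin b) → Vx × ℕ), Function.Injective φ ∧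
      (∀ (x : ℕ → Bool) (p : Vx × ℕ), (∃ i, φ i = p) ↔ (instOf κ (quadsB m x)).BValid p) ∧
      (∀ i, (φ (Sum.inl i)).1 = croot m) ∧
      (∀ i, IsA' m (φ (Sum.inr (Sum.inl i))).1.1.1) ∧
      (∀ i, ¬ IsA' m (φ (Sum.inr (Sum.inr i))).1.1.1 ∧
        (φ (Sum.inr (Sum.inr i))).1 ≠ croot m) ∧
      κ + a + b ≤
        (18 * (m + 5) + 2) * (6 * κ) * 3 ^ ((27 * (m + 5) + 2 * κ + 10) / κ) := by
  classical
  have hκ0 : 0 < κ := by omega
  set x0 : ℕ → Bool := fun _ => false with hx0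
  set C := quadsB m x0 with hC
  set P := 3 ^ ((27 * C.length + 2 * κ + 10) / κ) with hP
  have hlen : C.length = m + 5 := quadsB_length m x0
  have hblow := isBlow_graphC (κ := κ) hκ0 (C := C) (P := P) le_rfl
  have hcard := length_bvxC_le hκ C P
  set n := (bvxC (κ, C) P).length with hn
  set π : Fin n → Vx × ℕ := (bvxC (κ, C) P).get with hπ
  let pB : Fin n → Prop := fun i => (π i).1 = croot m
  let pA : Fin n → Prop := fun i => IsA' m (π i).1.1.1
  have h14 : Fintype.card {i // pB i} = κ := by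
    have hex : ∀ j : Fin κ, ∃ i : {i // pB i}, π i.1 = (croot m, j.1) := by
      intro j
      have h2 := (pb_mem hκ m x0 (croot m, j.1)).2 ⟨j, rfl⟩
      obtain ⟨i, hi⟩ := hblow.surj _ h2.1
      refine ⟨⟨i, ?_⟩, hi⟩
      show (π i).1 = croot m
      rw [show π i = (croot m, j.1) from hi]
    choose f hf using hex
    have h1 : Fintype.card (Fin κ) = Fintype.card {i // pB i} := by
      apply Fintype.card_congr
      refine Equiv.ofBijective f ⟨?_, ?_⟩
      · intro q q' h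
        have h3 : (croot m, q.1) = (croot m, q'.1) := by rw [← hf q, ← hf q', h]
        exact Fin.ext (Prod.mk.inj h3).2
      · rintro ⟨i, hi⟩
        obtain ⟨q, hq⟩ := (pb_mem hκ m x0 (π i)).1 ⟨hblow.valid i, hi⟩
        refine ⟨q, ?_⟩
        apply Subtype.ext
        apply hblow.inj
        show π (f q).1 = π i
        rw [hf q, hq]
    rw [← h1, Fintype.card_fin]
  let a := Fintype.card {i // ¬ pB i ∧ pA i}
  let b := Fintype.card {i // ¬ pB i ∧ ¬ pA i}
  let eB : Fin κ ≃ {i // pB i} := (Fintype.equivFinOfCardEq h14).symm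
  let eA : Fin a ≃ {i // ¬ pB i ∧ pA i} := (Fintype.equivFin _).symm
  let eR : Fin b ≃ {i // ¬ pB i ∧ ¬ pA i} := (Fintype.equivFin _).symm
  let ψ : Fin κ ⊕ (Fin a ⊕ Fin b) → Fin n :=
    Sum.elim (fun i => (eB i).1) (Sum.elim (fun i => (eA i).1) (fun i => (eR i).1))
  have hψi : Function.Injective ψ := by
    rintro (i | i | i) (j | j | j) h
    · have h1 : (eB i).1 = (eB j).1 := h
      rw [eB.injective (Subtype.ext h1)]
    · have h1 : (eB i).1 = (eA j).1 := h
      exact absurd (h1 ▸ (eB i).2) (eA j).2.1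
    · have h1 : (eB i).1 = (eR j).1 := h
      exact absurd (h1 ▸ (eB i).2) (eR j).2.1
    · have h1 : (eA i).1 = (eB j).1 := h
      exact absurd (h1 ▸ (eB j).2) (eA i).2.1
    · have h1 : (eA i).1 = (eA j).1 := h
      rw [eA.injective (Subtype.ext h1)]
    · have h1 : (eA i).1 = (eR j).1 := h
      exact absurd (h1 ▸ (eA i).2.2) (eR j).2.2
    · have h1 : (eR i).1 = (eB j).1 := h
      exact absurd (h1 ▸ (eB j).2) (eR i).2.1
    · have h1 : (eR i).1 = (eA j).1 := h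
      exact absurd (h1 ▸ (eA j).2.2) (eR i).2.2
    · have h1 : (eR i).1 = (eR j).1 := h
      rw [eR.injective (Subtype.ext h1)]
  have hψs : Function.Surjective ψ := by
    intro i
    by_cases h1 : pB i
    · refine ⟨Sum.inl (eB.symm ⟨i, h1⟩), ?_⟩
      show (eB (eB.symm ⟨i, h1⟩)).1 = i
      rw [Equiv.apply_symm_apply]
    · by_cases h2 : pA i
      · refine ⟨Sum.inr (Sum.inl (eA.symm ⟨i, h1, h2⟩)), ?_⟩
        show (eA (eA.symm ⟨i, h1, h2⟩)).1 = i
        rw [Equiv.apply_symm_apply]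
      · refine ⟨Sum.inr (Sum.inr (eR.symm ⟨i, h1, h2⟩)), ?_⟩
        show (eR (eR.symm ⟨i, h1, h2⟩)).1 = i
        rw [Equiv.apply_symm_apply]
  refine ⟨a, b, fun i => π (ψ i), ?_, ?_, ?_, ?_, ?_, ?_⟩
  · intro i j h
    exact hψi (hblow.inj h)
  · intro x p
    rw [bvalidB κ m x x0 p]
    constructor
    · rintro ⟨i, rfl⟩
      exact hblow.valid (ψ i)
    · intro h
      obtain ⟨i, hi⟩ := hblow.surj p h
      obtain ⟨j, rfl⟩ := hψs i
      exact ⟨j, hi⟩
  · intro i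
    exact (eB i).2
  · intro i
    exact (eA i).2.2
  · intro i
    exact ⟨(eR i).2.2, (eR i).2.1⟩
  · have h1 : Fintype.card (Fin κ ⊕ (Fin a ⊕ Fin b)) = Fintype.card (Fin n) :=
      Fintype.card_congr (Equiv.ofBijective ψ ⟨hψi, hψs⟩)
    simp only [Fintype.card_sum, Fintype.card_fin] at h1
    rw [hlen] at hcard
    omega

end DP

end Pool.Agent.Work.MP_8491f2_lc
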